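import Pool.Agent.Helper76.PQ.Defs

set_option autoImplicit false

namespace Helper76.PQ

open Helper76.IG

namespace BaseA

section
variable {p q : ℕ} [NeZero q]

theorem sum_sub (f : ZMod q → ZMod p) (i : ZMod q) : ∑ k, f (k - i) = ∑ k, f k :=
  Equiv.sum_comp (Equiv.subRight i) f

theorem sum_add (f : ZMod q → ZMod p) (i : ZMod q) : ∑ k, f (k + i) = ∑ k, f k :=
  Equiv.sum_comp (Equiv.addRight i) f

end

/-- the group `(F_p × A × F_p) ⋊ (A ⋊ C_q)` -/
@[ext]
structure GG (p q : ℕ) [NeZero q] where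
  α : ZMod p
  z : ZMod q → ZMod p
  β : ZMod p
  y : ZMod q → ZMod p
  i : ZMod q
  hz : ∑ k, z k = 0
  hy : ∑ k, y k = 0

variable {p q : ℕ} [NeZero q]

instance : Mul (GG p q) := ⟨fun x x' =>
  { α := x.α + x'.α
    z := fun k => x.z k + x'.z (k - x.i) + 2 * x'.α * x.y k
    β := x.β + x'.β - ∑ k, x.y k * x'.z (k - x.i) - x'.α * ∑ k, x.y k * x.y k
    y := fun k => x.y k + x'.y (k - x.i)
    i := x.i + x'.i
    hz := by
      rw [Finset.sum_add_distrib, Finset.sum_add_distrib, x.hz, sum_sub x'.z, x'.hz,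
        ← Finset.mul_sum, x.hy]
      ring
    hy := by
      rw [Finset.sum_add_distrib, x.hy, sum_sub x'.y, x'.hy, add_zero] }⟩

instance : One (GG p q) := ⟨⟨0, 0, 0, 0, 0, by simp, by simp⟩⟩

instance : Inv (GG p q) := ⟨fun x =>
  { α := -x.α
    z := fun k => - x.z (k + x.i) + 2 * x.α * x.y (k + x.i)
    β := -x.β - (∑ k, x.y k * x.z k) + x.α * ∑ k, x.y k * x.y k
    y := fun k => - x.y (k + x.i)
    i := -x.i
    hz := by
      rw [Finset.sum_add_distrib, Finset.sum_neg_distrib, sum_add x.z, x.hz,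
        ← Finset.mul_sum, sum_add x.y, x.hy]
      ring
    hy := by
      rw [Finset.sum_neg_distrib, sum_add x.y, x.hy, neg_zero] }⟩

@[simp] theorem mul_α (x x' : GG p q) : (x * x').α = x.α + x'.α := rfl
@[simp] theorem mul_z (x x' : GG p q) (k : ZMod q) :
    (x * x').z k = x.z k + x'.z (k - x.i) + 2 * x'.α * x.y k := rfl
@[simp] theorem mul_β (x x' : GG p q) : (x * x').β =
    x.β + x'.β - ∑ k, x.y k * x'.z (k - x.i) - x'.α * ∑ k, x.y k * x.y k := rfl
@[simp] theorem mul_y (x x' : GG p q) (k : ZMod q) :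
    (x * x').y k = x.y k + x'.y (k - x.i) := rfl
@[simp] theorem mul_i (x x' : GG p q) : (x * x').i = x.i + x'.i := rfl
@[simp] theorem one_α : (1 : GG p q).α = 0 := rfl
@[simp] theorem one_z : (1 : GG p q).z = 0 := rfl
@[simp] theorem one_β : (1 : GG p q).β = 0 := rfl
@[simp] theorem one_y : (1 : GG p q).y = 0 := rfl
@[simp] theorem one_i : (1 : GG p q).i = 0 := rfl
@[simp] theorem inv_α (x : GG p q) : (x⁻¹).α = -x.α := rfl
@[simp] theorem inv_z (x : GG p q) (k : ZMod q) :
    (x⁻¹).z k = - x.z (k + x.i) + 2 * x.α * x.y (k + x.i) := rfl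
@[simp] theorem inv_β (x : GG p q) : (x⁻¹).β =
    -x.β - (∑ k, x.y k * x.z k) + x.α * ∑ k, x.y k * x.y k := rfl
@[simp] theorem inv_y (x : GG p q) (k : ZMod q) : (x⁻¹).y k = - x.y (k + x.i) := rfl
@[simp] theorem inv_i (x : GG p q) : (x⁻¹).i = -x.i := rfl

theorem mul_assoc' (x y z : GG p q) : x * y * z = x * (y * z) := by
  have h1 : ∑ k, y.y (k - x.i) * z.z (k - (x.i + y.i)) = ∑ k, y.y k * z.z (k - y.i) := by
    rw [← sum_sub (fun k => y.y k * z.z (k - y.i)) x.i]
    refine Finset.sum_congr rfl fun k _ => ?_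
    rw [sub_sub]
  have h2 : ∑ k, y.y (k - x.i) * y.y (k - x.i) = ∑ k, y.y k * y.y k :=
    sum_sub (fun k => y.y k * y.y k) x.i
  have h3 : ∀ k, k - (x.i + y.i) = k - x.i - y.i := fun k => by ring
  ext k
  · simp only [mul_α]; ring
  · simp only [mul_α, mul_z, mul_y, mul_i, h3]; ring
  · simp only [mul_α, mul_β, mul_z, mul_y, mul_i]
    have e1 : ∑ k, (x.y k + y.y (k - x.i)) * z.z (k - (x.i + y.i)) =
        ∑ k, x.y k * z.z (k - x.i - y.i) + ∑ k, y.y k * z.z (k - y.i) := by
      rw [← h1, ← Finset.sum_add_distrib]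
      exact Finset.sum_congr rfl fun k _ => by rw [h3]; ring
    have e2 : ∑ k, (x.y k + y.y (k - x.i)) * (x.y k + y.y (k - x.i)) =
        ∑ k, x.y k * x.y k + 2 * (∑ k, x.y k * y.y (k - x.i)) + ∑ k, y.y k * y.y k := by
      rw [← h2, Finset.mul_sum, ← Finset.sum_add_distrib, ← Finset.sum_add_distrib]
      exact Finset.sum_congr rfl fun k _ => by ring
    have e3 : ∑ k, x.y k * (y.z (k - x.i) + z.z (k - x.i - y.i) + 2 * z.α * y.y (k - x.i)) =
        ∑ k, x.y k * y.z (k - x.i) + ∑ k, x.y k * z.z (k - x.i - y.i) +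
          2 * z.α * ∑ k, x.y k * y.y (k - x.i) := by
      rw [Finset.mul_sum, ← Finset.sum_add_distrib, ← Finset.sum_add_distrib]
      exact Finset.sum_congr rfl fun k _ => by ring
    rw [e1, e2, e3]
    ring
  · simp only [mul_y, mul_i, h3]; ring
  · simp only [mul_i]; ring

instance : Group (GG p q) := Group.ofLeftAxioms mul_assoc'
  (by
    intro x
    ext k
    · simp
    · simp
    · simp
    · simp
    · simp)
  (by
    intro x
    ext k
    · simp
    · simp only [mul_z, inv_z, inv_i, inv_y, one_z, Pi.zero_apply, sub_neg_eq_add]; ring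
    · simp only [mul_β, inv_β, inv_y, inv_i, one_β, sub_neg_eq_add]
      have e1 : ∑ k, -x.y (k + x.i) * x.z (k + x.i) = - ∑ k, x.y k * x.z k := by
        rw [← sum_add (fun k => x.y k * x.z k) x.i, ← Finset.sum_neg_distrib]
        exact Finset.sum_congr rfl fun k _ => by ring
      have e2 : ∑ k, -x.y (k + x.i) * -x.y (k + x.i) = ∑ k, x.y k * x.y k := by
        rw [← sum_add (fun k => x.y k * x.y k) x.i]
        exact Finset.sum_congr rfl fun k _ => by ring
      rw [e1, e2]
      ring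
    · simp
    · simp)

instance [NeZero p] : Finite (GG p q) :=
  Finite.of_injective (fun x : GG p q => (x.α, x.z, x.β, x.y, x.i)) (by
    intro x x' h
    simp only [Prod.mk.injEq] at h
    obtain ⟨h1, h2, h3, h4, h5⟩ := h
    exact GG.ext h1 h2 h3 h4 h5)

/-- the normal subgroup -/
def VV (p q : ℕ) [NeZero q] : Subgroup (GG p q) where
  carrier := {x | x.y = 0 ∧ x.i = 0}
  one_mem' := ⟨rfl, rfl⟩
  mul_mem' := by
    rintro x x' ⟨h1, h2⟩ ⟨h3, h4⟩
    refine ⟨?_, ?_⟩
    · funext k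
      rw [mul_y, h1, h3]
      simp
    · rw [mul_i, h2, h4, add_zero]
  inv_mem' := by
    rintro x ⟨h1, h2⟩
    refine ⟨?_, ?_⟩
    · funext k
      rw [inv_y, h1]
      simp
    · rw [inv_i, h2, neg_zero]

theorem mem_VV {x : GG p q} : x ∈ VV p q ↔ x.y = 0 ∧ x.i = 0 := Iff.rfl

/-- the subgroup `D` -/
def DD (p q : ℕ) [NeZero q] : Subgroup (GG p q) where
  carrier := {x | x.y = 0 ∧ x.β = 0}
  one_mem' := ⟨rfl, rfl⟩
  mul_mem' := by
    rintro x x' ⟨h1, h2⟩ ⟨h3, h4⟩
    refine ⟨?_, ?_⟩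
    · funext k
      rw [mul_y, h1, h3]
      simp
    · rw [mul_β, h2, h4, h1]
      simp
  inv_mem' := by
    rintro x ⟨h1, h2⟩
    refine ⟨?_, ?_⟩
    · funext k
      rw [inv_y, h1]
      simp
    · rw [inv_β, h2, h1]
      simp

theorem mem_DD {x : GG p q} : x ∈ DD p q ↔ x.y = 0 ∧ x.β = 0 := Iff.rfl

theorem conj_y (g x : GG p q) (hx : x ∈ VV p q) : (g * x * g⁻¹).y = 0 := by
  funext k
  simp only [mul_y, mul_i, inv_y, hx.1, hx.2, Pi.zero_apply]
  ring_nf

theorem conj_i (g x : GG p q) (hx : x ∈ VV p q) : (g * x * g⁻¹).i = 0 := by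
  simp only [mul_i, inv_i, hx.2]
  ring

theorem normal : (VV p q).Normal := ⟨fun x hx g => ⟨conj_y g x hx, conj_i g x hx⟩⟩

theorem conj_β (g x : GG p q) (hx : x ∈ VV p q) : (g * x * g⁻¹).β =
    x.β - (∑ k, g.y k * x.z (k - g.i)) - x.α * ∑ k, g.y k * g.y k := by
  simp only [mul_β, mul_α, mul_y, mul_i, mul_z, inv_β, inv_z, inv_α, hx.1, hx.2, Pi.zero_apply,
    add_zero, sub_add_cancel]
  have e1 : ∑ k, g.y k * (-g.z k + 2 * g.α * g.y k) =
      - (∑ k, g.y k * g.z k) + 2 * g.α * ∑ k, g.y k * g.y k := by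
    rw [Finset.mul_sum, ← Finset.sum_neg_distrib, ← Finset.sum_add_distrib]
    exact Finset.sum_congr rfl fun k _ => by ring
  rw [e1]
  ring

theorem conj_α (g x : GG p q) : (g * x * g⁻¹).α = x.α := by
  simp only [mul_α, inv_α]
  ring

theorem conj_z (g x : GG p q) (hx : x ∈ VV p q) (k : ZMod q) : (g * x * g⁻¹).z k =
    x.z (k - g.i) + 2 * x.α * g.y k := by
  simp only [mul_α, mul_y, mul_i, mul_z, inv_z, inv_α, hx.1, hx.2, Pi.zero_apply,
    add_zero, sub_add_cancel]
  ring

/-! ### vectors -/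

/-- the vector `e_i - e_j` -/
def dl (p : ℕ) {q : ℕ} [NeZero q] (i j : ZMod q) : ZMod q → ZMod p :=
  Pi.single i 1 - Pi.single j 1

theorem dl_apply (i j k : ZMod q) :
    dl p i j k = (if k = i then 1 else 0) - (if k = j then 1 else 0) := by
  simp [dl, Pi.single_apply]

theorem sum_dl_mul (i j : ZMod q) (z : ZMod q → ZMod p) : ∑ k, dl p i j k * z k = z i - z j := by
  simp only [dl_apply, sub_mul, ite_mul, one_mul, zero_mul, Finset.sum_sub_distrib,
    Finset.sum_ite_eq', Finset.mem_univ, if_true]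

theorem sum_dl (i j : ZMod q) : ∑ k, dl p i j k = 0 := by
  have := sum_dl_mul (p := p) i j (fun _ => 1)
  simpa using this

theorem dl_add (i j k : ZMod q) : dl p i j + dl p j k = dl p i k := by
  unfold dl
  abel

theorem dl_self (i : ZMod q) : dl p i i = 0 := by
  unfold dl
  abel

theorem dl_shift (i j t k : ZMod q) : dl p i j (k - t) = dl p (i + t) (j + t) k := by
  rw [dl_apply, dl_apply]
  simp only [sub_eq_iff_eq_add]

/-- nondegeneracy -/
theorem nondeg [Fact p.Prime] (hq : (q : ZMod p) ≠ 0) (y : ZMod q → ZMod p) (hy : ∑ k, y k = 0)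
    (h : ∀ z : ZMod q → ZMod p, ∑ k, z k = 0 → ∑ k, y k * z k = 0) : y = 0 := by
  have h1 : ∀ k, y k = y 0 := by
    intro k
    have := h (dl p k 0) (sum_dl k 0)
    have e : ∑ j, y j * dl p k 0 j = ∑ j, dl p k 0 j * y j :=
      Finset.sum_congr rfl fun j _ => mul_comm _ _
    rw [e, sum_dl_mul] at this
    exact sub_eq_zero.mp this
  have h2 : (q : ZMod p) * y 0 = 0 := by
    rw [Finset.sum_congr rfl (fun k _ => h1 k)] at hy
    simpa [ZMod.card] using hy
  have h3 : y 0 = 0 := by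
    rcases mul_eq_zero.mp h2 with h | h
    · exact absurd h hq
    · exact h
  funext k
  rw [h1 k, h3]
  rfl

/-- every vector of sum zero is a combination of the vectors `e_0 - e_t` -/
theorem mem_of_dl [Fact p.Prime] (L : AddSubgroup (ZMod q → ZMod p)) (h : ∀ t, dl p 0 t ∈ L)
    (y : ZMod q → ZMod p) (hy : ∑ k, y k = 0) : y ∈ L := by
  have e : y = - ∑ t, (y t).val • dl p 0 t := by
    funext k
    rw [Pi.neg_apply, Finset.sum_apply]
    simp only [Pi.smul_apply, nsmul_eq_mul, ZMod.natCast_val, ZMod.cast_id', id_eq, dl_apply,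
      mul_sub, Finset.sum_sub_distrib, mul_ite, mul_one, mul_zero, Finset.sum_ite_eq,
      Finset.mem_univ, if_true]
    split_ifs with hk
    · rw [hy]; ring
    · simp
  rw [e]
  exact L.neg_mem (L.sum_mem fun t _ => L.nsmul_mem (h t) _)

/-! ### the two elements -/

/-- the element of order `q` -/
def bb (p q : ℕ) [NeZero q] : GG p q := ⟨0, 0, 0, 0, 1, by simp, by simp⟩

/-- the element of order `p` -/
def aa (p q : ℕ) [NeZero q] : GG p q := ⟨1, 0, 0, dl p 0 1, 0, by simp, sum_dl _ _⟩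

theorem bb_pow (n : ℕ) : (bb p q) ^ n = ⟨0, 0, 0, 0, n, by simp, by simp⟩ := by
  induction n with
  | zero =>
    rw [pow_zero]
    ext <;> simp
  | succ n ih =>
    rw [pow_succ, ih]
    ext k <;> simp [bb]

theorem sum_dl_sq (h01 : (0 : ZMod q) ≠ 1) : ∑ k, dl p (0 : ZMod q) 1 k * dl p 0 1 k = 2 := by
  rw [sum_dl_mul, dl_apply, dl_apply]
  rw [if_pos rfl, if_neg h01, if_neg h01.symm, if_pos rfl]
  ring

theorem aa_pow (h01 : (0 : ZMod q) ≠ 1) (n : ℕ) :
    ((aa p q) ^ n).α = n ∧ ((aa p q) ^ n).z = (fun k => (n : ZMod p) * (n - 1) * dl p 0 1 k) ∧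
    ((aa p q) ^ n).β = - 2 * ∑ j ∈ Finset.range n, (j : ZMod p) ^ 2 ∧
    ((aa p q) ^ n).y = (fun k => (n : ZMod p) * dl p 0 1 k) ∧ ((aa p q) ^ n).i = 0 := by
  induction n with
  | zero =>
    rw [pow_zero]
    refine ⟨by simp, ?_, by simp, ?_, rfl⟩ <;>
    · funext k
      simp
  | succ n ih =>
    obtain ⟨h1, h2, h3, h4, h5⟩ := ih
    rw [pow_succ]
    refine ⟨?_, ?_, ?_, ?_, ?_⟩
    · rw [mul_α, h1]
      simp [aa]
    · funext k
      rw [mul_z, h2, h4]
      simp only [aa, Pi.zero_apply]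
      push_cast
      ring
    · rw [mul_β, h3, h4, Finset.sum_range_succ]
      simp only [aa, Pi.zero_apply, mul_zero, Finset.sum_const_zero]
      have e : ∑ k, (n : ZMod p) * dl p (0 : ZMod q) 1 k * ((n : ZMod p) * dl p 0 1 k) =
          (n : ZMod p) ^ 2 * 2 := by
        rw [← sum_dl_sq (p := p) h01, Finset.mul_sum]
        exact Finset.sum_congr rfl fun k _ => by ring
      rw [e]
      ring
    · funext k
      rw [mul_y, h4, h5]
      simp only [aa, sub_zero]
      push_cast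
      ring
    · rw [mul_i, h5]
      simp [aa]

theorem six_sum (n : ℕ) : 6 * ∑ j ∈ Finset.range n, (j : ZMod p) ^ 2 =
    (n : ZMod p) * (n - 1) * (2 * n - 1) := by
  induction n with
  | zero => simp
  | succ n ih =>
    rw [Finset.sum_range_succ, mul_add, ih]
    push_cast
    ring

theorem aa_pow_p [Fact p.Prime] (h5 : 5 ≤ p) (h01 : (0 : ZMod q) ≠ 1) : (aa p q) ^ p = 1 := by
  obtain ⟨h1, h2, h3, h4, h6⟩ := aa_pow (p := p) h01 p
  have h0 : (p : ZMod p) = 0 := ZMod.natCast_self p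
  ext k
  · rw [h1, h0]; rfl
  · rw [h2, h0]; simp
  · rw [h3]
    have h7 := six_sum (p := p) p
    rw [h0, zero_mul, zero_mul] at h7
    have h8 : (6 : ZMod p) ≠ 0 := by
      intro h
      have h9 : ((6 : ℕ) : ZMod p) = 0 := by exact_mod_cast h
      rw [ZMod.natCast_eq_zero_iff] at h9
      have hp : p.Prime := Fact.out
      have h10 : p ∣ 2 * 3 := h9
      rcases (hp.dvd_mul).mp h10 with h | h
      · have := Nat.le_of_dvd (by norm_num) h
        omega
      · have := Nat.le_of_dvd (by norm_num) h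
        omega
    rcases mul_eq_zero.mp h7 with h | h
    · exact absurd h h8
    · rw [h, mul_zero]; rfl
  · rw [h4, h0]; simp
  · rw [h6]; rfl

/-! ### invariable generation -/

theorem top_of_ne [Fact p.Prime] (L : AddSubgroup (ZMod p)) {x : ZMod p} (hx : x ≠ 0) (h : x ∈ L)
    (y : ZMod p) : y ∈ L := by
  have e : y = (y * x⁻¹).val • x := by
    rw [nsmul_eq_mul, ZMod.natCast_val, ZMod.cast_id', id_eq, mul_assoc, inv_mul_cancel₀ hx,
      mul_one]
  rw [e]
  exact L.nsmul_mem h _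

theorem ig_aux [Fact p.Prime] (h2 : (2 : ZMod p) ≠ 0) (hq : (q : ZMod p) ≠ 0)
    (h01 : (0 : ZMod q) ≠ 1) (M : Subgroup (GG p q)) (hb : bb p q ∈ M) (g : GG p q)
    (ha : g⁻¹ * aa p q * g ∈ M) : M = ⊤ := by
  -- conjugates of `a`
  have hE : ∀ t : ZMod q, ∃ m ∈ M, m.i = 0 ∧ m.α = 1 ∧ m.y = dl p t (t + 1) := by
    intro t
    refine ⟨bb p q ^ (t + g.i).val * (g⁻¹ * aa p q * g) * (bb p q ^ (t + g.i).val)⁻¹,
      M.mul_mem (M.mul_mem (M.pow_mem hb _) ha) (M.inv_mem (M.pow_mem hb _)), ?_, ?_, ?_⟩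
    · rw [bb_pow]
      simp [aa]
    · rw [bb_pow]
      simp [aa]
    · rw [bb_pow]
      funext k
      simp only [mul_y, inv_y, mul_i, inv_i, Pi.zero_apply, neg_zero, aa, zero_add, add_zero,
        ZMod.natCast_val, ZMod.cast_id', id_eq]
      have e1 : k - (t + g.i) - -g.i = k - t := by ring
      have e2 : k - (t + g.i) + g.i = k - t := by ring
      rw [e1, e2, dl_shift, zero_add, add_comm 1 t]
      ring
  -- partial products
  have hP : ∀ n : ℕ, ∃ m ∈ M, m.i = 0 ∧ m.α = n ∧ m.y = dl p 0 (n : ZMod q) := by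
    intro n
    induction n with
    | zero =>
      refine ⟨1, M.one_mem, rfl, by simp, ?_⟩
      rw [Nat.cast_zero, dl_self]
      rfl
    | succ n ih =>
      obtain ⟨m, hm, h1, h3, h4⟩ := ih
      obtain ⟨m', hm', h1', h3', h4'⟩ := hE (n : ZMod q)
      refine ⟨m * m', M.mul_mem hm hm', ?_, ?_, ?_⟩
      · rw [mul_i, h1, h1', add_zero]
      · rw [mul_α, h3, h3']
        push_cast
        ring
      · funext k
        rw [mul_y, h4, h4', h1, sub_zero, ← Pi.add_apply, dl_add]
        push_cast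
        rfl
  -- the image
  have hL : ∀ y : ZMod q → ZMod p, ∑ k, y k = 0 → ∃ m ∈ M, m.i = 0 ∧ m.y = y := by
    intro y hy
    let L : AddSubgroup (ZMod q → ZMod p) :=
      { carrier := {y | ∃ m ∈ M, m.i = 0 ∧ m.y = y}
        zero_mem' := ⟨1, M.one_mem, rfl, rfl⟩
        add_mem' := by
          rintro y y' ⟨m, hm, h1, rfl⟩ ⟨m', hm', h1', rfl⟩
          refine ⟨m * m', M.mul_mem hm hm', by rw [mul_i, h1, h1', add_zero], ?_⟩
          funext k
          rw [mul_y, h1, sub_zero]
          rfl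
        neg_mem' := by
          rintro y ⟨m, hm, h1, rfl⟩
          refine ⟨m⁻¹, M.inv_mem hm, by rw [inv_i, h1, neg_zero], ?_⟩
          funext k
          rw [inv_y, h1, add_zero]
          rfl }
    refine mem_of_dl L (fun t => ?_) y hy
    obtain ⟨m, hm, h1, _, h4⟩ := hP t.val
    refine ⟨m, hm, h1, ?_⟩
    rw [h4, ZMod.natCast_val, ZMod.cast_id', id_eq]
  obtain ⟨v₁, hv₁, hv₁i, hv₁α, hv₁y⟩ := hP q
  rw [ZMod.natCast_self, dl_self] at hv₁y
  have hv₁V : v₁ ∈ VV p q := ⟨hv₁y, hv₁i⟩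
  -- elements with `α = 0` and given `z`
  have hZ : ∀ z : ZMod q → ZMod p, ∑ k, z k = 0 → ∃ w ∈ M, w ∈ VV p q ∧ w.α = 0 ∧ w.z = z := by
    intro z hz
    obtain ⟨m, hm, h1, h4⟩ := hL (fun k => (2 * (q : ZMod p))⁻¹ * z k) (by
      rw [← Finset.mul_sum, hz, mul_zero])
    refine ⟨m * v₁ * m⁻¹ * v₁⁻¹, M.mul_mem (M.mul_mem (M.mul_mem hm hv₁) (M.inv_mem hm))
      (M.inv_mem hv₁), (VV p q).mul_mem (normal.conj_mem _ hv₁V _) ((VV p q).inv_mem hv₁V), ?_, ?_⟩
    · rw [mul_α, conj_α, inv_α]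
      ring
    · funext k
      rw [mul_z, conj_z m v₁ hv₁V, inv_z, conj_y m v₁ hv₁V, conj_i m v₁ hv₁V, hv₁y, hv₁i, h1, h4,
        hv₁α]
      simp only [Pi.zero_apply, sub_zero, add_zero, mul_zero]
      field_simp
      ring
  -- the last coordinate
  have hβ : ∀ β : ZMod p, (⟨0, 0, β, 0, 0, by simp, by simp⟩ : GG p q) ∈ M := by
    intro β
    obtain ⟨w, hw, hwV, hwα, hwz⟩ := hZ (dl p 0 1) (sum_dl _ _)
    obtain ⟨m, hm, h1, h4⟩ := hL (dl p 0 1) (sum_dl _ _)
    have hu : (⟨0, 0, -2, 0, 0, by simp, by simp⟩ : GG p q) = m * w * m⁻¹ * w⁻¹ := by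
      ext k
      · rw [mul_α, conj_α, inv_α]
        ring
      · rw [mul_z, conj_z m w hwV, inv_z, conj_y m w hwV, conj_i m w hwV, hwV.1, hwV.2, h1, hwα]
        simp
      · rw [mul_β, conj_β m w hwV, inv_β, conj_y m w hwV, hwV.1, hwα, hwz, h4, h1]
        simp only [Pi.zero_apply, zero_mul, Finset.sum_const_zero, sub_zero]
        rw [sum_dl_sq h01]
        ring
      · rw [mul_y, conj_y m w hwV, inv_y, hwV.1]
        simp
      · rw [mul_i, conj_i m w hwV, inv_i, hwV.2]
        simp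
    have hu' : (⟨0, 0, -2, 0, 0, by simp, by simp⟩ : GG p q) ∈ M := by
      rw [hu]
      exact M.mul_mem (M.mul_mem (M.mul_mem hm hw) (M.inv_mem hm)) (M.inv_mem hw)
    let L : AddSubgroup (ZMod p) :=
      { carrier := {β | (⟨0, 0, β, 0, 0, by simp, by simp⟩ : GG p q) ∈ M}
        zero_mem' := M.one_mem
        add_mem' := by
          intro x y hx hy
          have e : (⟨0, 0, x + y, 0, 0, by simp, by simp⟩ : GG p q) =
              ⟨0, 0, x, 0, 0, by simp, by simp⟩ * ⟨0, 0, y, 0, 0, by simp, by simp⟩ := by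
            ext k <;> simp
          show (⟨0, 0, x + y, 0, 0, by simp, by simp⟩ : GG p q) ∈ M
          rw [e]
          exact M.mul_mem hx hy
        neg_mem' := by
          intro x hx
          have e : (⟨0, 0, -x, 0, 0, by simp, by simp⟩ : GG p q) =
              (⟨0, 0, x, 0, 0, by simp, by simp⟩ : GG p q)⁻¹ := by
            ext k <;> simp
          show (⟨0, 0, -x, 0, 0, by simp, by simp⟩ : GG p q) ∈ M
          rw [e]
          exact M.inv_mem hx }
    exact top_of_ne L (neg_ne_zero.mpr h2) hu' β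
  -- all of `V`
  have hV : VV p q ≤ M := by
    intro x hx
    have hα : ∃ v ∈ M, v ∈ VV p q ∧ v.α = x.α := by
      let L : AddSubgroup (ZMod p) :=
        { carrier := {α | ∃ v ∈ M, v ∈ VV p q ∧ v.α = α}
          zero_mem' := ⟨1, M.one_mem, (VV p q).one_mem, rfl⟩
          add_mem' := by
            rintro _ _ ⟨v, h1, h3, rfl⟩ ⟨v', h1', h3', rfl⟩
            exact ⟨v * v', M.mul_mem h1 h1', (VV p q).mul_mem h3 h3', rfl⟩
          neg_mem' := by
            rintro _ ⟨v, h1, h3, rfl⟩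
            exact ⟨v⁻¹, M.inv_mem h1, (VV p q).inv_mem h3, rfl⟩ }
      exact top_of_ne L (x := v₁.α) (by rw [hv₁α]; exact hq) ⟨v₁, hv₁, hv₁V, rfl⟩ x.α
    obtain ⟨v, hv, hvV, hvα⟩ := hα
    have hz : ∑ k, (x.z k - v.z k) = 0 := by
      rw [Finset.sum_sub_distrib, x.hz, v.hz, sub_zero]
    obtain ⟨w, hw, hwV, hwα, hwz⟩ := hZ (fun k => x.z k - v.z k) hz
    have e : x = v * w * ⟨0, 0, x.β - v.β - w.β, 0, 0, by simp, by simp⟩ := by
      ext k
      · rw [mul_α, mul_α, hvα, hwα]
        ring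
      · rw [mul_z, mul_z, hwz, hvV.1, hvV.2]
        simp
      · rw [mul_β, mul_β, hwα]
        have hy : (v * w).y = 0 := ((VV p q).mul_mem hvV hwV).1
        rw [hy, hvV.1]
        simp
      · rw [mul_y, mul_y, hvV.1, hwV.1, hx.1]
        simp
      · rw [mul_i, mul_i, hvV.2, hwV.2, hx.2]
        simp
    rw [e]
    exact M.mul_mem (M.mul_mem hv hw) (hβ _)
  rw [eq_top_iff]
  intro x _
  obtain ⟨m, hm, h1, h4⟩ := hL x.y x.hy
  have hh : m * bb p q ^ x.i.val ∈ M := M.mul_mem hm (M.pow_mem hb _)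
  have hy : (m * bb p q ^ x.i.val).y = x.y := by
    funext k
    rw [mul_y, bb_pow, h4]
    simp
  have hi : (m * bb p q ^ x.i.val).i = x.i := by
    rw [mul_i, bb_pow, h1]
    simp
  have h6 : x * (m * bb p q ^ x.i.val)⁻¹ ∈ VV p q := by
    refine ⟨?_, ?_⟩
    · funext k
      rw [mul_y, inv_y, hy, hi, sub_add_cancel]
      simp
    · rw [mul_i, inv_i, hi]
      ring
  have h7 := M.mul_mem (hV h6) hh
  rwa [inv_mul_cancel_right] at h7

theorem ig [Fact p.Prime] (h2 : (2 : ZMod p) ≠ 0) (hq : (q : ZMod p) ≠ 0)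
    (h01 : (0 : ZMod q) ≠ 1) : InvGen (aa p q) (bb p q) := by
  intro g h
  have key := ig_aux h2 hq h01
    ((Subgroup.closure {g⁻¹ * aa p q * g, h⁻¹ * bb p q * h}).map (MulAut.conj h).toMonoidHom)
    (by
      refine ⟨h⁻¹ * bb p q * h, Subgroup.subset_closure (by simp), ?_⟩
      simp [mul_assoc]) (g * h⁻¹) (by
      refine ⟨g⁻¹ * aa p q * g, Subgroup.subset_closure (by simp), ?_⟩
      simp [mul_assoc])
  rw [eq_top_iff]
  intro x _
  have h3 : (MulAut.conj h).toMonoidHom x ∈
      (Subgroup.closure {g⁻¹ * aa p q * g, h⁻¹ * bb p q * h}).map (MulAut.conj h).toMonoidHom := by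
    rw [key]; exact Subgroup.mem_top _
  obtain ⟨y, hy, hyx⟩ := h3
  have : y = x := (MulAut.conj h).injective hyx
  rwa [this] at hy

/-! ### solvability -/

/-- the projection onto `C_q` -/
def toI (p q : ℕ) [NeZero q] : GG p q →* Multiplicative (ZMod q) where
  toFun x := Multiplicative.ofAdd x.i
  map_one' := rfl
  map_mul' _ _ := rfl

/-- the projection of the kernel of `toI` -/
def toY (p q : ℕ) [NeZero q] : (toI p q).ker →* Multiplicative (ZMod q → ZMod p) where
  toFun x := Multiplicative.ofAdd x.1.y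
  map_one' := rfl
  map_mul' x x' := by
    have h : x.1.i = 0 := x.2
    apply congrArg Multiplicative.ofAdd
    funext k
    show (x.1 * x'.1).y k = x.1.y k + x'.1.y k
    rw [mul_y, h, sub_zero]

theorem VV_comm (v w : GG p q) (hv : v ∈ VV p q) (hw : w ∈ VV p q) : v * w = w * v := by
  ext k
  · rw [mul_α, mul_α, add_comm]
  · rw [mul_z, mul_z, hv.1, hw.1, hv.2, hw.2]
    simp [add_comm]
  · rw [mul_β, mul_β, hv.1, hw.1]
    simp [add_comm]
  · rw [mul_y, mul_y, hv.1, hw.1]
    simp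
  · rw [mul_i, mul_i, add_comm]

theorem solv : Group.IsSolvable (GG p q) := by
  have h1 : Group.IsSolvable (toY p q).ker := by
    refine Group.isSolvable_of_comm fun x y => ?_
    apply Subtype.ext
    apply Subtype.ext
    have hx : x.1.1 ∈ VV p q := ⟨x.2, x.1.2⟩
    have hy : y.1.1 ∈ VV p q := ⟨y.2, y.1.2⟩
    exact VV_comm _ _ hx hy
  have h2 : Group.IsSolvable (toI p q).ker :=
    Group.isSolvable_of_ker_le_range (toY p q).ker.subtype (toY p q) (by simp)
  exact Group.isSolvable_of_ker_le_range (toI p q).ker.subtype (toI p q) (by simp)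

/-! ### counting -/

theorem conj_inv_β (g x : GG p q) (hx : x ∈ VV p q) : (g⁻¹ * x * g).β =
    x.β + (∑ k, g.y k * x.z k) - x.α * ∑ k, g.y k * g.y k := by
  have h := conj_β g⁻¹ x hx
  rw [inv_inv] at h
  rw [h]
  have e1 : ∑ k, (g⁻¹).y k * x.z (k - (g⁻¹).i) = - ∑ k, g.y k * x.z k := by
    rw [← sum_add (fun k => g.y k * x.z k) g.i, ← Finset.sum_neg_distrib]
    exact Finset.sum_congr rfl fun k _ => by rw [inv_y, inv_i, sub_neg_eq_add]; ring
  have e2 : ∑ k, (g⁻¹).y k * (g⁻¹).y k = ∑ k, g.y k * g.y k := by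
    rw [← sum_add (fun k => g.y k * g.y k) g.i]
    exact Finset.sum_congr rfl fun k _ => by rw [inv_y]; ring
  rw [e1, e2]
  ring

theorem conj_inv_y (g x : GG p q) (hx : x ∈ VV p q) : (g⁻¹ * x * g).y = 0 := by
  have h := conj_y g⁻¹ x hx
  rwa [inv_inv] at h

theorem quad [Fact p.Prime] (c0 c1 c2 : ZMod p) (h : c2 ≠ 0 ∨ c1 ≠ 0) :
    (Finset.univ.filter fun s : ZMod p => c0 + c1 * s + c2 * s ^ 2 = 0).card ≤ 2 := by
  by_contra hcon
  push Not at hcon
  obtain ⟨a, ha, b, hb, c, hc, hab, hac, hbc⟩ := Finset.two_lt_card.mp hcon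
  simp only [Finset.mem_filter, Finset.mem_univ, true_and] at ha hb hc
  have h1 : (a - b) * (c1 + c2 * (a + b)) = 0 := by linear_combination ha - hb
  have h2 : (a - c) * (c1 + c2 * (a + c)) = 0 := by linear_combination ha - hc
  have h3 : c1 + c2 * (a + b) = 0 := (mul_eq_zero.mp h1).resolve_left (sub_ne_zero.mpr hab)
  have h4 : c1 + c2 * (a + c) = 0 := (mul_eq_zero.mp h2).resolve_left (sub_ne_zero.mpr hac)
  have h5 : (b - c) * c2 = 0 := by linear_combination h3 - h4
  have h6 : c2 = 0 := (mul_eq_zero.mp h5).resolve_left (sub_ne_zero.mpr hbc)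
  have h7 : c1 = 0 := by rw [h6] at h3; simpa using h3
  rcases h with h | h
  · exact h h6
  · exact h h7

/-- the function to be counted -/
def ff (α : ZMod p) (z : ZMod q → ZMod p) (β : ZMod p) (y : ZMod q → ZMod p) : ZMod p :=
  β + (∑ k, y k * z k) - α * ∑ k, y k * y k

theorem card_Y [Fact p.Prime] (h5 : 5 ≤ p) (α : ZMod p) (z : ZMod q → ZMod p) (β : ZMod p)
    (i j k : ZMod q) (hij : i ≠ j) (hik : i ≠ k) (hjk : j ≠ k)
    (h : ∀ t : ZMod p, (Finset.univ.filter fun s : ZMod p =>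
      ff α z β (fun l => s * dl p i j l + t * dl p i k l) = 0).card ≤ 2) :
    2 * p < Nat.card {y : ZMod q → ZMod p // ∑ k, y k = 0 ∧ ff α z β y ≠ 0} := by
  classical
  let P : ZMod p × ZMod p → Prop := fun x =>
    ff α z β (fun l => x.2 * dl p i j l + x.1 * dl p i k l) ≠ 0
  have h1 : Nat.card {x : ZMod p × ZMod p // P x} ≤
      Nat.card {y : ZMod q → ZMod p // ∑ k, y k = 0 ∧ ff α z β y ≠ 0} := by
    refine Nat.card_le_card_of_injective
      (fun x => ⟨fun l => x.1.2 * dl p i j l + x.1.1 * dl p i k l, ?_, x.2⟩) ?_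
    · rw [Finset.sum_add_distrib, ← Finset.mul_sum, ← Finset.mul_sum, sum_dl, sum_dl]
      ring
    · intro x x' hx
      have hx' : (fun l => x.1.2 * dl p i j l + x.1.1 * dl p i k l) =
          (fun l => x'.1.2 * dl p i j l + x'.1.1 * dl p i k l) := congrArg Subtype.val hx
      have e1 := congrFun hx' j
      have e2 := congrFun hx' k
      simp only [dl_apply, if_neg hij.symm, if_neg hik.symm, if_neg hjk, if_neg hjk.symm,
        if_true] at e1 e2
      apply Subtype.ext
      apply Prod.ext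
      · linear_combination -e2
      · linear_combination -e1
  have h2 : p * (p - 2) ≤ Nat.card {x : ZMod p × ZMod p // P x} := by
    rw [Nat.card_eq_fintype_card, Fintype.card_subtype, Finset.card_filter, Fintype.sum_prod_type]
    have h3 : ∀ t : ZMod p, p - 2 ≤ ∑ s : ZMod p, if P (t, s) then 1 else 0 := by
      intro t
      rw [← Finset.card_filter]
      have h4 := Finset.card_filter_add_card_filter_not (s := (Finset.univ : Finset (ZMod p)))
        (fun s : ZMod p => ff α z β (fun l => s * dl p i j l + t * dl p i k l) = 0)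
      rw [Finset.card_univ, ZMod.card] at h4
      have h5 := h t
      show p - 2 ≤ (Finset.univ.filter fun s : ZMod p =>
        ¬ ff α z β (fun l => s * dl p i j l + t * dl p i k l) = 0).card
      omega
    calc p * (p - 2) = ∑ _t : ZMod p, (p - 2) := by
          rw [Finset.sum_const, Finset.card_univ, ZMod.card, smul_eq_mul]
      _ ≤ _ := Finset.sum_le_sum fun t _ => h3 t
  have h3 : 2 * p < p * (p - 2) := by
    rw [mul_comm 2 p]
    exact Nat.mul_lt_mul_of_pos_left (by omega) (by omega)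
  omega

theorem ff_line (α : ZMod p) (z : ZMod q → ZMod p) (β : ZMod p) (i j k : ZMod q) (hij : i ≠ j)
    (hik : i ≠ k) (hjk : j ≠ k) (s t : ZMod p) :
    ff α z β (fun l => s * dl p i j l + t * dl p i k l) =
      (β + t * (z i - z k) - α * (2 * t ^ 2)) + ((z i - z j) - α * (2 * t)) * s +
        (-2 * α) * s ^ 2 := by
  have e1 : ∑ l, (s * dl p i j l + t * dl p i k l) * z l =
      s * (z i - z j) + t * (z i - z k) := by
    rw [← sum_dl_mul, ← sum_dl_mul, Finset.mul_sum, Finset.mul_sum, ← Finset.sum_add_distrib]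
    exact Finset.sum_congr rfl fun l _ => by ring
  have e2 : ∑ l, (s * dl p i j l + t * dl p i k l) * (s * dl p i j l + t * dl p i k l) =
      s ^ 2 * 2 + 2 * s * t * 1 + t ^ 2 * 2 := by
    have d1 : ∑ l, dl p i j l * dl p i j l = 2 := by
      rw [sum_dl_mul, dl_apply, dl_apply, if_pos rfl, if_neg hij, if_neg hij.symm, if_pos rfl]
      ring
    have d2 : ∑ l, dl p i k l * dl p i k l = 2 := by
      rw [sum_dl_mul, dl_apply, dl_apply, if_pos rfl, if_neg hik, if_neg hik.symm, if_pos rfl]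
      ring
    have d3 : ∑ l, dl p i j l * dl p i k l = 1 := by
      rw [sum_dl_mul, dl_apply, dl_apply, if_pos rfl, if_neg hik, if_neg hij.symm, if_neg hjk]
      ring
    have d4 : ∑ l, (s * dl p i j l + t * dl p i k l) * (s * dl p i j l + t * dl p i k l) =
        s ^ 2 * (∑ l, dl p i j l * dl p i j l) + 2 * s * t * (∑ l, dl p i j l * dl p i k l) +
          t ^ 2 * ∑ l, dl p i k l * dl p i k l := by
      rw [Finset.mul_sum, Finset.mul_sum, Finset.mul_sum, ← Finset.sum_add_distrib,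
        ← Finset.sum_add_distrib]
      exact Finset.sum_congr rfl fun l _ => by ring
    rw [d4, d1, d2, d3]
  unfold ff
  rw [e1, e2]
  ring

theorem count_Y [Fact p.Prime] (h5 : 5 ≤ p) (h3 : 3 ≤ q) (h2 : (2 : ZMod p) ≠ 0)
    (hq : (q : ZMod p) ≠ 0) (α : ZMod p) (z : ZMod q → ZMod p) (β : ZMod p) (hz : ∑ k, z k = 0)
    (hne : ¬ (α = 0 ∧ z = 0 ∧ β = 0)) :
    2 * p < Nat.card {y : ZMod q → ZMod p // ∑ k, y k = 0 ∧ ff α z β y ≠ 0} := by
  classical
  have hthird : ∀ i j : ZMod q, ∃ k, i ≠ k ∧ j ≠ k := by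
    intro i j
    by_contra hcon
    push Not at hcon
    have h1 : (Finset.univ : Finset (ZMod q)) ⊆ {i, j} := by
      intro k _
      by_cases hk : i = k
      · simp [hk]
      · simp [hcon k hk]
    have h4 := Finset.card_le_card h1
    rw [Finset.card_univ, ZMod.card] at h4
    have h6 := Finset.card_le_two (a := i) (b := j)
    omega
  have h01 : ∃ j : ZMod q, (0 : ZMod q) ≠ j := by
    obtain ⟨k, hk, _⟩ := hthird 0 0
    exact ⟨k, hk⟩
  by_cases hα : α = 0
  · by_cases hzc : ∃ i j, z i ≠ z j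
    · obtain ⟨i, j, hzij⟩ := hzc
      have hij : i ≠ j := by
        rintro rfl
        exact hzij rfl
      obtain ⟨k, hik, hjk⟩ := hthird i j
      refine card_Y h5 α z β i j k hij hik hjk fun t => ?_
      simp only [ff_line α z β i j k hij hik hjk]
      apply quad
      right
      rw [hα, zero_mul, sub_zero]
      exact sub_ne_zero.mpr hzij
    · push Not at hzc
      have hz0 : z = 0 := by
        apply nondeg hq z hz
        intro w hw
        rw [Finset.sum_congr rfl (fun k _ => by rw [hzc k 0]), ← Finset.mul_sum, hw, mul_zero]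
      have hβ : β ≠ 0 := fun h => hne ⟨hα, hz0, h⟩
      obtain ⟨j, hj⟩ := h01
      obtain ⟨k, hik, hjk⟩ := hthird 0 j
      refine card_Y h5 α z β 0 j k hj hik hjk fun t => ?_
      have e : (Finset.univ.filter fun s : ZMod p =>
          ff α z β (fun l => s * dl p 0 j l + t * dl p 0 k l) = 0) = ∅ := by
        rw [Finset.filter_eq_empty_iff]
        intro s _ h
        apply hβ
        rw [← h, ff, hα, hz0]
        simp
      rw [e]
      simp
  · obtain ⟨j, hj⟩ := h01
    obtain ⟨k, hik, hjk⟩ := hthird 0 j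
    refine card_Y h5 α z β 0 j k hj hik hjk fun t => ?_
    simp only [ff_line α z β 0 j k hj hik hjk]
    apply quad
    left
    exact mul_ne_zero (neg_ne_zero.mpr h2) hα

theorem count [Fact p.Prime] (h5 : 5 ≤ p) (h3 : 3 ≤ q) (h2 : (2 : ZMod p) ≠ 0)
    (hq : (q : ZMod p) ≠ 0) (v : GG p q) (hv : v ∈ VV p q) (hne : v ≠ 1) :
    2 * p * q * Nat.card (VV p q) < Nat.card {g : GG p q // g⁻¹ * v * g ∉ DD p q} := by
  have h1 : Nat.card ((VV p q) × ZMod q ×
      {y : ZMod q → ZMod p // ∑ k, y k = 0 ∧ ff v.α v.z v.β y ≠ 0}) ≤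
      Nat.card {g : GG p q // g⁻¹ * v * g ∉ DD p q} := by
    refine Nat.card_le_card_of_injective (fun x =>
      ⟨⟨x.1.1.α, x.1.1.z, x.1.1.β, x.2.2.1, x.2.1, x.1.1.hz, x.2.2.2.1⟩, ?_⟩) ?_
    · intro h
      have h6 := h.2
      rw [conj_inv_β _ _ hv] at h6
      exact x.2.2.2.2 h6
    · intro x x' h
      have h6 : (⟨x.1.1.α, x.1.1.z, x.1.1.β, x.2.2.1, x.2.1, x.1.1.hz, x.2.2.2.1⟩ : GG p q) =
        ⟨x'.1.1.α, x'.1.1.z, x'.1.1.β, x'.2.2.1, x'.2.1, x'.1.1.hz, x'.2.2.2.1⟩ :=
        congrArg Subtype.val h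
      rw [GG.mk.injEq] at h6
      obtain ⟨e1, e2, e3, e4, e5⟩ := h6
      apply Prod.ext
      · apply Subtype.ext
        exact GG.ext e1 e2 e3 (x.1.2.1.trans x'.1.2.1.symm) (x.1.2.2.trans x'.1.2.2.symm)
      · apply Prod.ext
        · exact e5
        · exact Subtype.ext e4
  rw [Nat.card_prod, Nat.card_prod, Nat.card_zmod] at h1
  have h4 := count_Y h5 h3 h2 hq v.α v.z v.β v.hz (by
    rintro ⟨e1, e2, e3⟩
    exact hne (GG.ext e1 e2 e3 hv.1 hv.2))
  have hV : 0 < Nat.card (VV p q) := Nat.card_pos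
  have hq0 : 0 < q := by omega
  calc 2 * p * q * Nat.card (VV p q) = Nat.card (VV p q) * (q * (2 * p)) := by ring
    _ < Nat.card (VV p q) * (q * Nat.card
        {y : ZMod q → ZMod p // ∑ k, y k = 0 ∧ ff v.α v.z v.β y ≠ 0}) :=
        Nat.mul_lt_mul_of_pos_left (Nat.mul_lt_mul_of_pos_left h4 hq0) hV
    _ ≤ _ := h1

theorem frame [Fact p.Prime] [Fact q.Prime] (hpq : p ≠ q) (h5 : 5 ≤ p) (h3 : 3 ≤ q) :
    Frame p q (GG p q) (VV p q) (DD p q) (aa p q) (bb p q) := by
  have hp : p.Prime := Fact.out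
  have hqp : q.Prime := Fact.out
  have hq : (q : ZMod p) ≠ 0 := by
    rw [Ne, ZMod.natCast_eq_zero_iff]
    intro h
    exact hpq ((Nat.prime_dvd_prime_iff_eq hp hqp).mp h)
  have h2 : (2 : ZMod p) ≠ 0 := by
    intro h
    have h9 : ((2 : ℕ) : ZMod p) = 0 := by exact_mod_cast h
    rw [ZMod.natCast_eq_zero_iff] at h9
    have := Nat.le_of_dvd (by norm_num) h9
    omega
  have h01 : (0 : ZMod q) ≠ 1 := by
    have : Fact (1 < q) := ⟨by omega⟩
    exact zero_ne_one
  exact
    { norm := normal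
      comm := fun v hv w hw => VV_comm v w hv hw
      expo := by
        intro v hv
        have key : ∀ n : ℕ, (v ^ n).α = n * v.α ∧ (v ^ n).z = (fun k => (n : ZMod p) * v.z k) ∧
            (v ^ n).β = n * v.β ∧ v ^ n ∈ VV p q := by
          intro n
          induction n with
          | zero =>
            rw [pow_zero]
            refine ⟨by simp, ?_, by simp, (VV p q).one_mem⟩
            funext k
            simp
          | succ n ih =>
            obtain ⟨e1, e2, e3, e4⟩ := ih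
            rw [pow_succ]
            refine ⟨?_, ?_, ?_, (VV p q).mul_mem e4 hv⟩
            · rw [mul_α, e1]
              push_cast
              ring
            · funext k
              rw [mul_z, e2, e4.1, e4.2]
              simp only [Pi.zero_apply, sub_zero, mul_zero, add_zero]
              push_cast
              ring
            · rw [mul_β, e3, e4.1]
              simp only [Pi.zero_apply, zero_mul, Finset.sum_const_zero, mul_zero, sub_zero]
              push_cast
              ring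
        obtain ⟨e1, e2, e3, e4⟩ := key p
        have h0 : (p : ZMod p) = 0 := ZMod.natCast_self p
        ext k
        · rw [e1, h0, zero_mul]; rfl
        · rw [e2, h0]; simp
        · rw [e3, h0, zero_mul]; rfl
        · rw [e4.1]; rfl
        · rw [e4.2]; rfl
      hbD := ⟨rfl, rfl⟩
      triv := by
        intro v hv
        have hVm : bb p q * v * (bb p q)⁻¹ * v⁻¹ ∈ VV p q :=
          (VV p q).mul_mem (normal.conj_mem v hv _) ((VV p q).inv_mem hv)
        refine ⟨hVm.1, ?_⟩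
        rw [mul_β, conj_β _ v hv, conj_y _ v hv, inv_β, hv.1]
        simp [bb]
      cyc := by
        refine ⟨⟨0, 0, 1, 0, 0, by simp, by simp⟩, ⟨rfl, rfl⟩, ?_, ?_⟩
        · intro h
          exact one_ne_zero h.2
        · intro v hv
          have key : ∀ n : ℕ, (⟨0, 0, 1, 0, 0, by simp, by simp⟩ : GG p q) ^ n =
              ⟨0, 0, n, 0, 0, by simp, by simp⟩ := by
            intro n
            induction n with
            | zero =>
              rw [pow_zero]
              ext <;> simp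
            | succ n ih =>
              rw [pow_succ, ih]
              ext k <;> simp
          refine ⟨(-v.β).val, ?_⟩
          rw [key]
          refine ⟨?_, ?_⟩
          · funext k
            rw [mul_y, hv.1]
            simp
          · rw [mul_β, hv.1]
            simp
      dist := by
        intro g hg
        have hy : g.y = 0 := by
          apply nondeg hq g.y g.hy
          intro z hz
          have h := (hg ⟨0, fun k => z (k + g.i), 0, 0, 0, by rw [sum_add z, hz], by simp⟩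
            ⟨rfl, rfl⟩ ⟨rfl, rfl⟩).2
          rw [conj_β _ _ ⟨rfl, rfl⟩] at h
          simp only [sub_add_cancel, zero_mul, sub_zero, zero_sub, neg_eq_zero] at h
          exact h
        refine ⟨⟨g.α, g.z, g.β, 0, 0, g.hz, by simp⟩, ⟨rfl, rfl⟩,
          ⟨0, 0, 0, 0, g.i, by simp, by simp⟩, ⟨rfl, rfl⟩, ?_⟩
        ext k
        · simp
        · simp
        · simp
        · simp [hy]
        · simp
      ha := aa_pow_p h5 h01
      hb := by
        rw [bb_pow]
        ext k
        · rfl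
        · rfl
        · rfl
        · rfl
        · exact ZMod.natCast_self q
      ig := ig h2 hq h01
      haV := by
        intro h
        have h6 := congrFun h.1 0
        have h7 : dl p (0 : ZMod q) 1 0 = 0 := h6
        rw [dl_apply, if_pos rfl, if_neg h01, sub_zero] at h7
        exact one_ne_zero h7
      hD := by
        intro d hd
        refine ⟨⟨d.α, d.z, d.β, 0, 0, d.hz, by simp⟩, ⟨rfl, rfl⟩, d.i.val, ?_⟩
        rw [bb_pow]
        ext k
        · simp
        · simp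
        · simp
        · simp [hd.1]
        · simp
      count := fun v hv hne => count h5 h3 h2 hq v hv hne
      cen := by
        intro h
        omega }

end BaseA

theorem baseA {p q : ℕ} (hp : p.Prime) (hq : q.Prime) (hpq : p ≠ q) (h5 : 5 ≤ p) (h3 : 3 ≤ q) :
    ∃ (E : Type) (_ : Group E) (_ : Finite E) (V D : Subgroup E) (a b : E),
      Group.IsSolvable E ∧ Frame p q E V D a b := by
  have : Fact p.Prime := ⟨hp⟩
  have : Fact q.Prime := ⟨hq⟩
  have : NeZero q := ⟨hq.ne_zero⟩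
  have : NeZero p := ⟨hp.ne_zero⟩
  exact ⟨BaseA.GG p q, inferInstance, inferInstance, BaseA.VV p q, BaseA.DD p q, BaseA.aa p q,
    BaseA.bb p q, BaseA.solv, BaseA.frame hpq h5 h3⟩

end Helper76.PQ
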