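import Pool.Agent.Helper76.PQ.Ext

set_option autoImplicit false

namespace Helper76.PQ

open Helper76.IG

/-! ### the group of the maps `(x, y) ↦ (e x + c, y + f0 + f1 x + f2 x²)` -/

/-- the group of the maps `(x, y) ↦ (e x + c, y + f0 + f1 x + f2 x²)` of the plane -/
@[ext]
structure BaseBG (p : ℕ) where
  e : ℤˣ
  c : ZMod p
  f0 : ZMod p
  f1 : ZMod p
  f2 : ZMod p

namespace BaseBG

variable {p : ℕ}

/-- the sign in the prime field -/
def s (p : ℕ) (e : ℤˣ) : ZMod p := ((e : ℤ) : ZMod p)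

theorem s_one : s p 1 = 1 := by simp [s]

theorem s_mul (e e' : ℤˣ) : s p (e * e') = s p e * s p e' := by simp [s]

theorem s_sq (e : ℤˣ) : s p e * s p e = 1 := by
  rw [← s_mul, Int.units_mul_self, s_one]

instance : Mul (BaseBG p) := ⟨fun g h => ⟨g.e * h.e, g.c + s p g.e * h.c,
  h.f0 + (g.f0 + g.f1 * h.c + g.f2 * h.c ^ 2), h.f1 + s p h.e * (g.f1 + 2 * g.f2 * h.c),
  h.f2 + g.f2⟩⟩
instance : One (BaseBG p) := ⟨⟨1, 0, 0, 0, 0⟩⟩
instance : Inv (BaseBG p) := ⟨fun g => ⟨g.e, - (s p g.e * g.c),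
  -g.f0 + s p g.e * g.f1 * g.c - g.f2 * g.c ^ 2, - (s p g.e * g.f1) + 2 * g.f2 * g.c, -g.f2⟩⟩

@[simp] theorem mul_e (g h : BaseBG p) : (g * h).e = g.e * h.e := rfl
@[simp] theorem mul_c (g h : BaseBG p) : (g * h).c = g.c + s p g.e * h.c := rfl
@[simp] theorem mul_f0 (g h : BaseBG p) :
    (g * h).f0 = h.f0 + (g.f0 + g.f1 * h.c + g.f2 * h.c ^ 2) := rfl
@[simp] theorem mul_f1 (g h : BaseBG p) :
    (g * h).f1 = h.f1 + s p h.e * (g.f1 + 2 * g.f2 * h.c) := rfl
@[simp] theorem mul_f2 (g h : BaseBG p) : (g * h).f2 = h.f2 + g.f2 := rfl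
@[simp] theorem one_e : (1 : BaseBG p).e = 1 := rfl
@[simp] theorem one_c : (1 : BaseBG p).c = 0 := rfl
@[simp] theorem one_f0 : (1 : BaseBG p).f0 = 0 := rfl
@[simp] theorem one_f1 : (1 : BaseBG p).f1 = 0 := rfl
@[simp] theorem one_f2 : (1 : BaseBG p).f2 = 0 := rfl
@[simp] theorem inv_e (g : BaseBG p) : (g⁻¹).e = g.e := rfl
@[simp] theorem inv_c (g : BaseBG p) : (g⁻¹).c = - (s p g.e * g.c) := rfl
@[simp] theorem inv_f0 (g : BaseBG p) :
    (g⁻¹).f0 = -g.f0 + s p g.e * g.f1 * g.c - g.f2 * g.c ^ 2 := rfl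
@[simp] theorem inv_f1 (g : BaseBG p) :
    (g⁻¹).f1 = - (s p g.e * g.f1) + 2 * g.f2 * g.c := rfl
@[simp] theorem inv_f2 (g : BaseBG p) : (g⁻¹).f2 = -g.f2 := rfl

instance : Group (BaseBG p) := Group.ofLeftAxioms
  (by intro x y z
      have h := s_sq (p := p) y.e
      ext1
      · exact mul_assoc _ _ _
      · simp only [mul_e, mul_c, s_mul]; ring
      · simp only [mul_c, mul_f0, mul_f1, mul_f2]
        linear_combination (-(x.f2 * z.c ^ 2)) * h
      · simp only [mul_e, mul_c, mul_f1, mul_f2, s_mul]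
        linear_combination (-(2 * x.f2 * z.c * s p z.e)) * h
      · simp only [mul_f2]; ring)
  (by intro x
      ext1
      · exact one_mul _
      · simp [s_one]
      · simp
      · simp
      · simp)
  (by intro x
      have h := s_sq (p := p) x.e
      ext1
      · exact Int.units_mul_self _
      · simp
      · simp only [mul_f0, inv_f0, inv_f1, inv_f2, one_f0]; ring
      · simp only [mul_f1, inv_f1, inv_f2, one_f1]
        linear_combination (- x.f1) * h
      · simp)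

instance [NeZero p] : Finite (BaseBG p) :=
  Finite.of_injective (fun g : BaseBG p => (g.e, g.c, g.f0, g.f1, g.f2)) (by
    intro g h hgh
    simp only [Prod.mk.injEq] at hgh
    obtain ⟨h1, h2, h3, h4, h5⟩ := hgh
    ext1 <;> assumption)

/-- the action on the points of the plane -/
def act (g : BaseBG p) (z : ZMod p × ZMod p) : ZMod p × ZMod p :=
  (s p g.e * z.1 + g.c, z.2 + (g.f0 + g.f1 * z.1 + g.f2 * z.1 ^ 2))

theorem act_one (z : ZMod p × ZMod p) : act (1 : BaseBG p) z = z := by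
  simp [act, s_one]

theorem act_mul (g h : BaseBG p) (z : ZMod p × ZMod p) : act (g * h) z = act g (act h z) := by
  have h1 := s_sq (p := p) h.e
  unfold act
  ext1
  · simp only [mul_e, mul_c, s_mul]; ring
  · simp only [mul_f0, mul_f1, mul_f2]
    linear_combination (-(g.f2 * z.1 ^ 2)) * h1

theorem act_inv_act (g : BaseBG p) (z : ZMod p × ZMod p) : act g⁻¹ (act g z) = z := by
  rw [← act_mul, inv_mul_cancel, act_one]

theorem act_act_inv (g : BaseBG p) (z : ZMod p × ZMod p) : act g (act g⁻¹ z) = z := by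
  rw [← act_mul, mul_inv_cancel, act_one]

/-- the reflection -/
def bb (p : ℕ) : BaseBG p := ⟨-1, 0, 0, 0, 0⟩

/-- the element of order `p`: `(x, y) ↦ (x + 1, y + (x + 1) ^ 3 - x ^ 3)` -/
def aa (p : ℕ) : BaseBG p := ⟨1, 1, 1, 3, 3⟩

theorem aa_pow (n : ℕ) : aa p ^ n = ⟨1, n, n ^ 3, 3 * n ^ 2, 3 * n⟩ := by
  induction n with
  | zero =>
    rw [pow_zero]
    ext1 <;> simp
  | succ n ih =>
    rw [pow_succ, ih]
    ext1
    · rfl
    · simp [aa, s_one]
    · simp only [mul_f0, aa]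
      push_cast
      ring
    · simp only [mul_f1, aa, s_one]
      push_cast
      ring
    · simp only [mul_f2, aa]
      push_cast
      ring

theorem aa_pow_p : aa p ^ p = 1 := by
  rw [aa_pow]
  ext1 <;> simp

theorem bb_mul_bb : bb p * bb p = 1 := by
  ext1 <;> simp [bb]

/-- the sign homomorphism -/
def sgn : BaseBG p →* ℤˣ where
  toFun g := g.e
  map_one' := rfl
  map_mul' _ _ := rfl

end BaseBG

theorem BaseB_solv {G H : Type} [Group G] [Group H] (f : G →* H) (hH : Group.IsSolvable H)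
    (hk : Group.IsSolvable f.ker) : Group.IsSolvable G :=
  Group.isSolvable_of_ker_le_range f.ker.subtype f (by simp)

theorem BaseB_solvG (p : ℕ) : Group.IsSolvable (BaseBG p) := by
  refine BaseB_solv BaseBG.sgn inferInstance ?_
  let f : (BaseBG.sgn (p := p)).ker →* Multiplicative (ZMod p) :=
    { toFun := fun g => Multiplicative.ofAdd g.1.c
      map_one' := rfl
      map_mul' := by
        intro g h
        have hg : g.1.e = 1 := g.2
        change Multiplicative.ofAdd (g.1.c + BaseBG.s p g.1.e * h.1.c) = _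
        rw [hg, BaseBG.s_one, one_mul]
        rfl }
  refine BaseB_solv f inferInstance ?_
  apply Group.isSolvable_of_comm
  rintro ⟨⟨g, hg⟩, hg'⟩ ⟨⟨h, hh⟩, hh'⟩
  have h1 : g.e = 1 := hg
  have h2 : h.e = 1 := hh
  have h3 : g.c = 0 := hg'
  have h4 : h.c = 0 := hh'
  apply Subtype.ext
  apply Subtype.ext
  change g * h = h * g
  ext1
  · simp [mul_comm]
  · simp [h3, h4]
  · simp only [BaseBG.mul_f0, h3, h4]; ring
  · simp only [BaseBG.mul_f1, h1, h2, h3, h4, BaseBG.s_one]; ring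
  · simp only [BaseBG.mul_f2]; ring


/-! ### invariable generation of the group of maps -/

theorem BaseB_gen {p : ℕ} (hp : p.Prime) {G : Type} [Group G] (ι : Multiplicative (ZMod p) →* G)
    (M : Subgroup G) (t : ZMod p) (ht : t ≠ 0) (h : ι (Multiplicative.ofAdd t) ∈ M) (y : ZMod p) :
    ι (Multiplicative.ofAdd y) ∈ M := by
  have : Fact p.Prime := ⟨hp⟩
  have h1 : Multiplicative.ofAdd y = (Multiplicative.ofAdd t) ^ (y / t).val := by
    rw [← ofAdd_nsmul, nsmul_eq_mul, ZMod.natCast_zmod_val, div_mul_cancel₀ _ ht]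
  rw [h1, map_pow]
  exact M.pow_mem h _

namespace BaseBG

variable {p : ℕ}

/-- constants -/
def i0 : Multiplicative (ZMod p) →* BaseBG p where
  toFun y := ⟨1, 0, y.toAdd, 0, 0⟩
  map_one' := rfl
  map_mul' x y := by
    ext1 <;> simp [add_comm]

/-- linear functions -/
def i1 : Multiplicative (ZMod p) →* BaseBG p where
  toFun y := ⟨1, 0, 0, y.toAdd, 0⟩
  map_one' := rfl
  map_mul' x y := by
    ext1 <;> simp [add_comm, s_one]

/-- quadratic functions -/
def i2 : Multiplicative (ZMod p) →* BaseBG p where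
  toFun y := ⟨1, 0, 0, 0, y.toAdd⟩
  map_one' := rfl
  map_mul' x y := by
    ext1 <;> simp [add_comm]

/-- translations -/
def it : Multiplicative (ZMod p) →* BaseBG p where
  toFun y := ⟨1, y.toAdd, 0, 0, 0⟩
  map_one' := rfl
  map_mul' x y := by
    ext1 <;> simp [s_one]

theorem ne_zero_of_lt (hp : p.Prime) {n : ℕ} (h : ∀ r, r.Prime → r ∣ n → r < p) :
    ((n : ℕ) : ZMod p) ≠ 0 := by
  rw [Ne, ZMod.natCast_eq_zero_iff]
  intro hd
  exact absurd (h p hp hd) (lt_irrefl _)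

theorem gen_core (hp : p.Prime) (h5 : 5 ≤ p) (M : Subgroup (BaseBG p)) (g : BaseBG p)
    (ha : g⁻¹ * aa p * g ∈ M) (hb : bb p ∈ M) : M = ⊤ := by
  have h2 : (2 : ZMod p) ≠ 0 := by
    have := ne_zero_of_lt hp (n := 2) (fun r hr hd => by
      have := Nat.le_of_dvd (by norm_num) hd; omega)
    exact_mod_cast this
  have h3 : (3 : ZMod p) ≠ 0 := by
    have := ne_zero_of_lt hp (n := 3) (fun r hr hd => by
      have := Nat.le_of_dvd (by norm_num) hd; omega)
    exact_mod_cast this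
  have : Fact p.Prime := ⟨hp⟩
  set X := g⁻¹ * aa p * g with hX
  have hXe : X.e = 1 := by
    rw [hX]
    simp [aa]
  have hXf : X.f2 = 3 := by
    rw [hX]
    simp [aa]
  have hXc : X.c = s p g.e := by
    rw [hX]
    simp [aa]
  have hc2 : X.c * X.c = 1 := by rw [hXc, s_sq]
  -- an element of V with nonzero quadratic part
  have key : ∀ W ∈ M, W.e = 1 → W.c = 0 →
      ∃ W' ∈ M, W'.e = 1 ∧ W'.c = 0 ∧ W'.f2 = 0 ∧ W'.f1 = 2 * W.f2 * X.c ∧
        W'.f0 = W.f1 * X.c + W.f2 * X.c ^ 2 := by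
    intro W hW he hc
    refine ⟨X⁻¹ * W * X * W⁻¹, M.mul_mem (M.mul_mem (M.mul_mem (M.inv_mem ha) hW) ha)
      (M.inv_mem hW), ?_, ?_, ?_, ?_, ?_⟩
    · simp [he]
    · simp [hc, hXe, s_one, he]
    · simp
    · simp [hc, hXe, s_one, he]
      ring
    · simp [hc, hXe, s_one, he]
      ring
  obtain ⟨W, hW, hWe, hWc, hWf⟩ : ∃ W ∈ M, W.e = 1 ∧ W.c = 0 ∧ W.f2 = 6 := by
    refine ⟨X * (bb p * X * bb p), M.mul_mem ha (M.mul_mem (M.mul_mem hb ha) hb), ?_, ?_, ?_⟩
    · simp [hXe, bb]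
    · simp [hXe, bb, s]
    · simp [hXf, bb]
      norm_num
  have h6 : (6 : ZMod p) ≠ 0 := by
    have : (6 : ZMod p) = 2 * 3 := by norm_num
    rw [this]
    exact mul_ne_zero h2 h3
  have hc0 : X.c ≠ 0 := by
    intro h
    rw [h, mul_zero] at hc2
    exact zero_ne_one hc2
  obtain ⟨W1, hW1, h1e, h1c, h12, h11, h10⟩ := key W hW hWe hWc
  obtain ⟨W0, hW0, h0e, h0c, h02, h01, h00⟩ := key W1 hW1 h1e h1c
  have a0 : ∀ y : ZMod p, i0 (Multiplicative.ofAdd y) ∈ M := by
    refine BaseB_gen hp i0 M W0.f0 ?_ ?_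
    · rw [h00, h12, h11, hWf, zero_mul, add_zero]
      exact mul_ne_zero (mul_ne_zero (mul_ne_zero h2 h6) hc0) hc0
    · have : i0 (Multiplicative.ofAdd W0.f0) = W0 := by
        ext1
        · rw [h0e]; rfl
        · rw [h0c]; rfl
        · rfl
        · rw [h01, h12]; simp [i0]
        · rw [h02]; rfl
      rw [this]
      exact hW0
  have a1 : ∀ y : ZMod p, i1 (Multiplicative.ofAdd y) ∈ M := by
    refine BaseB_gen hp i1 M W1.f1 ?_ ?_
    · rw [h11, hWf]
      exact mul_ne_zero (mul_ne_zero h2 h6) hc0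
    · have : i1 (Multiplicative.ofAdd W1.f1) = W1 * i0 (Multiplicative.ofAdd (-W1.f0)) := by
        ext1
        · simp [i1, i0, h1e]
        · simp [i1, i0, h1c]
        · simp [i1, i0]
        · simp [i1, i0, s_one]
        · simp [i1, i0, h12]
      rw [this]
      exact M.mul_mem hW1 (a0 _)
  have a2 : ∀ y : ZMod p, i2 (Multiplicative.ofAdd y) ∈ M := by
    refine BaseB_gen hp i2 M W.f2 ?_ ?_
    · rw [hWf]
      exact h6
    · have : i2 (Multiplicative.ofAdd W.f2) =
          W * i0 (Multiplicative.ofAdd (-W.f0)) * i1 (Multiplicative.ofAdd (-W.f1)) := by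
        ext1
        · simp [i2, i1, i0, hWe]
        · simp [i2, i1, i0, hWc]
        · simp [i2, i1, i0]
        · simp [i2, i1, i0, s_one]
        · simp [i2, i1, i0]
      rw [this]
      exact M.mul_mem (M.mul_mem hW (a0 _)) (a1 _)
  have at' : ∀ y : ZMod p, it (Multiplicative.ofAdd y) ∈ M := by
    refine BaseB_gen hp it M X.c hc0 ?_
    have : it (Multiplicative.ofAdd X.c) = X * i0 (Multiplicative.ofAdd (-X.f0)) *
        i1 (Multiplicative.ofAdd (-X.f1)) * i2 (Multiplicative.ofAdd (-X.f2)) := by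
      ext1
      · simp [i2, i1, i0, it, hXe]
      · simp [i2, i1, i0, it]
      · simp [i2, i1, i0, it]
      · simp [i2, i1, i0, it, s_one]
      · simp [i2, i1, i0, it]
    rw [this]
    exact M.mul_mem (M.mul_mem (M.mul_mem ha (a0 _)) (a1 _)) (a2 _)
  rw [eq_top_iff]
  intro x _
  obtain ⟨B, hBM, hbe, hbc, hb0, hb1, hb2⟩ : ∃ B ∈ M, B.e = x.e ∧ B.c = 0 ∧ B.f0 = 0 ∧
      B.f1 = 0 ∧ B.f2 = 0 := by
    rcases Int.units_eq_one_or x.e with h | h
    · exact ⟨1, M.one_mem, h.symm, rfl, rfl, rfl, rfl⟩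
    · exact ⟨bb p, hb, h.symm, rfl, rfl, rfl, rfl⟩
  have hx : x = it (Multiplicative.ofAdd x.c) * B *
      i0 (Multiplicative.ofAdd x.f0) * i1 (Multiplicative.ofAdd x.f1) *
      i2 (Multiplicative.ofAdd x.f2) := by
    ext1
    · simp [i2, i1, i0, it, hbe]
    · simp [i2, i1, i0, it, hbc]
    · simp [i2, i1, i0, it, hb0]
    · simp [i2, i1, i0, it, hb1, s_one]
    · simp [i2, i1, i0, it, hb2]
  rw [hx]
  exact M.mul_mem (M.mul_mem (M.mul_mem (M.mul_mem (at' _) hBM) (a0 _)) (a1 _)) (a2 _)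

theorem ig (hp : p.Prime) (h5 : 5 ≤ p) : InvGen (aa p) (bb p) := by
  intro g h
  set M := Subgroup.closure {g⁻¹ * aa p * g, h⁻¹ * bb p * h} with hM
  have h1 : g⁻¹ * aa p * g ∈ M := Subgroup.subset_closure (by simp)
  have h2 : h⁻¹ * bb p * h ∈ M := Subgroup.subset_closure (by simp)
  have h3 : M.comap (MulAut.conj h⁻¹).toMonoidHom = ⊤ := by
    refine gen_core hp h5 _ (g * h⁻¹) ?_ ?_
    · rw [Subgroup.mem_comap]
      change h⁻¹ * ((g * h⁻¹)⁻¹ * aa p * (g * h⁻¹)) * h⁻¹⁻¹ ∈ M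
      have : h⁻¹ * ((g * h⁻¹)⁻¹ * aa p * (g * h⁻¹)) * h⁻¹⁻¹ = g⁻¹ * aa p * g := by group
      rw [this]
      exact h1
    · rw [Subgroup.mem_comap]
      change h⁻¹ * bb p * h⁻¹⁻¹ ∈ M
      rw [inv_inv]
      exact h2
  rw [eq_top_iff]
  intro x _
  have h4 : h * x * h⁻¹ ∈ M.comap (MulAut.conj h⁻¹).toMonoidHom := by rw [h3]; trivial
  rw [Subgroup.mem_comap] at h4
  change h⁻¹ * (h * x * h⁻¹) * h⁻¹⁻¹ ∈ M at h4
  have h5 : h⁻¹ * (h * x * h⁻¹) * h⁻¹⁻¹ = x := by group
  rwa [h5] at h4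

end BaseBG

/-! ### the module of functions on the plane -/

section Module

variable (p : ℕ) [NeZero p]

/-- the functions on the plane with zero sum on every vertical line -/
def BaseBU : AddSubgroup (ZMod p × ZMod p → ZMod 2) where
  carrier := {u | ∀ x : ZMod p, ∑ y : ZMod p, u (x, y) = 0}
  zero_mem' := by
    intro x
    simp
  add_mem' := by
    intro u v hu hv x
    simp only [Pi.add_apply]
    rw [Finset.sum_add_distrib, hu x, hv x, add_zero]
  neg_mem' := by
    intro u hu x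
    simp only [Pi.neg_apply]
    rw [Finset.sum_neg_distrib, hu x, neg_zero]

/-- the action -/
def BaseBrho : BaseBG p →* AddMonoid.End (BaseBU p) where
  toFun g :=
    { toFun := fun u => ⟨fun z => u.1 (BaseBG.act g⁻¹ z), by
        intro x
        have h := u.2 (BaseBG.s p (g⁻¹).e * x + (g⁻¹).c)
        rw [← h]
        exact Equiv.sum_comp (Equiv.addRight ((g⁻¹).f0 + (g⁻¹).f1 * x + (g⁻¹).f2 * x ^ 2))
          (fun y => u.1 (BaseBG.s p (g⁻¹).e * x + (g⁻¹).c, y))⟩
      map_zero' := rfl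
      map_add' := fun _ _ => rfl }
  map_one' := by
    ext u z
    change u.1 (BaseBG.act (1 : BaseBG p)⁻¹ z) = u.1 z
    rw [inv_one, BaseBG.act_one]
  map_mul' := by
    intro g h
    ext u z
    change u.1 (BaseBG.act (g * h)⁻¹ z) = u.1 (BaseBG.act h⁻¹ (BaseBG.act g⁻¹ z))
    rw [mul_inv_rev, BaseBG.act_mul]

theorem BaseBrho_apply (g : BaseBG p) (u : BaseBU p) (z : ZMod p × ZMod p) :
    (BaseBrho p g u).1 z = u.1 (BaseBG.act g⁻¹ z) := rfl

/-- the functional -/
def BaseBlam : BaseBU p →+ ZMod 2 where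
  toFun u := ∑ x : ZMod p, u.1 (x, x ^ 3)
  map_zero' := by
    change ∑ x : ZMod p, (0 : ZMod 2) = 0
    simp
  map_add' u v := by
    change ∑ x : ZMod p, (u.1 (x, x ^ 3) + v.1 (x, x ^ 3)) = _
    rw [Finset.sum_add_distrib]

theorem BaseBlam_apply (u : BaseBU p) : BaseBlam p u = ∑ x : ZMod p, u.1 (x, x ^ 3) := rfl

theorem BaseB_card_odd {p : ℕ} [NeZero p] (h : ¬ 2 ∣ p) (a : ZMod 2) : p • a = a := by
  have h1 : p % 2 = 1 := by omega
  rw [nsmul_eq_mul, ← ZMod.natCast_mod p 2, h1, Nat.cast_one, one_mul]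

theorem BaseBU_two (u : BaseBU p) : 2 • u = 0 := by
  apply Subtype.ext
  funext z
  change 2 • u.1 z = 0
  rw [nsmul_eq_mul]
  have : ((2 : ℕ) : ZMod 2) = 0 := by decide
  rw [this, zero_mul]

/-- invariance of the functional -/
theorem BaseBlam_aa (u : BaseBU p) : BaseBlam p (BaseBrho p (BaseBG.aa p) u) = BaseBlam p u := by
  rw [BaseBlam_apply, BaseBlam_apply]
  have h : ∀ x : ZMod p, (BaseBrho p (BaseBG.aa p) u).1 (x, x ^ 3)
      = (fun x => u.1 (x, x ^ 3)) (Equiv.subRight 1 x) := by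
    intro x
    rw [BaseBrho_apply]
    refine congrArg u.1 (Prod.ext ?_ ?_)
    · simp only [BaseBG.act, BaseBG.inv_e, BaseBG.inv_c, BaseBG.aa, BaseBG.s_one,
        Equiv.subRight_apply]
      ring
    · simp only [BaseBG.act, BaseBG.inv_f0, BaseBG.inv_f1,
        BaseBG.inv_f2, BaseBG.aa, BaseBG.s_one, Equiv.subRight_apply]
      ring
  simp only [h]
  exact Equiv.sum_comp (Equiv.subRight 1) (fun x => u.1 (x, x ^ 3))

theorem BaseBlam_zpowers (u : BaseBU p) {r : BaseBG p}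
    (hr : r ∈ Subgroup.zpowers (BaseBG.aa p)) : BaseBlam p (BaseBrho p r u) = BaseBlam p u := by
  let S : Subgroup (BaseBG p) :=
    { carrier := {r | ∀ u, BaseBlam p (BaseBrho p r u) = BaseBlam p u}
      mul_mem' := by
        intro x y hx hy u
        rw [SD.rho_mul, hx, hy]
      one_mem' := by
        intro u
        rw [SD.rho_one]
      inv_mem' := by
        intro x hx u
        rw [← hx (BaseBrho p x⁻¹ u), SD.rho_rho_inv] }
  have h : Subgroup.zpowers (BaseBG.aa p) ≤ S := by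
    rw [Subgroup.zpowers_le]
    exact BaseBlam_aa p
  exact h hr u

/-- the normal subgroup of the quadratic functions -/
def BaseBV : Subgroup (BaseBG p) where
  carrier := {g | g.e = 1 ∧ g.c = 0}
  mul_mem' := by
    rintro g h ⟨h1, h2⟩ ⟨h3, h4⟩
    exact ⟨by rw [BaseBG.mul_e, h1, h3, mul_one], by rw [BaseBG.mul_c, h2, h4, mul_zero, add_zero]⟩
  one_mem' := ⟨rfl, rfl⟩
  inv_mem' := by
    rintro g ⟨h1, h2⟩
    exact ⟨h1, by rw [BaseBG.inv_c, h2, mul_zero, neg_zero]⟩

instance BaseBV_normal : (BaseBV p).Normal where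
  conj_mem := by
    rintro g ⟨h1, h2⟩ x
    refine ⟨?_, ?_⟩
    · simp [h1]
    · have h3 := BaseBG.s_sq (p := p) x.e
      simp only [BaseBG.mul_c, BaseBG.mul_e, BaseBG.inv_c, h1, h2]
      rw [mul_one]
      linear_combination (- x.c) * h3

omit [NeZero p] in
theorem BaseBV_card : Nat.card (BaseBV p) = p ^ 3 := by
  have e : BaseBV p ≃ ZMod p × ZMod p × ZMod p :=
    { toFun := fun g => (g.1.f0, g.1.f1, g.1.f2)
      invFun := fun z => ⟨⟨1, 0, z.1, z.2.1, z.2.2⟩, rfl, rfl⟩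
      left_inv := by
        rintro ⟨g, h1, h2⟩
        apply Subtype.ext
        ext1
        · exact h1.symm
        · exact h2.symm
        · rfl
        · rfl
        · rfl
      right_inv := fun _ => rfl }
  rw [Nat.card_congr e, Nat.card_prod, Nat.card_prod, Nat.card_zmod]
  ring

/-- restriction to the line `x = 0` -/
def BaseBres (z : BaseBU p) : BaseBU p :=
  ∑ c : ZMod p, BaseBrho p (BaseBG.i2 (Multiplicative.ofAdd c)) z

theorem BaseBU_sum {ι : Type} (S : Finset ι) (f : ι → BaseBU p) (z : ZMod p × ZMod p) :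
    (∑ i ∈ S, f i).1 z = ∑ i ∈ S, (f i).1 z := by
  rw [AddSubgroup.val_finsetSum, Finset.sum_apply]

theorem BaseB_line {p : ℕ} (hp : p.Prime) [NeZero p] (h2 : ¬ 2 ∣ p) (u : BaseBU p) (x y t : ZMod p) :
    (∑ c : ZMod p, u.1 (x, y + c * t)) = if t = 0 then u.1 (x, y) else 0 := by
  have : Fact p.Prime := ⟨hp⟩
  split_ifs with ht
  · simp only [ht, mul_zero, add_zero]
    rw [Finset.sum_const, Finset.card_univ, ZMod.card]
    exact BaseB_card_odd h2 _
  · rw [← u.2 x]
    exact Equiv.sum_comp ((Equiv.mulRight₀ t ht).trans (Equiv.addLeft y)) (fun y => u.1 (x, y))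

theorem BaseBres_apply {p : ℕ} (hp : p.Prime) [NeZero p] (h2 : ¬ 2 ∣ p) (z : BaseBU p)
    (x y : ZMod p) : (BaseBres p z).1 (x, y) = if x = 0 then z.1 (x, y) else 0 := by
  have : Fact p.Prime := ⟨hp⟩
  unfold BaseBres
  rw [BaseBU_sum]
  have h : ∀ c : ZMod p, (BaseBrho p (BaseBG.i2 (Multiplicative.ofAdd c)) z).1 (x, y)
      = z.1 (x, y + c * (- x ^ 2)) := by
    intro c
    rw [BaseBrho_apply]
    refine congrArg z.1 (Prod.ext ?_ ?_)
    · simp only [BaseBG.act, BaseBG.inv_e, BaseBG.inv_c, BaseBG.i2, BaseBG.s_one,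
        MonoidHom.coe_mk, OneHom.coe_mk]
      ring
    · simp only [BaseBG.act, BaseBG.inv_f0, BaseBG.inv_f1,
        BaseBG.inv_f2, BaseBG.i2, BaseBG.s_one, MonoidHom.coe_mk, OneHom.coe_mk, toAdd_ofAdd]
      ring
  simp only [h]
  rw [BaseB_line hp h2]
  simp

/-- the vector `u` -/
def BaseBu (h2 : ¬ 2 ∣ p) : BaseBU p :=
  ⟨fun z => if z.1 = 0 then (1 - if z.2 = 0 then 1 else 0) else 0, by
  intro x
  simp only
  split_ifs with hx
  · rw [Finset.sum_sub_distrib, Finset.sum_const, Finset.card_univ, ZMod.card,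
      BaseB_card_odd h2, Finset.sum_ite_eq' Finset.univ (0 : ZMod p) (fun _ => (1 : ZMod 2)),
      if_pos (Finset.mem_univ _), sub_self]
  · simp⟩

theorem BaseBu_apply (h2 : ¬ 2 ∣ p) (x y : ZMod p) :
    (BaseBu p h2).1 (x, y) = if x = 0 then (1 - if y = 0 then 1 else 0) else 0 := rfl

omit [NeZero p] in
theorem BaseB_act_bb (x y : ZMod p) : BaseBG.act (BaseBG.bb p)⁻¹ (x, y) = (-x, y) := by
  refine Prod.ext ?_ ?_
  · simp [BaseBG.act, BaseBG.bb, BaseBG.s]
  · simp [BaseBG.act, BaseBG.bb]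

theorem BaseBu_bb (h2 : ¬ 2 ∣ p) : BaseBrho p (BaseBG.bb p) (BaseBu p h2) = BaseBu p h2 := by
  apply Subtype.ext
  funext ⟨x, y⟩
  rw [BaseBrho_apply, BaseB_act_bb, BaseBu_apply, BaseBu_apply]
  simp only [neg_eq_zero]

theorem BaseB_star {p : ℕ} (hp : p.Prime) [NeZero p] (h2 : ¬ 2 ∣ p) (U₁ : AddSubgroup (BaseBU p))
    (hU : ∀ g, ∀ x ∈ U₁, BaseBrho p g x ∈ U₁)
    (h : ∃ x₁ ∈ U₁, ∃ x, BaseBu p h2 = x₁ + (BaseBrho p (BaseBG.bb p) x - x)) : U₁ = ⊤ := by
  have hres : ∀ z ∈ U₁, BaseBres p z ∈ U₁ := fun z hz => U₁.sum_mem fun c _ => hU _ _ hz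
  have hu : BaseBu p h2 ∈ U₁ := by
    obtain ⟨x₁, hx₁, x, hx⟩ := h
    have h3 : BaseBu p h2 = BaseBres p x₁ := by
      apply Subtype.ext
      funext ⟨a, b⟩
      rw [BaseBres_apply hp h2]
      split_ifs with ha
      · have h4 : (BaseBu p h2).1 (a, b) = (x₁ + (BaseBrho p (BaseBG.bb p) x - x)).1 (a, b) := by
          rw [← hx]
        rw [h4]
        change x₁.1 (a, b) + ((BaseBrho p (BaseBG.bb p) x).1 (a, b) - x.1 (a, b)) = _
        rw [BaseBrho_apply, BaseB_act_bb, ha, neg_zero, sub_self, add_zero]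
      · rw [BaseBu_apply, if_neg ha]
    rw [h3]
    exact hres _ hx₁
  -- functions supported on the line x = 0
  have hline : ∀ z : BaseBU p, BaseBres p z ∈ U₁ := by
    intro z
    have h5 : BaseBres p z = ∑ y : ZMod p, (z.1 (0, y)).val •
        BaseBrho p (BaseBG.i0 (Multiplicative.ofAdd y)) (BaseBu p h2) := by
      apply Subtype.ext
      funext ⟨a, b⟩
      rw [BaseBres_apply hp h2, BaseBU_sum]
      have h6 : ∀ y : ZMod p, ((z.1 (0, y)).val •
          BaseBrho p (BaseBG.i0 (Multiplicative.ofAdd y)) (BaseBu p h2)).1 (a, b) =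
          if a = 0 then z.1 (0, y) - (if b = y then z.1 (0, y) else 0) else 0 := by
        intro y
        have h7 : BaseBG.act (BaseBG.i0 (Multiplicative.ofAdd y))⁻¹ (a, b) = (a, b - y) := by
          refine Prod.ext ?_ ?_
          · simp [BaseBG.act, BaseBG.i0, BaseBG.s_one]
          · simp [BaseBG.act, BaseBG.i0, sub_eq_add_neg]
        change (z.1 (0, y)).val • (BaseBrho p (BaseBG.i0 (Multiplicative.ofAdd y))
          (BaseBu p h2)).1 (a, b) = _
        rw [BaseBrho_apply, h7, BaseBu_apply, nsmul_eq_mul, ZMod.natCast_zmod_val]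
        by_cases ha : a = 0
        · rw [if_pos ha, if_pos ha]
          by_cases hb : b = y
          · rw [if_pos hb, if_pos (sub_eq_zero.2 hb)]
            ring
          · rw [if_neg hb, if_neg (sub_ne_zero.2 hb)]
            ring
        · rw [if_neg ha, if_neg ha, mul_zero]
      simp only [h6]
      split_ifs with ha
      · rw [Finset.sum_sub_distrib, z.2 0, Finset.sum_ite_eq Finset.univ b,
          if_pos (Finset.mem_univ _), zero_sub, ha]
        exact (ZMod.neg_eq_self_mod_two _).symm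
      · simp
    rw [h5]
    exact U₁.sum_mem fun y _ => U₁.nsmul_mem (hU _ _ hu) _
  rw [eq_top_iff]
  intro z _
  have h8 : z = ∑ c : ZMod p, BaseBrho p (BaseBG.it (Multiplicative.ofAdd c))
      (BaseBres p (BaseBrho p (BaseBG.it (Multiplicative.ofAdd c))⁻¹ z)) := by
    apply Subtype.ext
    funext ⟨a, b⟩
    rw [BaseBU_sum]
    have h9 : ∀ c : ZMod p, (BaseBrho p (BaseBG.it (Multiplicative.ofAdd c))
      (BaseBres p (BaseBrho p (BaseBG.it (Multiplicative.ofAdd c))⁻¹ z))).1 (a, b) =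
        if a = c then z.1 (a, b) else 0 := by
      intro c
      have h7 : BaseBG.act (BaseBG.it (Multiplicative.ofAdd c))⁻¹ (a, b) = (a - c, b) := by
        refine Prod.ext ?_ ?_
        · simp [BaseBG.act, BaseBG.it, BaseBG.s_one, sub_eq_add_neg]
        · simp [BaseBG.act, BaseBG.it]
      rw [BaseBrho_apply, h7, BaseBres_apply hp h2, BaseBrho_apply, inv_inv]
      have h10 : BaseBG.act (BaseBG.it (Multiplicative.ofAdd c)) (a - c, b) = (a, b) := by
        refine Prod.ext ?_ ?_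
        · simp [BaseBG.act, BaseBG.it, BaseBG.s_one]
        · simp [BaseBG.act, BaseBG.it]
      rw [h10]
      simp only [sub_eq_zero]
    simp only [h9]
    rw [Finset.sum_ite_eq Finset.univ a, if_pos (Finset.mem_univ _)]
  rw [h8]
  exact U₁.sum_mem fun c _ => hU _ _ (hline _)

/-- the inverse image of the powers of `aa` on which the functional vanishes -/
def BaseBD : Subgroup (SD (BaseBrho p)) where
  carrier := {x | BaseBlam p x.l = 0 ∧ x.r ∈ Subgroup.zpowers (BaseBG.aa p)}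
  mul_mem' := by
    rintro x y ⟨h1, h2⟩ ⟨h3, h4⟩
    refine ⟨?_, mul_mem h2 h4⟩
    rw [SD.mul_l, map_add, BaseBlam_zpowers p _ h2, h1, h3, add_zero]
  one_mem' := ⟨map_zero _, one_mem _⟩
  inv_mem' := by
    rintro x ⟨h1, h2⟩
    refine ⟨?_, inv_mem h2⟩
    rw [SD.inv_l, map_neg, BaseBlam_zpowers p _ (inv_mem h2), h1, neg_zero]

/-- the element of the frame -/
def BaseBr (x₀ y₀ : ZMod p) (t : ℤˣ × ZMod p × ZMod p) (γ : ZMod p) : BaseBG p :=
  ⟨t.1, t.2.1, y₀ - (BaseBG.s p t.1 * (x₀ - t.2.1)) ^ 3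
    - t.2.2 * (BaseBG.s p t.1 * (x₀ - t.2.1)) + γ * (BaseBG.s p t.1 * (x₀ - t.2.1)) ^ 2,
    t.2.2 - 2 * γ * (BaseBG.s p t.1 * (x₀ - t.2.1)), γ⟩

theorem BaseB_exists {p : ℕ} (hp : p.Prime) [NeZero p] (h2 : ¬ 2 ∣ p) (u : BaseBU p)
    (x₀ y₀ : ZMod p) (h : u.1 (x₀, y₀) ≠ 0) (t : ℤˣ × ZMod p × ZMod p) :
    ∃ γ, BaseBlam p (BaseBrho p (BaseBr p x₀ y₀ t γ)⁻¹ u) ≠ 0 := by
  have : Fact p.Prime := ⟨hp⟩
  by_contra hcon
  push Not at hcon
  apply h
  obtain ⟨e, c, β⟩ := t
  set x₁ := BaseBG.s p e * (x₀ - c) with hx₁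
  have hs := BaseBG.s_sq (p := p) e
  have h3 : ∀ γ x, (BaseBrho p (BaseBr p x₀ y₀ (e, c, β) γ)⁻¹ u).1 (x, x ^ 3) =
      u.1 (BaseBG.s p e * x + c, (x ^ 3 + y₀ - x₁ ^ 3 + β * (x - x₁)) + γ * (x - x₁) ^ 2) := by
    intro γ x
    rw [BaseBrho_apply, inv_inv]
    refine congrArg u.1 (Prod.ext ?_ ?_)
    · simp only [BaseBG.act, BaseBr]
    · simp only [BaseBG.act, BaseBr, ← hx₁]
      ring
  have h4 : ∑ γ : ZMod p, BaseBlam p (BaseBrho p (BaseBr p x₀ y₀ (e, c, β) γ)⁻¹ u) = 0 :=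
    Finset.sum_eq_zero fun γ _ => hcon γ
  simp only [BaseBlam_apply, h3] at h4
  rw [Finset.sum_comm] at h4
  simp only [BaseB_line hp h2, sq_eq_zero_iff, sub_eq_zero] at h4
  rw [Finset.sum_ite_eq' Finset.univ x₁, if_pos (Finset.mem_univ _)] at h4
  rw [← h4]
  refine congrArg u.1 (Prod.ext ?_ ?_)
  · simp only
    rw [hx₁]
    linear_combination (c - x₀) * hs
  · simp only
    ring

/-- the functional determines the powers of `aa` -/
theorem BaseB_stab {p : ℕ} (hp : p.Prime) (h5 : 5 ≤ p) [NeZero p] (r : BaseBG p)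
    (h : ∀ u : BaseBU p, BaseBlam p u = 0 → BaseBlam p (BaseBrho p r u) = 0) :
    r ∈ Subgroup.zpowers (BaseBG.aa p) := by
  have : Fact p.Prime := ⟨hp⟩
  have h2 : (2 : ZMod p) ≠ 0 := by
    have := BaseBG.ne_zero_of_lt hp (n := 2) (fun r hr hd => by
      have := Nat.le_of_dvd (by norm_num) hd; omega)
    exact_mod_cast this
  have h3 : (3 : ZMod p) ≠ 0 := by
    have := BaseBG.ne_zero_of_lt hp (n := 3) (fun r hr hd => by
      have := Nat.le_of_dvd (by norm_num) hd; omega)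
    exact_mod_cast this
  set q := r⁻¹ with hq
  have hsq := BaseBG.s_sq (p := p) q.e
  have key : ∀ x : ZMod p, x ^ 3 + (q.f0 + q.f1 * x + q.f2 * x ^ 2) = (BaseBG.s p q.e * x + q.c) ^ 3 := by
    intro x₁
    by_contra hne
    set X := BaseBG.s p q.e * x₁ + q.c with hX
    set Y := x₁ ^ 3 + (q.f0 + q.f1 * x₁ + q.f2 * x₁ ^ 2) with hY
    obtain ⟨Y₂, hY₂⟩ : ∃ Y₂ : ZMod p, Y₂ ∉ ({Y, X ^ 3} : Finset (ZMod p)) := by
      by_contra hall
      push Not at hall
      have h6 : (Finset.univ : Finset (ZMod p)) ⊆ {Y, X ^ 3} := fun y _ => hall y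
      have h7 := Finset.card_le_card h6
      have h8 : ({Y, X ^ 3} : Finset (ZMod p)).card ≤ 2 := Finset.card_le_two
      rw [Finset.card_univ, ZMod.card] at h7
      omega
    rw [Finset.mem_insert, Finset.mem_singleton, not_or] at hY₂
    let u : BaseBU p := ⟨fun z => if z.1 = X then ((if z.2 = Y then 1 else 0) +
      (if z.2 = Y₂ then 1 else 0)) else 0, by
        intro x
        simp only
        split_ifs
        · rw [Finset.sum_add_distrib, Finset.sum_ite_eq' Finset.univ Y,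
            Finset.sum_ite_eq' Finset.univ Y₂, if_pos (Finset.mem_univ _),
            if_pos (Finset.mem_univ _)]
          decide
        · simp⟩
    have hu : ∀ x y, u.1 (x, y) = if x = X then ((if y = Y then 1 else 0) +
      (if y = Y₂ then 1 else 0)) else 0 := fun _ _ => rfl
    have hl : BaseBlam p u = 0 := by
      rw [BaseBlam_apply]
      refine Finset.sum_eq_zero fun x _ => ?_
      rw [hu]
      split_ifs with h9 h10 h11 h11
      · rw [h9] at h10
        exact absurd h10.symm hne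
      · rw [h9] at h10
        exact absurd h10.symm hne
      · rw [h9] at h11
        exact absurd h11.symm hY₂.2
      · rfl
      · rfl
    have hl2 := h u hl
    rw [BaseBlam_apply] at hl2
    have h9 : ∀ x, (BaseBrho p r u).1 (x, x ^ 3) = if x = x₁ then 1 else 0 := by
      intro x
      rw [BaseBrho_apply]
      have h10 : BaseBG.act r⁻¹ (x, x ^ 3) = (BaseBG.s p q.e * x + q.c,
          x ^ 3 + (q.f0 + q.f1 * x + q.f2 * x ^ 2)) := rfl
      rw [h10, hu]
      by_cases hx : x = x₁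
      · rw [hx, if_pos hX.symm, if_pos hY.symm, if_pos rfl, if_neg, add_zero]
        rw [← hY]
        exact fun hh => hY₂.1 hh.symm
      · rw [if_neg hx, if_neg]
        intro hh
        apply hx
        rw [hX] at hh
        linear_combination (BaseBG.s p q.e) * hh + (x₁ - x) * hsq
    simp only [h9] at hl2
    rw [Finset.sum_ite_eq' Finset.univ x₁, if_pos (Finset.mem_univ _)] at hl2
    exact one_ne_zero hl2
  set s := BaseBG.s p q.e with hs
  have k0 := key 0
  have k1 := key 1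
  have k2 := key (-1)
  have k3 := key 2
  have e0 : q.f0 = q.c ^ 3 := by linear_combination k0
  have e2 : q.f2 = 3 * q.c := by
    have : 2 * (q.f2 - 3 * q.c) = 0 := by
      linear_combination k1 + k2 - 2 * k0 + 6 * q.c * hsq
    rcases mul_eq_zero.1 this with h | h
    · exact absurd h h2
    · exact sub_eq_zero.1 h
  have e1' : (1 - s) + (q.f1 - 3 * s * q.c ^ 2) = 0 := by
    linear_combination k1 - k0 - e2 + (3 * q.c + s) * hsq
  have e1'' : 8 * (1 - s) + 2 * (q.f1 - 3 * s * q.c ^ 2) = 0 := by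
    linear_combination k3 - k0 - 4 * e2 + (12 * q.c + 8 * s) * hsq
  have hs1 : s = 1 := by
    have : (2 * 3) * (1 - s) = 0 := by linear_combination e1'' - 2 * e1'
    rcases mul_eq_zero.1 this with h | h
    · exact absurd h (mul_ne_zero h2 h3)
    · exact (sub_eq_zero.1 h).symm
  have e1 : q.f1 = 3 * q.c ^ 2 := by
    rw [hs1] at e1'
    linear_combination e1'
  have he : q.e = 1 := by
    rcases Int.units_eq_one_or q.e with h | h
    · exact h
    · exfalso
      rw [hs, h] at hs1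
      apply h2
      have : BaseBG.s p (-1) = -1 := by simp [BaseBG.s]
      rw [this] at hs1
      linear_combination - hs1
  have hqa : q = BaseBG.aa p ^ q.c.val := by
    rw [BaseBG.aa_pow]
    ext1
    · exact he
    · simp
    · simp [e0]
    · simp [e1]
    · simp [e2]
  have hr : r = q⁻¹ := by rw [hq, inv_inv]
  rw [hr, hqa]
  exact inv_mem (pow_mem (Subgroup.mem_zpowers _) _)

end Module

theorem BaseB_solvE (p : ℕ) [NeZero p] : Group.IsSolvable (SD (BaseBrho p)) := by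
  refine BaseB_solv (SD.toE (BaseBrho p)) (BaseB_solvG p) ?_
  apply Group.isSolvable_of_comm
  rintro ⟨g, hg⟩ ⟨h, hh⟩
  have h1 : g.r = 1 := hg
  have h2 : h.r = 1 := hh
  apply Subtype.ext
  change g * h = h * g
  apply SD.ext
  · rw [SD.mul_l, SD.mul_l, h1, h2, SD.rho_one, SD.rho_one, add_comm]
  · rw [SD.mul_r, SD.mul_r, h1, h2]

theorem baseB {p : ℕ} (hp : p.Prime) (h5 : 5 ≤ p) :
    ∃ (E : Type) (_ : Group E) (_ : Finite E) (V D : Subgroup E) (a b : E),
      Group.IsSolvable E ∧ Frame 2 p E V D a b := by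
  have : NeZero p := ⟨hp.ne_zero⟩
  have : Fact p.Prime := ⟨hp⟩
  have h2 : ¬ 2 ∣ p := by
    intro h
    have := (Nat.prime_dvd_prime_iff_eq Nat.prime_two hp).1 h
    omega
  have hfin : Finite (SD (BaseBrho p)) := inferInstance
  have hV : ∀ v : SD (BaseBrho p), v ∈ (SD.toE (BaseBrho p)).ker ↔ v.r = 1 := SD.mem_ker _
  have hD : ∀ v : SD (BaseBrho p), v ∈ BaseBD p ↔
    BaseBlam p v.l = 0 ∧ v.r ∈ Subgroup.zpowers (BaseBG.aa p) := fun _ => Iff.rfl
  -- conjugation of the elements of V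
  have hconj : ∀ g v : SD (BaseBrho p), v.r = 1 →
      (g * v * g⁻¹).l = BaseBrho p g.r v.l ∧ (g * v * g⁻¹).r = 1 := by
    intro g v hv
    constructor
    · rw [SD.mul_l, SD.mul_l, SD.mul_r, hv, mul_one, SD.inv_l, map_neg, SD.rho_rho_inv]
      abel
    · rw [SD.mul_r, SD.mul_r, hv, mul_one, SD.inv_r, mul_inv_cancel]
  have hline0 : ∀ u : BaseBU p, (∀ v ∈ BaseBV p, BaseBrho p v u = u) → u = 0 := by
    intro u hu
    apply Subtype.ext
    funext ⟨x, y⟩
    have h3 : ∀ y', u.1 (x, y') = u.1 (x, y) := by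
      intro y'
      have h4 := hu (BaseBG.i0 (Multiplicative.ofAdd (y' - y))) ⟨rfl, rfl⟩
      have h5 : (BaseBrho p (BaseBG.i0 (Multiplicative.ofAdd (y' - y))) u).1 (x, y') =
        u.1 (x, y') := by rw [h4]
      rw [BaseBrho_apply] at h5
      rw [← h5]
      refine congrArg u.1 (Prod.ext ?_ ?_)
      · simp [BaseBG.act, BaseBG.i0, BaseBG.s_one]
      · simp [BaseBG.act, BaseBG.i0]
    have h6 := u.2 x
    simp only [h3] at h6
    rw [Finset.sum_const, Finset.card_univ, ZMod.card, BaseB_card_odd h2] at h6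
    exact h6
  refine ⟨SD (BaseBrho p), inferInstance, hfin, (SD.toE (BaseBrho p)).ker, BaseBD p,
    ⟨BaseBu p h2, BaseBG.bb p⟩, SD.inr (BaseBrho p) (BaseBG.aa p), BaseB_solvE p, ?_⟩
  refine {
    norm := inferInstance
    comm := ?_
    expo := ?_
    hbD := ?_
    triv := ?_
    cyc := ?_
    dist := ?_
    ha := ?_
    hb := ?_
    ig := ?_
    haV := ?_
    hD := ?_
    count := ?_
    cen := ?_ }
  · -- comm
    intro v hv w hw
    rw [hV] at hv hw
    apply SD.ext
    · rw [SD.mul_l, SD.mul_l, hv, hw, SD.rho_one, SD.rho_one, add_comm]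
    · rw [SD.mul_r, SD.mul_r, hv, hw]
  · -- expo
    intro v hv
    rw [hV] at hv
    rw [pow_two]
    apply SD.ext
    · rw [SD.mul_l, hv, SD.rho_one, SD.one_l, ← two_nsmul, BaseBU_two]
    · rw [SD.mul_r, hv, SD.one_r, mul_one]
  · -- hbD
    exact ⟨map_zero _, Subgroup.mem_zpowers _⟩
  · -- triv
    intro v hv
    rw [hV] at hv
    obtain ⟨h3, h4⟩ := hconj (SD.inr (BaseBrho p) (BaseBG.aa p)) v hv
    generalize SD.inr (BaseBrho p) (BaseBG.aa p) * v * (SD.inr (BaseBrho p) (BaseBG.aa p))⁻¹ = w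
      at h3 h4 ⊢
    rw [hD, SD.mul_l, SD.mul_r, h3, h4, SD.inv_l, SD.inv_r, hv, inv_one, SD.rho_one, SD.rho_one,
      SD.inr_r, map_add, map_neg, BaseBlam_aa, add_neg_cancel, mul_one]
    exact ⟨rfl, one_mem _⟩
  · -- cyc
    have h2' : ∃ u : BaseBU p, BaseBlam p u ≠ 0 := by
      by_contra hcon
      push Not at hcon
      obtain ⟨γ, hγ⟩ := BaseB_exists hp h2 (BaseBu p h2) 0 1 (by
        rw [BaseBu_apply, if_pos rfl, if_neg one_ne_zero, sub_zero]
        exact one_ne_zero) (1, 0, 0)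
      exact hγ (hcon _)
    obtain ⟨u, hu⟩ := h2'
    have h01 : ∀ z : ZMod 2, z = 0 ∨ z = 1 := by decide
    refine ⟨SD.inl _ u, rfl, fun h => hu h.1, ?_⟩
    intro v hv
    rw [hV] at hv
    rcases h01 (BaseBlam p v.l) with h | h
    · refine ⟨0, ?_⟩
      rw [pow_zero, mul_one, hD, hv]
      exact ⟨h, one_mem _⟩
    · refine ⟨1, ?_⟩
      rw [pow_one, hD, SD.mul_l, SD.mul_r, hv, SD.rho_one, SD.inl_l, SD.inl_r, map_add, h,
        (h01 (BaseBlam p u)).resolve_left hu, mul_one]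
      exact ⟨by decide, one_mem _⟩
  · -- dist
    intro g hg
    have h3 : g.r ∈ Subgroup.zpowers (BaseBG.aa p) := by
      refine BaseB_stab hp h5 g.r fun u hu => ?_
      have h4 := hg (SD.inl _ u) rfl ⟨hu, one_mem _⟩
      rw [hD, (hconj g _ rfl).1] at h4
      exact h4.1
    refine ⟨SD.inl _ g.l, rfl, SD.inr _ g.r, ⟨map_zero _, h3⟩, ?_⟩
    apply SD.ext
    · rw [SD.mul_l, SD.inl_r, SD.rho_one, SD.inl_l, SD.inr_l, add_zero]
    · rw [SD.mul_r, SD.inl_r, SD.inr_r, one_mul]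
  · -- ha
    rw [pow_two]
    apply SD.ext
    · rw [SD.mul_l, SD.one_l]
      change BaseBu p h2 + BaseBrho p (BaseBG.bb p) (BaseBu p h2) = 0
      rw [BaseBu_bb, ← two_nsmul, BaseBU_two]
    · exact BaseBG.bb_mul_bb
  · -- hb
    rw [← map_pow, BaseBG.aa_pow_p, map_one]
  · -- ig
    refine InvGen.symm (ext_invGen (BaseBrho p) (BaseBG.ig hp h5) (BaseBV p) Nat.prime_two
      (BaseBU_two p) ?_ hline0 (BaseBu p h2) ?_)
    · rw [BaseBV_card]
      intro h
      exact h2 (Nat.prime_two.dvd_of_dvd_pow h)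
    · intro U₁ hU h
      exact BaseB_star hp h2 U₁ hU h
  · -- haV
    rw [hV]
    intro h
    have h3 := congrArg BaseBG.e h
    change (-1 : ℤˣ) = 1 at h3
    exact absurd h3 (by decide)
  · -- hD
    intro d hd
    rw [hD] at hd
    obtain ⟨i, hi⟩ := (mem_powers_iff_mem_zpowers (x := BaseBG.aa p)).2 hd.2
    refine ⟨SD.inl _ d.l, rfl, i, ?_⟩
    rw [← map_pow]
    apply SD.ext
    · rw [SD.mul_l, SD.inl_r, SD.rho_one, SD.inl_l, SD.inr_l, add_zero]
    · rw [SD.mul_r, SD.inl_r, SD.inr_r, one_mul]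
      exact hi.symm
  · -- count
    intro v hv hv1
    rw [hV] at hv
    have hvl : v.l ≠ 0 := by
      intro h
      apply hv1
      apply SD.ext
      · exact h
      · exact hv
    obtain ⟨⟨x₀, y₀⟩, hxy⟩ : ∃ z, v.l.1 z ≠ 0 := by
      by_contra hcon
      push Not at hcon
      apply hvl
      apply Subtype.ext
      funext z
      exact hcon z
    choose γ hγ using BaseB_exists hp h2 v.l x₀ y₀ hxy
    have hcardV : Nat.card (SD.toE (BaseBrho p)).ker = Nat.card (BaseBU p) := by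
      refine Nat.card_congr
        { toFun := fun g => g.1.l
          invFun := fun u => ⟨SD.inl _ u, rfl⟩
          left_inv := ?_
          right_inv := fun _ => rfl }
      rintro ⟨g, hg⟩
      apply Subtype.ext
      apply SD.ext
      · rfl
      · exact ((hV g).1 hg).symm
    have hinj : Function.Injective (fun t : BaseBU p × (ℤˣ × ZMod p × ZMod p) =>
        (⟨⟨t.1, BaseBr p x₀ y₀ t.2 (γ t.2)⟩, by
          intro hmem
          have h3 := (hconj (⟨t.1, BaseBr p x₀ y₀ t.2 (γ t.2)⟩ : SD (BaseBrho p))⁻¹ v hv).1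
          rw [inv_inv] at h3
          rw [hD, h3] at hmem
          exact hγ t.2 hmem.1⟩ :
          {g : SD (BaseBrho p) // g⁻¹ * v * g ∉ BaseBD p})) := by
      rintro ⟨u, e, c, β⟩ ⟨u', e', c', β'⟩ h
      have h3 := congrArg Subtype.val h
      have h4 := congrArg SD.l h3
      have h5 := congrArg SD.r h3
      simp only at h4 h5
      have h6 : e = e' := congrArg BaseBG.e h5
      have h7 : c = c' := congrArg BaseBG.c h5
      subst h4 h6 h7
      have h8 := congrArg BaseBG.f1 h5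
      have h9 := congrArg BaseBG.f2 h5
      simp only [BaseBr] at h8 h9
      rw [h9] at h8
      have h10 : β = β' := by linear_combination h8
      rw [h10]
    have hcard := Nat.card_le_card_of_injective _ hinj
    refine lt_of_lt_of_le ?_ hcard
    rw [hcardV, Nat.card_prod, Nat.card_prod, Nat.card_prod, Nat.card_zmod,
      Nat.card_eq_fintype_card (α := ℤˣ), Fintype.card_units_int]
    have hpos : 0 < Nat.card (BaseBU p) := Nat.card_pos
    have h6 : 2 * 2 * p < 2 * (p * p) := by nlinarith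
    nlinarith
  · -- cen
    intro _ v hv hc
    rw [hV] at hv
    have h3 : v.l = 0 := by
      refine hline0 v.l fun w _ => ?_
      have h4 := hc (SD.inr _ w)
      have h5 := (hconj (SD.inr _ w) v hv).1
      rw [h4, SD.inr_r] at h5
      exact h5.symm
    apply SD.ext
    · exact h3
    · exact hv

end Helper76.PQ
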