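import Pool.Agent.Helper76.PQ.Defs

/-!
# The base frame for `p = 3`, `q = 2`: the acting group and the module
-/

set_option autoImplicit false

namespace Helper76.PQ.BaseC

open Helper76.IG

abbrev F := ZMod 3

/-- points -/
abbrev Pt := F × F × F

/-- `Heis(3) : 2` -/
@[ext]
structure HH where
  a : F
  b : F
  c : F
  e : Bool
  deriving DecidableEq, Fintype

namespace HH

/-- product -/
def mul (g h : HH) : HH :=
  match g.e with
  | false => ⟨g.a + h.a, g.b + h.b, g.c + h.c + 2 * (g.a * h.b - h.a * g.b), h.e⟩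
  | true => ⟨g.a + h.b, g.b + h.a, g.c - h.c + 2 * (g.a * h.a - h.b * g.b), !h.e⟩

/-- inverse -/
def inv (g : HH) : HH :=
  match g.e with
  | false => ⟨-g.a, -g.b, -g.c, false⟩
  | true => ⟨-g.b, -g.a, g.c, true⟩

instance : Mul HH := ⟨mul⟩
instance : One HH := ⟨⟨0, 0, 0, false⟩⟩
instance : Inv HH := ⟨inv⟩

theorem mul_false (a b c : F) (h : HH) : (⟨a, b, c, false⟩ : HH) * h =
    ⟨a + h.a, b + h.b, c + h.c + 2 * (a * h.b - h.a * b), h.e⟩ := rfl

theorem mul_true (a b c : F) (h : HH) : (⟨a, b, c, true⟩ : HH) * h =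
    ⟨a + h.b, b + h.a, c - h.c + 2 * (a * h.a - h.b * b), !h.e⟩ := rfl

theorem one_def : (1 : HH) = ⟨0, 0, 0, false⟩ := rfl

instance : Group HH := Group.ofLeftAxioms
  (by
    rintro ⟨a, b, c, (_ | _)⟩ ⟨a', b', c', (_ | _)⟩ ⟨a'', b'', c'', e''⟩
    · simp only [mul_false, mul_true]; ext <;> simp <;> ring
    · simp only [mul_false, mul_true]; ext <;> simp <;> ring
    · simp only [mul_false, mul_true, Bool.not_false]; ext <;> simp <;> ring
    · simp only [mul_false, mul_true, Bool.not_true]; ext <;> simp <;> ring)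
  (by
    rintro ⟨a, b, c, e⟩
    rw [one_def, mul_false]
    ext <;> simp)
  (by
    rintro ⟨a, b, c, (_ | _)⟩
    · change (⟨-a, -b, -c, false⟩ : HH) * _ = _
      rw [mul_false, one_def]; ext <;> simp <;> ring
    · change (⟨-b, -a, c, true⟩ : HH) * _ = _
      rw [mul_true, one_def]; ext <;> simp <;> ring)

/-- action on the points -/
def act (h : HH) (y : Pt) : Pt :=
  match h.e with
  | false => (h.a + y.1, h.b + y.2.1, h.c + y.2.2 + 2 * (h.a * y.2.1 - y.1 * h.b))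
  | true => (h.a + y.2.1, h.b + y.1, h.c - y.2.2 + 2 * (h.a * y.1 - y.2.1 * h.b))

theorem act_false (a b c : F) (y : Pt) : act ⟨a, b, c, false⟩ y =
    (a + y.1, b + y.2.1, c + y.2.2 + 2 * (a * y.2.1 - y.1 * b)) := rfl

theorem act_true (a b c : F) (y : Pt) : act ⟨a, b, c, true⟩ y =
    (a + y.2.1, b + y.1, c - y.2.2 + 2 * (a * y.1 - y.2.1 * b)) := rfl

theorem act_one (y : Pt) : act 1 y = y := by
  rw [one_def, act_false]
  ext <;> simp

theorem act_mul (g h : HH) (y : Pt) : act (g * h) y = act g (act h y) := by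
  rcases g with ⟨a, b, c, (_ | _)⟩ <;> rcases h with ⟨a', b', c', (_ | _)⟩
  · rw [mul_false, act_false, act_false, act_false]; ext <;> simp <;> ring
  · rw [mul_false, act_true, act_true, act_false]; ext <;> simp <;> ring
  · rw [mul_true, Bool.not_false, act_true, act_false, act_true]; ext <;> simp <;> ring
  · rw [mul_true, Bool.not_true, act_false, act_true, act_true]; ext <;> simp <;> ring

end HH

open HH

/-- the permutation module of functions -/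
def rh : HH →* AddMonoid.End (Pt → F) where
  toFun h :=
    { toFun := fun f y => f (act h⁻¹ y)
      map_zero' := rfl
      map_add' := fun _ _ => rfl }
  map_one' := by
    ext f y
    change f (act (1 : HH)⁻¹ y) = f y
    rw [inv_one, act_one]
  map_mul' g h := by
    ext f y
    change f (act (g * h)⁻¹ y) = f (act h⁻¹ (act g⁻¹ y))
    rw [mul_inv_rev, act_mul]

theorem rh_apply (h : HH) (f : Pt → F) (y : Pt) : rh h f y = f (act h⁻¹ y) := rfl

/-- the big group -/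
abbrev W := SD rh

/-- generators of the acting group -/
def xx : HH := ⟨1, 0, 0, false⟩
def yy : HH := ⟨0, 1, 0, false⟩
def ta : HH := ⟨0, 0, 0, true⟩

/-- the cocycle value -/
def kf : Pt → F := fun p => 2 * p.1 ^ 2 * p.2.1 ^ 2 * p.2.2

def t : W := ⟨0, xx⟩
def s : W := ⟨kf, ta⟩

theorem hh_gen : ∀ h : HH, ∃ i j k : Fin 3, ∃ l : Fin 2,
    h = xx ^ (i : ℕ) * (ta * xx * ta) ^ (j : ℕ) *
      (xx * (ta * xx * ta) * xx⁻¹ * (ta * xx * ta)⁻¹) ^ (k : ℕ) * ta ^ (l : ℕ) := by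
  decide +kernel

/-- the cochain of the upper bound -/
def cc (h : HH) (p : Pt) : F :=
  match h, p with
  | ⟨al, be, ga, false⟩, (a, b, c) =>
    b^2*(2*ga+al*be) + a*b*(2*be^2+ga^2+al*be*ga+al^2*be^2) + a^2*(ga+2*be^2*ga) + a*b^2*(2*be)
      + a^2*b*(2*be*ga+al*be^2) + a*b*c*(ga+2*al*be) + a^2*c*be^2 + a^2*b^2*(ga+2*al*be)
      + a^2*b*c*be
  | ⟨al, be, ga, true⟩, (a, b, c) =>
    b^2*(2*ga+al^2*ga) + a*b*(2*al^2+ga^2+2*al*be*ga+al^2*be^2) + a^2*(ga+al*be)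
      + a*b^2*(al*ga+al^2*be) + a^2*b*(2*al) + b^2*c*(2*al^2) + a*b*c*(ga+al*be)
      + a^2*b^2*(2*ga+2*al*be) + a*b^2*c*(2*al) + 2*a^2*b^2*c

/-- the six dimensional space of functions -/
def P6 (u0 u1 u2 u3 u4 u5 : F) (p : Pt) : F :=
  u0 + u1 * p.1 + u2 * p.2.1 + u3 * p.2.2 + u4 * (p.1 * p.2.2 - p.1 ^ 2 * p.2.1)
    + u5 * (p.2.1 * p.2.2 + p.1 * p.2.1 ^ 2)

theorem cc_one : ∀ p, cc 1 p = 0 := by
  rintro ⟨a, b, c⟩
  change b^2*(2*0+0*0) + a*b*(2*0^2+0^2+0*0*0+0^2*0^2) + a^2*(0+2*0^2*0) + a*b^2*(2*0)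
      + a^2*b*(2*0*0+0*0^2) + a*b*c*(0+2*0*0) + a^2*c*0^2 + a^2*b^2*(0+2*0*0)
      + a^2*b*c*0 = (0 : F)
  ring

theorem cc_x_false : ∀ al be ga a b c : F, cc ⟨al, be, ga, false⟩ (act xx⁻¹ (a, b, c)) -
    cc (xx * ⟨al, be, ga, false⟩) (a, b, c) =
    P6 (ga+2*be^2*ga) (ga+2*be^2*ga)
      (2*be^2+2*be*ga+al*be^2+2*ga^2+2*al*be*ga+2*al^2*be^2)
      (be^2) (be^2) (be+2*ga+al*be) (a, b, c) := by
  decide +kernel

theorem cc_x_true : ∀ al be ga a b c : F, cc ⟨al, be, ga, true⟩ (act xx⁻¹ (a, b, c)) -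
    cc (xx * ⟨al, be, ga, true⟩) (a, b, c) =
    P6 (ga+al*be) (ga+al*be) (2+2*ga^2+al*be*ga+2*al^2*be^2) 0 0 (2*ga+2*al*be) (a, b, c) := by
  decide +kernel

theorem cc_ta : ∀ al be ga : F, ∀ e : Bool, ∀ a b c : F,
    kf (a, b, c) + cc ⟨al, be, ga, e⟩ (act ta⁻¹ (a, b, c)) -
    cc (ta * ⟨al, be, ga, e⟩) (a, b, c) = 0 := by
  decide +kernel

theorem P6_count : ∀ u0 u1 u2 u3 u4 u5 : F,
    ¬ (u0 = 0 ∧ u1 = 0 ∧ u2 = 0 ∧ u3 = 0 ∧ u4 = 0 ∧ u5 = 0) →
    7 ≤ (Finset.univ.filter fun p : Pt => P6 u0 u1 u2 u3 u4 u5 p ≠ 0).card := by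
  decide +kernel

end Helper76.PQ.BaseC
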