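import Pool.Agent.Helper76.PQ.BaseC1
import Pool.Agent.Helper76.PQ.BaseC2

/-!
# The base frame for `p = 3`, `q = 2`
-/

set_option autoImplicit false

namespace Helper76.PQ

open Helper76.IG

namespace BaseC

open HH

/-- the group generated by `t` and `s` -/
def E0 : Subgroup W := Subgroup.closure {t, s}

theorem t_mem : t ∈ E0 := Subgroup.subset_closure (Or.inl rfl)
theorem s_mem : s ∈ E0 := Subgroup.subset_closure (Or.inr rfl)

theorem xx_pow : xx ^ 3 = 1 := by decide +kernel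
theorem ta_mul : ta * ta = 1 := by decide +kernel
theorem xx_ne : xx ≠ 1 := by decide +kernel
theorem ta_ne : ta ≠ 1 := by decide +kernel

theorem t_mul_t : t * (t * t) = 1 := by
  apply SD.ext
  · change ((0 : Pt → F) + rh xx ((0 : Pt → F) + rh xx 0)) = 0
    simp
  · change (xx * (xx * xx)) = 1
    decide +kernel

theorem kf_add : ∀ p, kf p + kf (act ta⁻¹ p) = 0 := by decide +kernel

theorem s_mul_s : s * s = 1 := by
  apply SD.ext
  · funext p
    exact kf_add p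
  · exact ta_mul

/-- the upper bound -/
def Good (w : W) : Prop :=
  ∃ u0 u1 u2 u3 u4 u5 : F, ∀ p, w.l p - cc w.r p = P6 u0 u1 u2 u3 u4 u5 p

theorem three_zero : (3 : F) = 0 := by decide

theorem P6_x (u0 u1 u2 u3 u4 u5 : F) (p : Pt) : P6 u0 u1 u2 u3 u4 u5 (act xx⁻¹ p) =
    P6 (u0 - u1) u1 (u2 + u3 + u4) (u3 - u4) u4 u5 p := by
  obtain ⟨a, b, c⟩ := p
  change u0 + u1 * (-1 + a) + u2 * (-0 + b) + u3 * (-0 + c + 2 * (-1 * b - a * -0))
    + u4 * ((-1 + a) * (-0 + c + 2 * (-1 * b - a * -0)) - (-1 + a) ^ 2 * (-0 + b))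
    + u5 * ((-0 + b) * (-0 + c + 2 * (-1 * b - a * -0)) + (-1 + a) * (-0 + b) ^ 2) =
    (u0 - u1) + u1 * a + (u2 + u3 + u4) * b + (u3 - u4) * c + u4 * (a * c - a ^ 2 * b)
    + u5 * (b * c + a * b ^ 2)
  linear_combination (-u3 * b - u5 * b ^ 2) * three_zero

theorem P6_ta (u0 u1 u2 u3 u4 u5 : F) (p : Pt) : P6 u0 u1 u2 u3 u4 u5 (act ta⁻¹ p) =
    P6 u0 u2 u1 (-u3) (-u5) (-u4) p := by
  obtain ⟨a, b, c⟩ := p
  change u0 + u1 * (-0 + b) + u2 * (-0 + a) + u3 * (0 - c + 2 * (-0 * a - b * -0))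
    + u4 * ((-0 + b) * (0 - c + 2 * (-0 * a - b * -0)) - (-0 + b) ^ 2 * (-0 + a))
    + u5 * ((-0 + a) * (0 - c + 2 * (-0 * a - b * -0)) + (-0 + b) * (-0 + a) ^ 2) =
    u0 + u2 * a + u1 * b + (-u3) * c + (-u5) * (a * c - a ^ 2 * b)
    + (-u4) * (b * c + a * b ^ 2)
  ring

theorem P6_add (u0 u1 u2 u3 u4 u5 v0 v1 v2 v3 v4 v5 : F) (p : Pt) :
    P6 u0 u1 u2 u3 u4 u5 p + P6 v0 v1 v2 v3 v4 v5 p =
    P6 (u0 + v0) (u1 + v1) (u2 + v2) (u3 + v3) (u4 + v4) (u5 + v5) p := by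
  unfold P6; ring

theorem good_one : Good 1 := by
  refine ⟨0, 0, 0, 0, 0, 0, fun p => ?_⟩
  change (0 : F) - cc 1 p = _
  rw [cc_one]
  unfold P6; ring

theorem good_t (w : W) (hw : Good w) : Good (t * w) := by
  obtain ⟨u0, u1, u2, u3, u4, u5, hu⟩ := hw
  have key : ∃ v0 v1 v2 v3 v4 v5 : F, ∀ p, cc w.r (act xx⁻¹ p) - cc (xx * w.r) p =
      P6 v0 v1 v2 v3 v4 v5 p := by
    rcases hr : w.r with ⟨al, be, ga, (_ | _)⟩
    · exact ⟨_, _, _, _, _, _, fun p => cc_x_false al be ga p.1 p.2.1 p.2.2⟩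
    · exact ⟨_, _, _, _, _, _, fun p => cc_x_true al be ga p.1 p.2.1 p.2.2⟩
  obtain ⟨v0, v1, v2, v3, v4, v5, hv⟩ := key
  refine ⟨u0 - u1 + v0, u1 + v1, u2 + u3 + u4 + v2, u3 - u4 + v3, u4 + v4, u5 + v5,
    fun p => ?_⟩
  change 0 + w.l (act xx⁻¹ p) - cc (xx * w.r) p = _
  have h1 := hu (act xx⁻¹ p)
  rw [P6_x] at h1
  have h2 := hv p
  have h3 : 0 + w.l (act xx⁻¹ p) - cc (xx * w.r) p = (w.l (act xx⁻¹ p) - cc w.r (act xx⁻¹ p))
    + (cc w.r (act xx⁻¹ p) - cc (xx * w.r) p) := by ring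
  rw [h3, h1, h2, P6_add]

theorem good_s (w : W) (hw : Good w) : Good (s * w) := by
  obtain ⟨u0, u1, u2, u3, u4, u5, hu⟩ := hw
  refine ⟨u0, u2, u1, -u3, -u5, -u4, fun p => ?_⟩
  change kf p + w.l (act ta⁻¹ p) - cc (ta * w.r) p = _
  have h1 := hu (act ta⁻¹ p)
  rw [P6_ta] at h1
  have h2 := cc_ta w.r.a w.r.b w.r.c w.r.e p.1 p.2.1 p.2.2
  change kf p + cc w.r (act ta⁻¹ p) - cc (ta * w.r) p = 0 at h2
  rw [← h1]
  linear_combination h2

theorem t_inv : t⁻¹ = t * t := inv_eq_of_mul_eq_one_right t_mul_t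
theorem s_inv : s⁻¹ = s := inv_eq_of_mul_eq_one_right s_mul_s

theorem good_all (w : W) (hw : w ∈ E0) : Good w := by
  refine Subgroup.closure_induction_left (p := fun w _ => Good w) good_one ?_ ?_ hw
  · rintro x (rfl | hx) y _ hy
    · exact good_t _ hy
    · rw [Set.mem_singleton_iff.1 hx]
      exact good_s _ hy
  · rintro x (rfl | hx) y _ hy
    · rw [t_inv, mul_assoc]
      exact good_t _ (good_t _ hy)
    · rw [Set.mem_singleton_iff.1 hx, s_inv]
      exact good_s _ hy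

/-! ### the functions in the kernel -/

/-- the function `f` belongs to the kernel -/
def InV (f : Pt → F) : Prop := (⟨f, 1⟩ : W) ∈ E0

theorem InV.add {f g : Pt → F} (hf : InV f) (hg : InV g) : InV (f + g) := by
  have := mul_mem hf hg
  have e : (⟨f, 1⟩ : W) * ⟨g, 1⟩ = ⟨f + g, 1⟩ := by
    apply SD.ext
    · change f + rh 1 g = f + g
      rw [map_one]; rfl
    · exact mul_one 1
  rwa [e] at this

theorem InV.neg {f : Pt → F} (hf : InV f) : InV (-f) := by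
  have := inv_mem hf
  have e : (⟨f, 1⟩ : W)⁻¹ = ⟨-f, 1⟩ := by
    apply SD.ext
    · change -rh 1⁻¹ f = -f
      rw [inv_one, map_one]; rfl
    · exact inv_one
  rwa [e] at this

theorem conj_eq (w : W) (f : Pt → F) : w * ⟨f, 1⟩ * w⁻¹ = ⟨rh w.r f, 1⟩ := by
  apply SD.ext
  · change w.l + rh w.r f + rh (w.r * 1) (-rh w.r⁻¹ w.l) = rh w.r f
    rw [mul_one, map_neg, SD.rho_rho_inv]
    abel
  · change w.r * 1 * w.r⁻¹ = 1
    group

theorem InV.conj {f : Pt → F} (hf : InV f) (w : W) (hw : w ∈ E0) : InV (rh w.r f) := by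
  have := mul_mem (mul_mem hw hf) (inv_mem hw)
  rwa [conj_eq] at this

/-- difference operator -/
def Dd (h : HH) (f : Pt → F) : Pt → F := fun p => f (act h⁻¹ p) - f p

theorem InV.dd {f : Pt → F} (hf : InV f) (w : W) (hw : w ∈ E0) : InV (Dd w.r f) := by
  have := (hf.conj w hw).add hf.neg
  have e : rh w.r f + -f = Dd w.r f := by
    funext p
    change f (act w.r⁻¹ p) + -f p = f (act w.r⁻¹ p) - f p
    ring
  rwa [e] at this

def t2 : W := s * t * s
def cm (u v : W) : W := u * v * u⁻¹ * v⁻¹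
def R1 : W := cm t (cm t t2)
def R2 : W := cm t2 (cm t t2)

theorem t2_mem : t2 ∈ E0 := mul_mem (mul_mem s_mem t_mem) s_mem
theorem cm_mem {u v : W} (hu : u ∈ E0) (hv : v ∈ E0) : cm u v ∈ E0 :=
  mul_mem (mul_mem (mul_mem hu hv) (inv_mem hu)) (inv_mem hv)

theorem t2_r : t2.r = yy := by decide +kernel
theorem R1_r : R1.r = 1 := by decide +kernel
theorem R2_r : R2.r = 1 := by decide +kernel

theorem R1_l : ∀ p, R1.l p =
    1 + p.2.1 + p.1 + 2 * p.2.2 + 2 * (p.2.1 * p.2.2) + 2 * (p.1 * p.2.1 ^ 2) := by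
  decide +kernel

theorem R2_l : ∀ p, R2.l p =
    2 * p.2.1 + 2 * p.2.2 + 2 * (p.1 * p.2.2) + p.1 ^ 2 * p.2.1 := by
  decide +kernel

theorem inV_R1 : InV R1.l := by
  have h : R1 ∈ E0 := cm_mem t_mem (cm_mem t_mem t2_mem)
  have e : R1 = ⟨R1.l, 1⟩ := SD.ext rfl R1_r
  unfold InV
  rwa [← e]

theorem inV_R2 : InV R2.l := by
  have h : R2 ∈ E0 := cm_mem t2_mem (cm_mem t_mem t2_mem)
  have e : R2 = ⟨R2.l, 1⟩ := SD.ext rfl R2_r
  unfold InV
  rwa [← e]

theorem dd_x {f : Pt → F} (hf : InV f) : InV (Dd xx f) := hf.dd t t_mem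

theorem dd_y {f : Pt → F} (hf : InV f) : InV (Dd yy f) := by
  have := hf.dd t2 t2_mem
  rwa [t2_r] at this

theorem inV_one : InV fun _ => 1 := by
  have e : Dd yy (Dd xx R1.l) = fun _ => 1 := by
    funext p
    simp only [Dd, R1_l]
    revert p
    decide +kernel
  rw [← e]
  exact dd_y (dd_x inV_R1)

theorem inV_b : InV fun p => p.2.1 := by
  have e : Dd xx (Dd xx R2.l) = fun p => p.2.1 := by
    funext p
    simp only [Dd, R2_l]
    revert p
    decide +kernel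
  rw [← e]
  exact dd_x (dd_x inV_R2)

theorem inV_a : InV fun p => p.1 := by
  have h := dd_y (dd_y inV_R1)
  have e : Dd yy (Dd yy R1.l) + Dd yy (Dd yy R1.l) = fun p => p.1 := by
    funext p
    simp only [Dd, R1_l, Pi.add_apply]
    revert p
    decide +kernel
  rw [← e]
  exact h.add h

theorem inV_c : InV fun p => p.2.2 := by
  have e : Dd xx R2.l + -(fun p : Pt => p.2.1) = fun p => p.2.2 := by
    funext p
    simp only [Dd, R2_l, Pi.add_apply, Pi.neg_apply]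
    revert p
    decide +kernel
  rw [← e]
  exact (dd_x inV_R2).add inV_b.neg

theorem surj (h : HH) : ∃ w ∈ E0, w.r = h := by
  obtain ⟨i, j, k, l, rfl⟩ := hh_gen h
  have h1 : ∀ (w : W) (n : ℕ), (w ^ n).r = w.r ^ n := fun w n => map_pow (SD.toE rh) w n
  refine ⟨t ^ (i : ℕ) * (s * t * s) ^ (j : ℕ) *
      (t * (s * t * s) * t⁻¹ * (s * t * s)⁻¹) ^ (k : ℕ) * s ^ (l : ℕ), ?_, ?_⟩
  · have h2 := t_mem
    have h3 := s_mem
    exact mul_mem (mul_mem (mul_mem (pow_mem h2 _) (pow_mem (mul_mem (mul_mem h3 h2) h3) _))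
      (pow_mem (mul_mem (mul_mem (mul_mem h2 (mul_mem (mul_mem h3 h2) h3)) (inv_mem h2))
        (inv_mem (mul_mem (mul_mem h3 h2) h3))) _)) (pow_mem h3 _)
  · rw [SD.mul_r, SD.mul_r, SD.mul_r, h1, h1, h1, h1]
    rfl

/-! ### the frame -/

/-- the projection to `HH` -/
def pr : ↥E0 →* HH := (SD.toE rh).comp E0.subtype

theorem pr_apply (w : ↥E0) : pr w = w.1.r := rfl

/-- the module -/
def VV : Subgroup ↥E0 := pr.ker

theorem mem_VV {w : ↥E0} : w ∈ VV ↔ w.1.r = 1 := MonoidHom.mem_ker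

instance : VV.Normal := inferInstanceAs pr.ker.Normal

theorem act_ta_zero : act ta 0 = 0 := by decide +kernel

theorem act_zero {h : HH} (hh : h = 1 ∨ h = ta) : act h 0 = 0 := by
  rcases hh with rfl | rfl
  · exact act_one 0
  · exact act_ta_zero

theorem ta_inv : ta⁻¹ = ta := by decide +kernel

theorem inv_or {h : HH} (hh : h = 1 ∨ h = ta) : h⁻¹ = 1 ∨ h⁻¹ = ta := by
  rcases hh with rfl | rfl
  · exact Or.inl inv_one
  · exact Or.inr ta_inv

theorem act_or : ∀ h : HH, act h 0 = 0 → h = 1 ∨ h = ta := by decide +kernel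

/-- the subgroup `D` -/
def DD : Subgroup ↥E0 where
  carrier := {w | w.1.l 0 = 0 ∧ (w.1.r = 1 ∨ w.1.r = ta)}
  one_mem' := ⟨rfl, Or.inl rfl⟩
  mul_mem' := by
    rintro x y ⟨h1, h2⟩ ⟨h3, h4⟩
    refine ⟨?_, ?_⟩
    · change x.1.l 0 + y.1.l (act x.1.r⁻¹ 0) = 0
      rw [act_zero (inv_or h2), h1, h3, add_zero]
    · change x.1.r * y.1.r = 1 ∨ x.1.r * y.1.r = ta
      rcases h2 with h2 | h2 <;> rcases h4 with h4 | h4 <;> rw [h2, h4]
      · exact Or.inl (mul_one 1)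
      · exact Or.inr (one_mul _)
      · exact Or.inr (mul_one _)
      · exact Or.inl ta_mul
  inv_mem' := by
    rintro x ⟨h1, h2⟩
    refine ⟨?_, ?_⟩
    · change -(x.1.l (act (x.1.r⁻¹)⁻¹ 0)) = 0
      rw [act_zero (inv_or (inv_or h2)), h1, neg_zero]
    · exact inv_or h2

theorem mem_DD {w : ↥E0} : w ∈ DD ↔ w.1.l 0 = 0 ∧ (w.1.r = 1 ∨ w.1.r = ta) := Iff.rfl

theorem eq_of_mem_VV {w : ↥E0} (hw : w ∈ VV) : w.1 = ⟨w.1.l, 1⟩ := SD.ext rfl (mem_VV.1 hw)

theorem conj_l {v g : ↥E0} (hv : v ∈ VV) (p : Pt) :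
    (g * v * g⁻¹).1.l p = v.1.l (act g.1.r⁻¹ p) := by
  have h := conj_eq g.1 v.1.l
  rw [← eq_of_mem_VV hv] at h
  have h2 : (g * v * g⁻¹).1 = g.1 * v.1 * g.1⁻¹ := rfl
  rw [h2, h]
  rfl

theorem conj_l' {v g : ↥E0} (hv : v ∈ VV) (p : Pt) :
    (g⁻¹ * v * g).1.l p = v.1.l (act g.1.r p) := by
  have h := conj_l (v := v) (g := g⁻¹) hv p
  rw [inv_inv] at h
  rw [h]
  change v.1.l (act (g.1.r⁻¹)⁻¹ p) = _
  rw [inv_inv]

theorem VV_comm {v w : ↥E0} (hv : v ∈ VV) (hw : w ∈ VV) : v * w = w * v := by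
  apply Subtype.ext
  change v.1 * w.1 = w.1 * v.1
  apply SD.ext
  · change v.1.l + rh v.1.r w.1.l = w.1.l + rh w.1.r v.1.l
    rw [mem_VV.1 hv, mem_VV.1 hw, SD.rho_one, SD.rho_one, add_comm]
  · change v.1.r * w.1.r = w.1.r * v.1.r
    rw [mem_VV.1 hv, mem_VV.1 hw]

theorem pow_three (w : W) (hw : w.r = 1) : w ^ 3 = 1 := by
  rw [pow_succ, pow_succ, pow_one]
  apply SD.ext
  · change w.l + rh w.r w.l + rh (w.r * w.r) w.l = 0
    rw [hw, mul_one, SD.rho_one]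
    funext p
    change w.l p + w.l p + w.l p = 0
    linear_combination w.l p * three_zero
  · change w.r * w.r * w.r = 1
    rw [hw]; rfl

/-! ### the subgroup of index two -/

/-- the sign -/
def sg : HH →* Multiplicative (ZMod 2) where
  toFun h := Multiplicative.ofAdd (if h.e then 1 else 0)
  map_one' := rfl
  map_mul' := by
    rintro ⟨a, b, c, (_ | _)⟩ ⟨a', b', c', (_ | _)⟩
    · rfl
    · rfl
    · rfl
    · change Multiplicative.ofAdd (0 : ZMod 2) =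
        Multiplicative.ofAdd (1 : ZMod 2) * Multiplicative.ofAdd (1 : ZMod 2)
      decide

theorem sg_ker : ∀ h : HH, sg h = 1 → h ^ 3 = 1 := by decide +kernel

def PP : Subgroup ↥E0 := (sg.comp pr).ker

instance : PP.Normal := inferInstanceAs (sg.comp pr).ker.Normal

instance : Finite W := by
  have : Finite HH := inferInstance
  have : Finite (Pt → F) := inferInstance
  infer_instance

theorem PP_nil : Group.IsNilpotent PP := by
  have : Fact (Nat.Prime 3) := ⟨Nat.prime_three⟩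
  have h : IsPGroup 3 PP := by
    intro w
    refine ⟨2, ?_⟩
    apply Subtype.ext
    apply Subtype.ext
    have h1 : w.1.1.r ^ 3 = 1 := sg_ker _ (MonoidHom.mem_ker.1 w.2)
    change w.1.1 ^ (3 ^ 2) = 1
    rw [pow_two, pow_mul]
    apply pow_three
    exact (map_pow (SD.toE rh) w.1.1 3).trans h1
  exact h.isNilpotent

/-- the generators as elements of the group -/
def aa : ↥E0 := ⟨t, t_mem⟩
def bb : ↥E0 := ⟨s, s_mem⟩

theorem cl : Subgroup.closure {aa, bb} = ⊤ := by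
  have h : ((fun x : ↥E0 => (x : W)) ⁻¹' {t, s}) = {aa, bb} := by
    ext x
    simp only [Set.mem_preimage, Set.mem_insert_iff, Set.mem_singleton_iff, aa, bb,
      Subtype.ext_iff]
  have h2 := Subgroup.closure_closure_coe_preimage (k := ({t, s} : Set W))
  rw [← h]
  exact h2

theorem ig : InvGen aa bb := by
  have := PP_nil
  refine invGen_of_index_two PP aa bb ?_ ?_ ?_ cl
  · exact MonoidHom.mem_ker.2 rfl
  · intro h
    have h1 : sg ta = 1 := MonoidHom.mem_ker.1 h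
    revert h1
    decide +kernel
  · exact Subtype.ext s_mul_s

theorem solv : Group.IsSolvable ↥E0 := by
  have := PP_nil
  have h : Group.IsSolvable (sg.comp pr).ker := by
    have : Group.IsNilpotent (sg.comp pr).ker := PP_nil
    infer_instance
  exact Group.isSolvable_of_ker_le_range (sg.comp pr).ker.subtype (sg.comp pr) (by simp)

/-! ### counting -/

theorem l_eq {v : ↥E0} (hv : v ∈ VV) : ∃ u0 u1 u2 u3 u4 u5 : F, ∀ p,
    v.1.l p = P6 u0 u1 u2 u3 u4 u5 p := by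
  obtain ⟨u0, u1, u2, u3, u4, u5, h⟩ := good_all v.1 v.2
  refine ⟨u0, u1, u2, u3, u4, u5, fun p => ?_⟩
  have h1 := h p
  rwa [mem_VV.1 hv, cc_one, sub_zero] at h1

theorem seven {v : ↥E0} (hv : v ∈ VV) (h1 : v ≠ 1) :
    7 ≤ Nat.card {p : Pt // v.1.l p ≠ 0} := by
  obtain ⟨u0, u1, u2, u3, u4, u5, h⟩ := l_eq hv
  have h2 := P6_count u0 u1 u2 u3 u4 u5 (by
    rintro ⟨rfl, rfl, rfl, rfl, rfl, rfl⟩
    apply h1
    apply Subtype.ext
    rw [eq_of_mem_VV hv]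
    apply SD.ext
    · funext p
      change v.1.l p = 0
      rw [h p]
      unfold P6; ring
    · rfl)
  have h3 : Nat.card {p : Pt // v.1.l p ≠ 0} =
      (Finset.univ.filter fun p : Pt => P6 u0 u1 u2 u3 u4 u5 p ≠ 0).card := by
    rw [Nat.card_eq_fintype_card, Fintype.card_subtype]
    congr 1
    ext p
    simp only [h]
  rw [h3]
  exact h2

theorem sec_exists : ∃ f : HH → ↥E0, ∀ h, (f h).1.r = h := by
  have : ∀ h : HH, ∃ w : ↥E0, w.1.r = h := fun h => by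
    obtain ⟨w, hw, e⟩ := surj h
    exact ⟨⟨w, hw⟩, e⟩
  exact ⟨fun h => (this h).choose, fun h => (this h).choose_spec⟩

theorem act_pt : ∀ (p : Pt) (e : Bool), act ⟨p.1, p.2.1, p.2.2, e⟩ 0 = p := by decide +kernel

theorem count {v : ↥E0} (hv : v ∈ VV) (h1 : v ≠ 1) :
    2 * 3 * 2 * Nat.card VV < Nat.card {g : ↥E0 // g⁻¹ * v * g ∉ DD} := by
  obtain ⟨f, hf⟩ := sec_exists
  have h7 := seven hv h1
  have hpos : 0 < Nat.card VV := Nat.card_pos
  let F1 : VV × {p : Pt // v.1.l p ≠ 0} × Bool → {g : ↥E0 // g⁻¹ * v * g ∉ DD} := fun x =>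
    ⟨x.1.1 * f ⟨x.2.1.1.1, x.2.1.1.2.1, x.2.1.1.2.2, x.2.2⟩, by
      intro h
      have h2 := (mem_DD.1 h).1
      rw [conj_l' hv] at h2
      have h3 : (x.1.1 * f ⟨x.2.1.1.1, x.2.1.1.2.1, x.2.1.1.2.2, x.2.2⟩).1.r =
          ⟨x.2.1.1.1, x.2.1.1.2.1, x.2.1.1.2.2, x.2.2⟩ := by
        change x.1.1.1.r * (f _).1.r = _
        rw [mem_VV.1 x.1.2, hf, one_mul]
      rw [h3, act_pt] at h2
      exact x.2.1.2 h2⟩
  have hF : Function.Injective F1 := by
    rintro ⟨u, p, e⟩ ⟨u', p', e'⟩ h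
    have h2 : u.1 * f ⟨p.1.1, p.1.2.1, p.1.2.2, e⟩ = u'.1 * f ⟨p'.1.1, p'.1.2.1, p'.1.2.2, e'⟩ :=
      congrArg Subtype.val h
    have h3 : (⟨p.1.1, p.1.2.1, p.1.2.2, e⟩ : HH) = ⟨p'.1.1, p'.1.2.1, p'.1.2.2, e'⟩ := by
      have h4 := congrArg (fun w : ↥E0 => w.1.r) h2
      change u.1.1.r * (f _).1.r = u'.1.1.r * (f _).1.r at h4
      rwa [mem_VV.1 u.2, mem_VV.1 u'.2, hf, hf, one_mul, one_mul] at h4
    rw [h3] at h2
    have h5 : u = u' := Subtype.ext (mul_right_cancel h2)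
    simp only [HH.mk.injEq] at h3
    obtain ⟨e1, e2, e3, e4⟩ := h3
    have h6 : p = p' := by
      apply Subtype.ext
      exact Prod.ext e1 (Prod.ext e2 e3)
    rw [h5, h6, e4]
  have h8 := Nat.card_le_card_of_injective F1 hF
  rw [Nat.card_prod, Nat.card_prod] at h8
  have h9 : Nat.card Bool = 2 := by simp
  rw [h9] at h8
  have h10 : Nat.card VV * (7 * 2) ≤ Nat.card VV * (Nat.card {p : Pt // v.1.l p ≠ 0} * 2) :=
    Nat.mul_le_mul_left _ (Nat.mul_le_mul_right _ h7)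
  omega

theorem frame : Frame 3 2 ↥E0 VV DD aa bb where
  norm := inferInstance
  comm v hv w hw := VV_comm hv hw
  expo v hv := Subtype.ext (pow_three v.1 (mem_VV.1 hv))
  hbD := ⟨by decide +kernel, Or.inr rfl⟩
  triv := by
    intro v hv
    refine ⟨?_, Or.inl ?_⟩
    · have h1 : (bb * v * bb⁻¹ * v⁻¹).1.l 0 = (bb * v * bb⁻¹).1.l 0 +
          -(v.1.l (act (v.1.r⁻¹)⁻¹ (act (bb * v * bb⁻¹).1.r⁻¹ 0))) := rfl
      have h2 : (bb * v * bb⁻¹).1.r = 1 := by
        have := (inferInstance : VV.Normal).conj_mem v hv bb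
        exact mem_VV.1 this
      rw [h1, h2, conj_l hv, mem_VV.1 hv, inv_one, inv_one, act_one, act_one]
      have h3 : act bb.1.r⁻¹ 0 = 0 := by decide +kernel
      rw [h3]
      ring
    · have := (inferInstance : VV.Normal).conj_mem v hv bb
      exact mem_VV.1 (mul_mem this (inv_mem hv))
  cyc := by
    refine ⟨⟨⟨fun _ => 1, 1⟩, inV_one⟩, mem_VV.2 rfl, ?_, ?_⟩
    · rintro ⟨h, _⟩
      exact one_ne_zero (h : (1 : F) = 0)
    · intro v hv
      refine ⟨(-(v.1.l 0)).val, ?_⟩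
      have hp : ∀ n : ℕ, ((⟨⟨fun _ => 1, 1⟩, inV_one⟩ : ↥E0) ^ n).1 =
          ⟨fun _ => (n : F), 1⟩ := by
        intro n
        induction n with
        | zero =>
          rw [pow_zero]
          apply SD.ext
          · funext p
            change (0 : F) = ((0 : ℕ) : F)
            simp
          · rfl
        | succ n ih =>
          rw [pow_succ]
          change ((⟨⟨fun _ => 1, 1⟩, inV_one⟩ : ↥E0) ^ n).1 * (⟨fun _ => 1, 1⟩ : W) = _
          rw [ih]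
          apply SD.ext
          · funext p
            change (n : F) + 1 = ((n + 1 : ℕ) : F)
            push_cast
            ring
          · exact mul_one 1
      refine ⟨?_, Or.inl ?_⟩
      · change v.1.l 0 + (((⟨⟨fun _ => 1, 1⟩, inV_one⟩ : ↥E0) ^ _).1).l (act v.1.r⁻¹ 0) = 0
        rw [hp]
        change v.1.l 0 + (((-(v.1.l 0)).val : ℕ) : F) = 0
        rw [ZMod.natCast_zmod_val]
        ring
      · change v.1.r * ((⟨⟨fun _ => 1, 1⟩, inV_one⟩ : ↥E0) ^ _).1.r = 1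
        rw [hp, mem_VV.1 hv]
        exact mul_one 1
  dist := by
    intro g hg
    have key : ∀ f : Pt → F, InV f → f 0 = 0 → f (act g.1.r⁻¹ 0) = 0 := by
      intro f hf hf0
      have hk : (⟨⟨f, 1⟩, hf⟩ : ↥E0) ∈ VV := mem_VV.2 rfl
      have h1 := hg ⟨⟨f, 1⟩, hf⟩ hk ⟨hf0, Or.inl rfl⟩
      have h2 := (mem_DD.1 h1).1
      rwa [conj_l hk] at h2
    have h0 : act g.1.r⁻¹ 0 = 0 :=
      Prod.ext (key _ inV_a rfl) (Prod.ext (key _ inV_b rfl) (key _ inV_c rfl))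
    rcases inv_or (act_or _ h0) with h | h
    · rw [inv_inv] at h
      exact ⟨g, mem_VV.2 h, 1, one_mem _, (mul_one g).symm⟩
    · rw [inv_inv] at h
      refine ⟨g * bb⁻¹, ?_, bb, ⟨by decide +kernel, Or.inr rfl⟩, by group⟩
      rw [mem_VV]
      change g.1.r * ta⁻¹ = 1
      rw [h, mul_inv_cancel]
  ha := Subtype.ext (by
    change t ^ 3 = 1
    rw [pow_succ', pow_two]
    exact t_mul_t)
  hb := Subtype.ext (by
    change s ^ 2 = 1
    rw [pow_two]
    exact s_mul_s)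
  ig := ig
  haV := fun h => xx_ne (mem_VV.1 h)
  hD := by
    rintro d ⟨h1, h2 | h2⟩
    · exact ⟨d, mem_VV.2 h2, 0, by rw [pow_zero, mul_one]⟩
    · refine ⟨d * bb⁻¹, ?_, 1, by rw [pow_one]; group⟩
      rw [mem_VV]
      change d.1.r * ta⁻¹ = 1
      rw [h2, mul_inv_cancel]
  count v hv h1 := count hv h1
  cen h := absurd h (by norm_num)

end BaseC

theorem baseC :
    ∃ (E : Type) (_ : Group E) (_ : Finite E) (V D : Subgroup E) (a b : E),
      Group.IsSolvable E ∧ Frame 3 2 E V D a b :=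
  ⟨↥BaseC.E0, inferInstance, inferInstance, BaseC.VV, BaseC.DD, BaseC.aa, BaseC.bb,
    BaseC.solv, BaseC.frame⟩

end Helper76.PQ
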