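import Pool.Agent.Helper76.PQ.Defs

/-!
# Invariable generation for groups with a nilpotent subgroup of index two
-/

set_option autoImplicit false

namespace Helper76.PQ.BaseC

open Helper76.IG
open scoped commutatorElement

/-- in a finite nilpotent group a supplement of the commutator subgroup is everything -/
theorem eq_top_of_sup_commutator {P : Type} [Group P] [Finite P] [Group.IsNilpotent P]
    (K : Subgroup P) (h : K ⊔ commutator P = ⊤) : K = ⊤ := by
  by_contra hK
  obtain ⟨M, hM, hKM⟩ := (eq_top_or_exists_le_coatom K).resolve_left hK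
  have hn : M.Normal :=
    Subgroup.NormalizerCondition.normal_of_coatom M Group.normalizerCondition_of_isNilpotent hM
  have hnt : Nontrivial (P ⧸ M) := by
    rw [QuotientGroup.nontrivial_iff]
    exact hM.1
  have hs : IsSimpleGroup (P ⧸ M) := by
    refine ⟨fun L _ => ?_⟩
    have hle : M ≤ L.comap (QuotientGroup.mk' M) := by
      intro x hx
      rw [Subgroup.mem_comap, QuotientGroup.mk'_apply, (QuotientGroup.eq_one_iff x).2 hx]
      exact one_mem _
    rcases hM.le_iff.1 hle with h1 | h1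
    · right
      rw [eq_top_iff]
      intro x _
      obtain ⟨x, rfl⟩ := QuotientGroup.mk'_surjective M x
      have : x ∈ L.comap (QuotientGroup.mk' M) := by rw [h1]; trivial
      exact this
    · left
      rw [eq_bot_iff]
      intro x hx
      obtain ⟨x, rfl⟩ := QuotientGroup.mk'_surjective M x
      have : x ∈ L.comap (QuotientGroup.mk' M) := hx
      rw [h1] at this
      rw [Subgroup.mem_bot, QuotientGroup.mk'_apply, QuotientGroup.eq_one_iff]
      exact this
  have hc : ∀ a b : P ⧸ M, a * b = b * a := by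
    have : Group.IsSolvable (P ⧸ M) := inferInstance
    exact IsSimpleGroup.comm_iff_isSolvable.2 this
  have h2 : commutator P ≤ M := by
    rw [commutator_eq_closure, Subgroup.closure_le]
    rintro _ ⟨a, b, rfl⟩
    have : ((⁅a, b⁆ : P) : P ⧸ M) = 1 := by
      rw [commutatorElement_def, QuotientGroup.mk_mul, QuotientGroup.mk_mul, QuotientGroup.mk_mul,
        hc a b, QuotientGroup.mk_inv, QuotientGroup.mk_inv]
      group
    exact (QuotientGroup.eq_one_iff _).1 this
  exact hM.1 (top_le_iff.1 (h ▸ sup_le hKM h2))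

theorem invGen_of_index_two {E : Type} [Group E] [Finite E] (P : Subgroup E) [P.Normal]
    [Group.IsNilpotent P] (t s : E) (ht : t ∈ P) (hs : s ∉ P) (hss : s * s = 1)
    (hcl : Subgroup.closure {t, s} = ⊤) : InvGen t s := by
  have hsi : s⁻¹ = s := inv_eq_of_mul_eq_one_left hss
  have hnP : P.Normal := inferInstance
  have ht2 : s * t * s ∈ P := by
    have := hnP.conj_mem t ht s
    rwa [hsi] at this
  -- the subgroup generated by `t` and `s t s`
  set Q : Subgroup E := Subgroup.closure {t, s * t * s} with hQ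
  have hQP : Q ≤ P := by
    rw [hQ, Subgroup.closure_le]
    rintro x (rfl | hx)
    · exact ht
    · rw [Set.mem_singleton_iff.1 hx]
      exact ht2
  have hQs : ∀ x ∈ Q, s * x * s ∈ Q := by
    intro x hx
    refine Subgroup.closure_induction (p := fun x _ => s * x * s ∈ Q) ?_ ?_ ?_ ?_ hx
    · rintro x (rfl | hx)
      · exact Subgroup.subset_closure (Or.inr rfl)
      · rw [Set.mem_singleton_iff.1 hx]
        have : s * (s * t * s) * s = t := by
          rw [← mul_assoc, ← mul_assoc, hss, one_mul, mul_assoc, hss, mul_one]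
        rw [this]
        exact Subgroup.subset_closure (Or.inl rfl)
    · rw [mul_one, hss]
      exact one_mem _
    · intro x y _ _ h1 h2
      have : s * (x * y) * s = (s * x * s) * (s * y * s) := by
        calc s * (x * y) * s = s * x * (s * s) * y * s := by rw [hss]; group
          _ = _ := by group
      rw [this]
      exact mul_mem h1 h2
    · intro x _ h1
      have : s * x⁻¹ * s = (s * x * s)⁻¹ := by
        rw [mul_inv_rev, mul_inv_rev, hsi, mul_assoc]
      rw [this]
      exact inv_mem h1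
  have hE : ∀ x : E, x ∈ Q ∨ ∃ q ∈ Q, x = s * q := by
    intro x
    have hx : x ∈ Subgroup.closure {t, s} := by rw [hcl]; trivial
    refine Subgroup.closure_induction (p := fun x _ => x ∈ Q ∨ ∃ q ∈ Q, x = s * q)
      ?_ ?_ ?_ ?_ hx
    · rintro x (rfl | hx)
      · exact Or.inl (Subgroup.subset_closure (Or.inl rfl))
      · rw [Set.mem_singleton_iff.1 hx]
        exact Or.inr ⟨1, one_mem _, by rw [mul_one]⟩
    · exact Or.inl (one_mem _)
    · rintro x y _ _ (h1 | ⟨q, hq, rfl⟩) (h2 | ⟨q', hq', rfl⟩)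
      · exact Or.inl (mul_mem h1 h2)
      · refine Or.inr ⟨s * x * s * q', mul_mem (hQs x h1) hq', ?_⟩
        calc x * (s * q') = (s * s) * x * s * q' := by rw [hss]; group
          _ = _ := by group
      · exact Or.inr ⟨q * y, mul_mem hq h2, by group⟩
      · refine Or.inl ?_
        have : s * q * (s * q') = s * q * s * q' := by group
        rw [this]
        exact mul_mem (hQs q hq) hq'
    · rintro x _ (h1 | ⟨q, hq, rfl⟩)
      · exact Or.inl (inv_mem h1)
      · refine Or.inr ⟨s * q⁻¹ * s, hQs _ (inv_mem hq), ?_⟩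
        rw [mul_inv_rev, hsi]
        calc q⁻¹ * s = (s * s) * q⁻¹ * s := by rw [hss]; group
          _ = _ := by group
  have hPQ : P = Q := by
    refine le_antisymm (fun x hx => ?_) hQP
    rcases hE x with h | ⟨q, hq, rfl⟩
    · exact h
    · exact absurd (by simpa using mul_mem hx (inv_mem (hQP hq))) hs
  have hEP : ∀ x : E, x ∈ P ∨ ∃ q ∈ P, x = s * q := by
    rw [hPQ]; exact hE
  intro g h
  set M : Subgroup E := Subgroup.closure {g⁻¹ * t * g, h⁻¹ * s * h} with hM
  have hu : g⁻¹ * t * g ∈ M := Subgroup.subset_closure (Or.inl rfl)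
  have hv : h⁻¹ * s * h ∈ M := Subgroup.subset_closure (Or.inr rfl)
  -- conjugates by elements of `P`
  obtain ⟨p, hp, hvp⟩ : ∃ p ∈ P, p⁻¹ * s * p ∈ M := by
    rcases hEP h with h1 | ⟨q, hq, rfl⟩
    · exact ⟨h, h1, hv⟩
    · refine ⟨q, hq, ?_⟩
      have : (s * q)⁻¹ * s * (s * q) = q⁻¹ * s * q := by
        rw [mul_inv_rev, hsi]
        calc q⁻¹ * s * s * (s * q) = q⁻¹ * (s * s) * s * q := by group
          _ = _ := by rw [hss]; group
      rwa [this] at hv
  have key : ∀ r : E, (r ∈ P) → r⁻¹ * t * r ∈ M → ∃ r' ∈ P, r'⁻¹ * (s * t * s) * r' ∈ M := by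
    intro r hr hrM
    refine ⟨(s * p * r⁻¹ * s)⁻¹ * p, ?_, ?_⟩
    · refine mul_mem (inv_mem ?_) hp
      have h3 : s * (p * r⁻¹) * s⁻¹ ∈ P := hnP.conj_mem _ (mul_mem hp (inv_mem hr)) s
      rw [hsi] at h3
      have : s * p * r⁻¹ * s = s * (p * r⁻¹) * s := by group
      rwa [this]
    · have h4 : (p⁻¹ * s * p) * (r⁻¹ * t * r) * (p⁻¹ * s * p)⁻¹ ∈ M :=
        mul_mem (mul_mem hvp hrM) (inv_mem hvp)
      have : ((s * p * r⁻¹ * s)⁻¹ * p)⁻¹ * (s * t * s) * ((s * p * r⁻¹ * s)⁻¹ * p) =
          (p⁻¹ * s * p) * (r⁻¹ * t * r) * (p⁻¹ * s * p)⁻¹ := by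
        simp only [mul_inv_rev, hsi, inv_inv]
        calc p⁻¹ * (s * p * r⁻¹ * s) * (s * t * s) * (s * (r * (p⁻¹ * s)) * p)
            = p⁻¹ * s * p * r⁻¹ * (s * s) * t * (s * s) * r * p⁻¹ * s * p := by group
          _ = p⁻¹ * s * p * (r⁻¹ * t * r) * (p⁻¹ * (s * p)) := by rw [hss]; group
      rw [this]
      exact h4
  have key' : ∀ r : E, (r ∈ P) → r⁻¹ * (s * t * s) * r ∈ M → ∃ r' ∈ P, r'⁻¹ * t * r' ∈ M := by
    intro r hr hrM
    refine ⟨(s * p * r⁻¹ * s)⁻¹ * p, ?_, ?_⟩
    · refine mul_mem (inv_mem ?_) hp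
      have h3 : s * (p * r⁻¹) * s⁻¹ ∈ P := hnP.conj_mem _ (mul_mem hp (inv_mem hr)) s
      rw [hsi] at h3
      have : s * p * r⁻¹ * s = s * (p * r⁻¹) * s := by group
      rwa [this]
    · have h4 : (p⁻¹ * s * p) * (r⁻¹ * (s * t * s) * r) * (p⁻¹ * s * p)⁻¹ ∈ M :=
        mul_mem (mul_mem hvp hrM) (inv_mem hvp)
      have : ((s * p * r⁻¹ * s)⁻¹ * p)⁻¹ * t * ((s * p * r⁻¹ * s)⁻¹ * p) =
          (p⁻¹ * s * p) * (r⁻¹ * (s * t * s) * r) * (p⁻¹ * s * p)⁻¹ := by
        simp only [mul_inv_rev, hsi, inv_inv]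
        group
      rw [this]
      exact h4
  obtain ⟨r, hr, r', hr', hrM, hrM'⟩ :
      ∃ r ∈ P, ∃ r' ∈ P, r⁻¹ * t * r ∈ M ∧ r'⁻¹ * (s * t * s) * r' ∈ M := by
    rcases hEP g with h1 | ⟨q, hq, rfl⟩
    · obtain ⟨r', hr', h2⟩ := key g h1 hu
      exact ⟨g, h1, r', hr', hu, h2⟩
    · have h3 : (s * q)⁻¹ * t * (s * q) = q⁻¹ * (s * t * s) * q := by
        rw [mul_inv_rev, hsi]; group
      rw [h3] at hu
      obtain ⟨r, hr, h2⟩ := key' q hq hu
      exact ⟨r, hr, q, hq, h2, hu⟩
  -- the intersection with `P`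
  have hK : M.subgroupOf P = ⊤ := by
    apply eq_top_of_sup_commutator
    rw [eq_top_iff]
    intro x _
    have hmem : ∀ w : P, ∀ c : P, (c⁻¹ * w * c) ∈ M.subgroupOf P →
        w ∈ M.subgroupOf P ⊔ commutator P := by
      intro w c hc
      have h5 : w = ⁅w, c⁻¹⁆ * (c⁻¹ * w * c) := by
        rw [commutatorElement_def]; group
      rw [h5]
      refine mul_mem ?_ (Subgroup.mem_sup_left ?_)
      · exact Subgroup.mem_sup_right (Subgroup.commutator_mem_commutator (Subgroup.mem_top _) (Subgroup.mem_top _))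
      · exact hc
    have hxQ : (x : E) ∈ Q := hPQ ▸ x.2
    have : ∀ y : E, ∀ hy : y ∈ Q, ∀ hyP : y ∈ P,
        (⟨y, hyP⟩ : P) ∈ M.subgroupOf P ⊔ commutator P := by
      intro y hy
      refine Subgroup.closure_induction (p := fun y _ => ∀ hyP : y ∈ P,
        (⟨y, hyP⟩ : P) ∈ M.subgroupOf P ⊔ commutator P) ?_ ?_ ?_ ?_ hy
      · rintro y (rfl | hy) hyP
        · exact hmem _ ⟨r, hr⟩ hrM
        · rw [Set.mem_singleton_iff] at hy
          subst hy
          exact hmem _ ⟨r', hr'⟩ hrM'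
      · intro _
        exact one_mem _
      · intro y z hy hz h1 h2 hyz
        have := mul_mem (h1 (hQP hy)) (h2 (hQP hz))
        exact this
      · intro y hy h1 hyi
        have := inv_mem (h1 (hQP hy))
        exact this
    exact this x hxQ x.2
  have hPM : P ≤ M := Subgroup.subgroupOf_eq_top.1 hK
  have hsM : s ∈ M := by
    have := mul_mem (mul_mem (hPM hp) hvp) (inv_mem (hPM hp))
    have e : p * (p⁻¹ * s * p) * p⁻¹ = s := by group
    rwa [e] at this
  rw [eq_top_iff, ← hcl, Subgroup.closure_le]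
  rintro x (rfl | hx)
  · exact hPM ht
  · rw [Set.mem_singleton_iff.1 hx]
    exact hsM

end Helper76.PQ.BaseC
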