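import Pool.Agent.Helper76.PQ.Defs

set_option autoImplicit false

namespace Helper76.PQ

open Helper76.IG

/-- the order of `V` is invertible modulo `q` -/
theorem Count_card {p q : ℕ} (hp : p.Prime) (hq : q.Prime) (hpq : p ≠ q) {E : Type} [Group E]
    [Finite E] (W : Subgroup E) (hW : ∀ v ∈ W, v ^ p = 1) : ((Nat.card W : ℕ) : ZMod q) ≠ 0 := by
  have : Fact p.Prime := ⟨hp⟩
  have : Fact q.Prime := ⟨hq⟩
  have h1 : IsPGroup p W := by
    intro w
    refine ⟨1, ?_⟩
    apply Subtype.ext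
    rw [pow_one]
    exact hW w w.2
  obtain ⟨n, hn⟩ := IsPGroup.iff_card.mp h1
  rw [hn]
  intro h
  rw [ZMod.natCast_eq_zero_iff] at h
  have h2 := hq.dvd_of_dvd_pow h
  exact hpq ((Nat.prime_dvd_prime_iff_eq hq hp).mp h2).symm

/-- two different fibres -/
theorem Count_prod {p : ℕ} (hp : p.Prime) {E : Type} [Group E] {V D : Subgroup E} {b : E}
    (hF : Pre p E V D b) (y y' : E ⧸ D) (hy : ∀ v ∈ V, y' ≠ v • y) (v : E) (hv : v ∈ V) :
    ∃ l ∈ V, l • y' = y' ∧ ∃ s ∈ V, s • y = y ∧ v = l * s := by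
  have : Fact p.Prime := ⟨hp⟩
  induction y using QuotientGroup.induction_on with | _ g =>
  induction y' using QuotientGroup.induction_on with | _ g' =>
  have hst : ∀ (h w : E), w • (h : E ⧸ D) = (h : E ⧸ D) ↔ h⁻¹ * w * h ∈ D := by
    intro h w
    have h1 : w • (h : E ⧸ D) = ((w * h : E) : E ⧸ D) := rfl
    rw [h1, eq_comm, QuotientGroup.eq]
    rw [mul_assoc]
  obtain ⟨v₀, hv₀, hv₀D, hcyc⟩ := hF.cyc
  -- an element of the first stabiliser that is not in the second
  have hex : ∃ l ∈ V, l • (g' : E ⧸ D) = (g' : E ⧸ D) ∧ l • (g : E ⧸ D) ≠ (g : E ⧸ D) := by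
    by_contra hcon
    push Not at hcon
    obtain ⟨w, hw, d, hd, hwd⟩ := hF.dist (g⁻¹ * g') (by
      intro k hk hkD
      have h1 := hcon (g' * k * g'⁻¹) (hF.norm.conj_mem k hk g') (by
        rw [hst]
        have : g'⁻¹ * (g' * k * g'⁻¹) * g' = k := by group
        rw [this]
        exact hkD)
      rw [hst] at h1
      have : g⁻¹ * g' * k * (g⁻¹ * g')⁻¹ = g⁻¹ * (g' * k * g'⁻¹) * g := by group
      rw [this]
      exact h1)
    refine hy (g * w * g⁻¹) (hF.norm.conj_mem w hw g) ?_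
    have h2 : g' = g * w * d := by
      rw [mul_assoc, ← hwd]
      group
    have h3 : (g * w * g⁻¹) • (g : E ⧸ D) = ((g * w * g⁻¹ * g : E) : E ⧸ D) := rfl
    rw [h3, h2, inv_mul_cancel_right, QuotientGroup.eq]
    have h4 : (g * w * d)⁻¹ * (g * w) = d⁻¹ := by group
    rw [h4]
    exact D.inv_mem hd
  obtain ⟨l, hl, hl1, hl2⟩ := hex
  -- the generator of the quotient by the second stabiliser
  set v₁ := g * v₀ * g⁻¹ with hv₁
  have hv₁V : v₁ ∈ V := hF.norm.conj_mem v₀ hv₀ g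
  have hcyc1 : ∀ w ∈ V, ∃ i : ℕ, (w * v₁ ^ i) • (g : E ⧸ D) = (g : E ⧸ D) := by
    intro w hw
    have hw' : g⁻¹ * w * g ∈ V := by
      have := hF.norm.conj_mem w hw g⁻¹
      rwa [inv_inv] at this
    obtain ⟨i, hi⟩ := hcyc _ hw'
    refine ⟨i, ?_⟩
    rw [hst]
    have : g⁻¹ * (w * v₁ ^ i) * g = g⁻¹ * w * g * v₀ ^ i := by
      rw [hv₁, conj_pow]
      group
    rw [this]
    exact hi
  obtain ⟨i, hi⟩ := hcyc1 l hl
  have hip : ¬ p ∣ i := by
    rintro ⟨c, rfl⟩
    rw [pow_mul, hF.expo v₁ hv₁V, one_pow, mul_one] at hi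
    exact hl2 hi
  -- invert `i` modulo `p`
  obtain ⟨j, hj⟩ : ∃ j : ℕ, i * j % p = 1 := by
    have hcop : Nat.Coprime i p := ((Nat.Prime.coprime_iff_not_dvd hp).mpr hip).symm
    obtain ⟨j, hj⟩ := Nat.exists_mul_mod_eq_one_of_coprime hcop hp.one_lt
    exact ⟨j, hj.2⟩
  have hpow : ∀ (w : E), w ∈ V → ∀ (n : ℕ), w ^ n = w ^ (n % p) := by
    intro w hw n
    conv_lhs => rw [← Nat.mod_add_div n p, pow_add, pow_mul, hF.expo w hw, one_pow, mul_one]
  have hcomm : Commute l v₁ := hF.comm l hl v₁ hv₁V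
  -- `l ^ j * v₁` fixes the second point
  have h5 : (l ^ j * v₁) • (g : E ⧸ D) = (g : E ⧸ D) := by
    have h6 : (l * v₁ ^ i) ^ j = l ^ j * v₁ := by
      rw [(hcomm.pow_right i).mul_pow, ← pow_mul, hpow v₁ hv₁V (i * j), hj, pow_one]
    have h7 : l * v₁ ^ i ∈ MulAction.stabilizer E (g : E ⧸ D) := hi
    have h8 := (MulAction.stabilizer E (g : E ⧸ D)).pow_mem h7 j
    rw [h6] at h8
    exact h8
  obtain ⟨m, hm⟩ := hcyc1 v hv
  -- `v = l' * s` with `l' = l ^ (j * m)`
  refine ⟨l ^ (j * m), V.pow_mem hl _, ?_, l⁻¹ ^ (j * m) * v,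
    V.mul_mem (V.pow_mem (V.inv_mem hl) _) hv, ?_, ?_⟩
  · have h7 : l ∈ MulAction.stabilizer E (g' : E ⧸ D) := hl1
    exact (MulAction.stabilizer E (g' : E ⧸ D)).pow_mem h7 _
  · have h8 : (l ^ j * v₁) ^ m ∈ MulAction.stabilizer E (g : E ⧸ D) :=
      (MulAction.stabilizer E (g : E ⧸ D)).pow_mem h5 m
    have h9 : v * v₁ ^ m ∈ MulAction.stabilizer E (g : E ⧸ D) := hm
    have h10 := (MulAction.stabilizer E (g : E ⧸ D)).mul_mem
      ((MulAction.stabilizer E (g : E ⧸ D)).inv_mem h8) h9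
    have h11 : ((l ^ j * v₁) ^ m)⁻¹ * (v * v₁ ^ m) = l⁻¹ ^ (j * m) * v := by
      have hc1 : Commute v v₁ := hF.comm v hv v₁ hv₁V
      rw [(hcomm.pow_left j).mul_pow, mul_inv_rev, ← pow_mul, inv_pow]
      have hc2 : Commute (l ^ (j * m)) (v₁ ^ m) := hcomm.pow_pow _ _
      rw [(hc2.inv_inv).symm.eq, (hc1.pow_right m).eq, mul_assoc, inv_mul_cancel_left]
    rw [h11] at h10
    exact h10
  · rw [inv_pow, mul_inv_cancel_left]

/-- the sum of a function of the module over the orbit of a stabiliser of a point of another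
fibre vanishes -/
theorem Count_KF {p q : ℕ} (hp : p.Prime) (hq : q.Prime) (hpq : p ≠ q) {E : Type} [Group E]
    [Finite E] {V D : Subgroup E} {b : E} (hF : Pre p E V D b) (x : Fn q V D) (y y' : E ⧸ D)
    (hy : ∀ v ∈ V, y' ≠ v • y) :
    ∑ᶠ k : (V ⊓ MulAction.stabilizer E y' : Subgroup E), x.1 ((k : E) • y) = 0 := by
  classical
  have : Fact q.Prime := ⟨hq⟩
  set L : Subgroup E := V ⊓ MulAction.stabilizer E y' with hL
  have : Fintype E := Fintype.ofFinite E
  have : Fintype V := Fintype.ofFinite V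
  have : Fintype L := Fintype.ofFinite L
  -- the function is constant on the fibre
  have h1 : ∀ v ∈ V, ∑ k : L, x.1 ((k : E) • v • y) = ∑ k : L, x.1 ((k : E) • y) := by
    intro v hv
    obtain ⟨l, hl, hl1, s, hs, hs1, rfl⟩ := Count_prod hp hF y y' hy v hv
    have h2 : ∀ k : L, (k : E) • (l * s) • y = ((k * ⟨l, hl, hl1⟩ : L) : E) • y := by
      intro k
      rw [mul_smul, hs1]
      exact (mul_smul _ _ _).symm
    simp only [h2]
    exact Equiv.sum_comp (Equiv.mulRight (⟨l, hl, hl1⟩ : L)) (fun k => x.1 ((k : E) • y))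
  -- the sum over the fibre vanishes
  have h3 : ∑ v : V, ∑ k : L, x.1 ((k : E) • (v : E) • y) = 0 := by
    rw [Finset.sum_comm]
    refine Finset.sum_eq_zero (fun k _ => ?_)
    have h4 := (mem_Fn.mp x.2) ((k : E) • y)
    rw [finsum_eq_sum_of_fintype] at h4
    rw [← h4]
    refine Finset.sum_congr rfl (fun v _ => ?_)
    rw [← mul_smul, ← mul_smul, hF.comm v v.2 k k.2.1]
  have h5 : ∑ v : V, ∑ k : L, x.1 ((k : E) • (v : E) • y) =
      ∑ v : V, ∑ k : L, x.1 ((k : E) • y) :=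
    Finset.sum_congr rfl (fun v _ => h1 v v.2)
  rw [h5, Finset.sum_const, Finset.card_univ, nsmul_eq_mul] at h3
  have h6 : ((Fintype.card V : ℕ) : ZMod q) ≠ 0 := by
    rw [← Nat.card_eq_fintype_card]
    exact Count_card hp hq hpq V hF.expo
  rw [finsum_eq_sum_of_fintype]
  exact (mul_eq_zero.mp h3).resolve_left h6

theorem two_of_coset {p q : ℕ} (hp : p.Prime) (hq : q.Prime) (hpq : p ≠ q) {E : Type} [Group E]
    [Finite E] {V D : Subgroup E} [V.Normal] {b : E} (hF : Pre p E V D b) {Z : Set (E ⧸ D)}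
    (hZ : ∀ z ∈ Z, ∀ v ∈ V, v • z ∈ Z → v • z = z) (x : Fn q V D) (y : E ⧸ D) (hx : x.1 y ≠ 0)
    (g : E) (hg : ∃ z ∈ Z, ∃ v ∈ V, g • z = v • y) :
    ∃ v₁ ∈ V, ∃ v₂ ∈ V, v₁ ≠ v₂ ∧ lam q V D Z (rho q V D (v₁ * g)⁻¹ x) ≠ 0 ∧
      lam q V D Z (rho q V D (v₂ * g)⁻¹ x) ≠ 0 := by
  classical
  have : Fact q.Prime := ⟨hq⟩
  obtain ⟨z₀, hz₀, v, hv, hgz⟩ := hg
  have : Finite (E ⧸ D) := Quotient.finite _
  have : Fintype (E ⧸ D) := Fintype.ofFinite _
  have : Fintype E := Fintype.ofFinite E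
  have : Fintype V := Fintype.ofFinite V
  set L : Subgroup E := V ⊓ MulAction.stabilizer E y with hL
  have : Fintype L := Fintype.ofFinite L
  have hZf : Fintype Z := Fintype.ofFinite Z
  have hcL : ((Fintype.card L : ℕ) : ZMod q) ≠ 0 := by
    rw [← Nat.card_eq_fintype_card]
    exact Count_card hp hq hpq L (fun w hw => hF.expo w hw.1)
  -- the value of the functional
  have hlam : ∀ h : E, lam q V D Z (rho q V D h⁻¹ x) = ∑ z : Z, x.1 (h • (z : E ⧸ D)) := by
    intro h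
    rw [lam_apply, finsum_eq_sum_of_fintype]
    refine Finset.sum_congr rfl (fun z _ => ?_)
    rw [rho_apply, inv_inv]
  -- a second point
  obtain ⟨w, hw, hwy, hxw⟩ : ∃ w ∈ V, w • y ≠ y ∧ x.1 (w • y) ≠ 0 := by
    by_contra hcon
    push Not at hcon
    have h4 := (mem_Fn.mp x.2) y
    rw [finsum_eq_sum_of_fintype] at h4
    have h5 : ∑ v : V, x.1 ((v : E) • y) =
        ∑ v : V, if (v : E) • y = y then x.1 y else 0 := by
      refine Finset.sum_congr rfl (fun v _ => ?_)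
      split_ifs with h
      · rw [h]
      · exact hcon v v.2 h
    rw [h5, ← Finset.sum_filter, Finset.sum_const, nsmul_eq_mul] at h4
    have h6 : (Finset.univ.filter (fun v : V => (v : E) • y = y)).card = Fintype.card L := by
      rw [← Finset.card_univ]
      refine Finset.card_bij (fun v hv => (⟨v, v.2, (Finset.mem_filter.mp hv).2⟩ : L))
        (fun _ _ => Finset.mem_univ _) ?_ ?_
      · intro a _ c _ hac
        exact Subtype.ext (congrArg (fun t : L => (t : E)) hac)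
      · intro l _
        exact ⟨⟨l, l.2.1⟩, Finset.mem_filter.mpr ⟨Finset.mem_univ _, l.2.2⟩, rfl⟩
    rw [h6] at h4
    rcases mul_eq_zero.mp h4 with h7 | h7
    · exact hcL h7
    · exact hx h7
  -- the sum over the stabiliser
  have hsum : ∀ u ∈ V, ∑ k : L, lam q V D Z (rho q V D (u * k * g)⁻¹ x) =
      (Fintype.card L : ZMod q) * x.1 (u • g • z₀) := by
    intro u hu
    simp only [hlam]
    rw [Finset.sum_comm]
    rw [Finset.sum_eq_single (⟨z₀, hz₀⟩ : Z)]
    · have h7 : ∀ k : L, (u * (k : E) * g) • z₀ = u • g • z₀ := by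
        intro k
        rw [mul_smul, mul_smul, hgz, ← mul_smul (k : E) v y, hF.comm k k.2.1 v hv, mul_smul v]
        have : (k : E) • y = y := k.2.2
        rw [this]
      simp only [h7]
      rw [Finset.sum_const, Finset.card_univ, nsmul_eq_mul]
    · intro z _ hz
      have h8 : ∀ k : L, (u * (k : E) * g) • (z : E ⧸ D) = (k : E) • u • g • (z : E ⧸ D) := by
        intro k
        rw [hF.comm u hu k k.2.1, mul_smul, mul_smul]
      simp only [h8]
      have h9 := Count_KF hp hq hpq hF x (u • g • (z : E ⧸ D)) y (by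
        intro r hr hyr
        apply hz
        apply Subtype.ext
        change (z : E ⧸ D) = z₀
        -- `g z` lies in the fibre of `y`
        have h10 : g • z₀ = (v * r * u) • g • (z : E ⧸ D) := by
          rw [hgz, mul_smul, mul_smul, ← hyr]
        have h11 : z₀ = (g⁻¹ * (v * r * u) * g) • (z : E ⧸ D) := by
          rw [mul_smul, mul_smul, ← h10, inv_smul_smul]
        have h12 : g⁻¹ * (v * r * u) * g ∈ V := by
          have := hF.norm.conj_mem (v * r * u) (V.mul_mem (V.mul_mem hv hr) hu) g⁻¹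
          rwa [inv_inv] at this
        have h13 := hZ z z.2 _ h12 (by rw [← h11]; exact hz₀)
        rw [← h11] at h13
        exact h13.symm)
      rw [finsum_eq_sum_of_fintype] at h9
      exact h9
    · intro h
      exact absurd (Finset.mem_univ _) h
  have hfind : ∀ u ∈ V, x.1 (u • g • z₀) ≠ 0 → ∃ k ∈ V, k • y = y ∧
      lam q V D Z (rho q V D (u * k * g)⁻¹ x) ≠ 0 := by
    intro u hu hne
    by_contra hcon
    push Not at hcon
    have h14 := hsum u hu
    have h20 : ∑ k : L, lam q V D Z (rho q V D (u * k * g)⁻¹ x) = 0 :=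
      Finset.sum_eq_zero (fun (k : L) _ => hcon k k.2.1 k.2.2)
    rw [h20] at h14
    rcases mul_eq_zero.mp h14.symm with h15 | h15
    · exact hcL h15
    · exact hne h15
  obtain ⟨k₁, hk₁, hk₁y, h16⟩ := hfind v⁻¹ (V.inv_mem hv) (by
    rw [hgz, inv_smul_smul]
    exact hx)
  obtain ⟨k₂, hk₂, hk₂y, h17⟩ := hfind (w * v⁻¹) (V.mul_mem hw (V.inv_mem hv)) (by
    rw [hgz, mul_smul, inv_smul_smul]
    exact hxw)
  refine ⟨v⁻¹ * k₁, V.mul_mem (V.inv_mem hv) hk₁, w * v⁻¹ * k₂,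
    V.mul_mem (V.mul_mem hw (V.inv_mem hv)) hk₂, ?_, h16, h17⟩
  intro heq
  apply hwy
  have h18 : (v⁻¹ * k₁) • v • y = y := by
    rw [← mul_smul, mul_assoc, hF.comm k₁ hk₁ v hv, inv_mul_cancel_left, hk₁y]
  have h19 : (w * v⁻¹ * k₂) • v • y = w • y := by
    rw [← mul_smul, mul_assoc, mul_assoc, hF.comm k₂ hk₂ v hv, inv_mul_cancel_left, mul_smul,
      hk₂y]
  rw [← h19, ← heq, h18]

theorem count_lam {p q : ℕ} (hp : p.Prime) (hq : q.Prime) (hpq : p ≠ q) {E : Type} [Group E]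
    [Finite E] {V D : Subgroup E} [V.Normal] {a b : E} (hF : Frame p q E V D a b) {y₁ : E ⧸ D}
    {Z : Set (E ⧸ D)} (hZ : IsSec V D a y₁ Z) (x : Fn q V D) (hx : x ≠ 0) :
    2 * p * q < Nat.card {g : E // lam q V D Z (rho q V D g⁻¹ x) ≠ 0} := by
  classical
  obtain ⟨y, hy⟩ : ∃ y, x.1 y ≠ 0 := by
    by_contra hcon
    push Not at hcon
    exact hx (Subtype.ext (funext hcon))
  have : Finite (E ⧸ D) := Quotient.finite _
  set G₁ : Set E := {g | ∃ z ∈ Z, ∃ v ∈ V, g • z = v • y} with hG₁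
  set A : Set E := {g | lam q V D Z (rho q V D g⁻¹ x) ≠ 0} with hA
  -- the complement of `G₁` is small
  have hcompl : Nat.card (G₁ᶜ : Set E) ≤ p * q * Nat.card V := by
    induction y using QuotientGroup.induction_on with | _ h =>
    induction y₁ using QuotientGroup.induction_on with | _ g₁ =>
    have hex : ∀ g : (G₁ᶜ : Set E), ∃ t : Fin p × Fin q × V,
        (g : E) = h * (a ^ (t.1 : ℕ) * g₁ * t.2.2 * b ^ (t.2.1 : ℕ))⁻¹ := by
      intro g
      have hg : (g : E) ∉ G₁ := g.2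
      rcases hZ.hit ((g : E)⁻¹ • (h : E ⧸ D)) with ⟨v, hv, hvz⟩ | ⟨v, hv, i, hi⟩
      · exfalso
        apply hg
        refine ⟨_, hvz, (g : E) * v * (g : E)⁻¹, hF.norm.conj_mem v hv g, ?_⟩
        rw [mul_smul, mul_smul]
      · have h1 : ((((g : E)⁻¹ * h : E)) : E ⧸ D) = ((v * (a ^ i * g₁) : E) : E ⧸ D) := hi
        rw [QuotientGroup.eq] at h1
        -- `(g⁻¹ h)⁻¹ v a ^ i g₁ = d`
        obtain ⟨k, hk, j, hj⟩ := hF.hD _ (D.inv_mem h1)
        have h2 : (g : E)⁻¹ * h = v * (a ^ i * g₁) * (k * b ^ j) := by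
          rw [← hj]
          group
        have hi2 : a ^ i = a ^ (i % p) := by
          conv_lhs => rw [← Nat.mod_add_div i p, pow_add, pow_mul, hF.ha, one_pow, mul_one]
        have hj2 : b ^ j = b ^ (j % q) := by
          conv_lhs => rw [← Nat.mod_add_div j q, pow_add, pow_mul, hF.hb, one_pow, mul_one]
        have h3 : (a ^ i * g₁)⁻¹ * v * (a ^ i * g₁) * k ∈ V := by
          refine V.mul_mem ?_ hk
          have := hF.norm.conj_mem v hv (a ^ i * g₁)⁻¹
          rwa [inv_inv] at this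
        refine ⟨(⟨i % p, Nat.mod_lt _ hp.pos⟩, ⟨j % q, Nat.mod_lt _ hq.pos⟩, ⟨_, h3⟩), ?_⟩
        change (g : E) = h * (a ^ (i % p) * g₁ * ((a ^ i * g₁)⁻¹ * v * (a ^ i * g₁) * k) *
          b ^ (j % q))⁻¹
        rw [← hi2, ← hj2]
        have h4 : a ^ i * g₁ * ((a ^ i * g₁)⁻¹ * v * (a ^ i * g₁) * k) * b ^ j =
            (g : E)⁻¹ * h := by
          rw [h2]
          group
        rw [h4]
        group
    choose t ht using hex
    have hinj : Function.Injective t := by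
      intro g g' hgg
      apply Subtype.ext
      rw [ht g, ht g', hgg]
    have h5 := Nat.card_le_card_of_injective t hinj
    rw [Nat.card_prod, Nat.card_prod, Nat.card_eq_fintype_card (α := Fin p), Fintype.card_fin,
      Nat.card_eq_fintype_card (α := Fin q), Fintype.card_fin, ← mul_assoc] at h5
    exact h5
  -- the group is large
  have hlarge : 2 * p * q * Nat.card V < Nat.card E := by
    obtain ⟨v₀, hv₀, hv₀D, -⟩ := hF.cyc
    have h1 := hF.count v₀ hv₀ (by
      rintro rfl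
      exact hv₀D D.one_mem)
    exact lt_of_lt_of_le h1 (Nat.card_le_card_of_injective Subtype.val Subtype.val_injective)
  have hadd : Nat.card G₁ + Nat.card (G₁ᶜ : Set E) = Nat.card E := by
    rw [Nat.card_coe_set_eq, Nat.card_coe_set_eq]
    exact Set.ncard_add_ncard_compl G₁
  -- pairs
  have hpairs : ∀ g : G₁, ∃ v₁ : V, ∃ v₂ : V, v₁ ≠ v₂ ∧ (v₁ : E) * g ∈ A ∧ (v₂ : E) * g ∈ A := by
    intro g
    obtain ⟨v₁, hv₁, v₂, hv₂, hne, h1, h2⟩ :=
      two_of_coset hp hq hpq hF.toPre hZ.uniq x y hy g g.2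
    refine ⟨⟨v₁, hv₁⟩, ⟨v₂, hv₂⟩, fun h => hne (congrArg Subtype.val h), h1, h2⟩
  choose f₁ f₂ hne h1 h2 using hpairs
  set F : Bool × G₁ → V × A := fun t =>
    if t.1 then (f₁ t.2, ⟨_, h1 t.2⟩) else (f₂ t.2, ⟨_, h2 t.2⟩) with hFdef
  have hFt : ∀ g : G₁, F (true, g) = (f₁ g, ⟨_, h1 g⟩) := fun g => rfl
  have hFf : ∀ g : G₁, F (false, g) = (f₂ g, ⟨_, h2 g⟩) := fun g => rfl
  have hcancel : ∀ (u w : V) (g g' : G₁), u = w → (u : E) * g = (w : E) * g' → g = g' := by
    intro u w g g' huw h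
    subst huw
    exact Subtype.ext (mul_left_cancel h)
  have hinj : Function.Injective F := by
    rintro ⟨c, g⟩ ⟨c', g'⟩ heq
    cases c <;> cases c'
    · rw [hFf, hFf] at heq
      have e1 := congrArg Prod.fst heq
      have e2 := congrArg (fun t : V × A => (t.2 : E)) heq
      rw [hcancel _ _ g g' e1 e2]
    · exfalso
      rw [hFf, hFt] at heq
      have e1 := congrArg Prod.fst heq
      have e2 := congrArg (fun t : V × A => (t.2 : E)) heq
      have e3 := hcancel _ _ g g' e1 e2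
      subst e3
      exact hne g e1.symm
    · exfalso
      rw [hFt, hFf] at heq
      have e1 := congrArg Prod.fst heq
      have e2 := congrArg (fun t : V × A => (t.2 : E)) heq
      have e3 := hcancel _ _ g g' e1 e2
      subst e3
      exact hne g e1
    · rw [hFt, hFt] at heq
      have e1 := congrArg Prod.fst heq
      have e2 := congrArg (fun t : V × A => (t.2 : E)) heq
      rw [hcancel _ _ g g' e1 e2]
  have hle := Nat.card_le_card_of_injective F hinj
  rw [Nat.card_prod, Nat.card_prod, Nat.card_eq_fintype_card (α := Bool), Fintype.card_bool] at hle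
  have hV : 0 < Nat.card V := Nat.card_pos
  have hfin : 2 * p * q * Nat.card V < Nat.card V * Nat.card A := by
    have e1 : 2 * p * q * Nat.card V = 2 * (p * q * Nat.card V) := by ring
    rw [e1] at hlarge ⊢
    omega
  rw [mul_comm (Nat.card V)] at hfin
  exact lt_of_mul_lt_mul_right hfin (Nat.zero_le _)

end Helper76.PQ
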