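import Pool.Agent.Helper76.IG.Defs

/-!
# Groups of order `p^i q^j` in invariably generated soluble groups: definitions
-/

set_option autoImplicit false

namespace Helper76.PQ

open Helper76.IG

/-! ### semidirect products -/

/-- the semidirect product of the additive group `U` and the group `E` acting on it by `ρ` -/
@[ext]
structure SD {E U : Type} [Group E] [AddCommGroup U] (ρ : E →* AddMonoid.End U) where
  l : U
  r : E

namespace SD

variable {E U : Type} [Group E] [AddCommGroup U] (ρ : E →* AddMonoid.End U)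

instance : Mul (SD ρ) := ⟨fun x y => ⟨x.l + ρ x.r y.l, x.r * y.r⟩⟩
instance : One (SD ρ) := ⟨⟨0, 1⟩⟩
instance : Inv (SD ρ) := ⟨fun x => ⟨-ρ x.r⁻¹ x.l, x.r⁻¹⟩⟩

@[simp] theorem mul_l (x y : SD ρ) : (x * y).l = x.l + ρ x.r y.l := rfl
@[simp] theorem mul_r (x y : SD ρ) : (x * y).r = x.r * y.r := rfl
@[simp] theorem one_l : (1 : SD ρ).l = 0 := rfl
@[simp] theorem one_r : (1 : SD ρ).r = 1 := rfl
@[simp] theorem inv_l (x : SD ρ) : (x⁻¹).l = -ρ x.r⁻¹ x.l := rfl
@[simp] theorem inv_r (x : SD ρ) : (x⁻¹).r = x.r⁻¹ := rfl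

theorem rho_mul (g h : E) (x : U) : ρ (g * h) x = ρ g (ρ h x) := by
  rw [map_mul]; rfl

theorem rho_one (x : U) : ρ 1 x = x := by
  rw [map_one]; rfl

theorem rho_inv_rho (g : E) (x : U) : ρ g⁻¹ (ρ g x) = x := by
  rw [← rho_mul, inv_mul_cancel, rho_one]

theorem rho_rho_inv (g : E) (x : U) : ρ g (ρ g⁻¹ x) = x := by
  rw [← rho_mul, mul_inv_cancel, rho_one]

instance : Group (SD ρ) := Group.ofLeftAxioms
  (by intro x y z
      ext
      · change x.l + ρ x.r y.l + ρ (x.r * y.r) z.l = x.l + ρ x.r (y.l + ρ y.r z.l)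
        rw [rho_mul, map_add, add_assoc]
      · exact mul_assoc _ _ _)
  (by intro x
      ext
      · change 0 + ρ 1 x.l = x.l
        rw [rho_one, zero_add]
      · exact one_mul _)
  (by intro x
      ext
      · change -ρ x.r⁻¹ x.l + ρ x.r⁻¹ x.l = 0
        exact neg_add_cancel _
      · exact inv_mul_cancel _)

/-- the embedding of `E` -/
def inr : E →* SD ρ where
  toFun g := ⟨0, g⟩
  map_one' := rfl
  map_mul' g h := by
    ext
    · change (0 : U) = 0 + ρ g 0
      rw [map_zero, zero_add]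
    · rfl

/-- the projection onto `E` -/
def toE : SD ρ →* E where
  toFun x := x.r
  map_one' := rfl
  map_mul' _ _ := rfl

/-- the embedding of `U` -/
def inl (x : U) : SD ρ := ⟨x, 1⟩

@[simp] theorem inr_l (g : E) : (inr ρ g).l = 0 := rfl
@[simp] theorem inr_r (g : E) : (inr ρ g).r = g := rfl
@[simp] theorem inl_l (x : U) : (inl ρ x).l = x := rfl
@[simp] theorem inl_r (x : U) : (inl ρ x).r = 1 := rfl
@[simp] theorem toE_apply (x : SD ρ) : toE ρ x = x.r := rfl

theorem inr_injective : Function.Injective (inr ρ) := fun _ _ h => congrArg SD.r h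

theorem mem_ker (x : SD ρ) : x ∈ (toE ρ).ker ↔ x.r = 1 := MonoidHom.mem_ker

instance [Finite E] [Finite U] : Finite (SD ρ) :=
  Finite.of_injective (fun x : SD ρ => (x.l, x.r)) (by
    intro x y h
    ext
    · exact congrArg Prod.fst h
    · exact congrArg Prod.snd h)

end SD

/-! ### the function modules -/

section Fn

variable {E : Type} [Group E] [Finite E]

/-- the functions on `E ⧸ D` with values in `ZMod q` whose sums over all `V`-orbits (with
multiplicities) vanish -/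
def Fn (q : ℕ) (V D : Subgroup E) : AddSubgroup (E ⧸ D → ZMod q) where
  carrier := {x | ∀ y : E ⧸ D, ∑ᶠ v : V, x ((v : E) • y) = 0}
  zero_mem' := by
    intro y
    simp
  add_mem' := by
    intro x x' hx hx' y
    have h3 : ∀ v : V, (x + x') ((v : E) • y) = x ((v : E) • y) + x' ((v : E) • y) :=
      fun v => rfl
    simp only [h3]
    rw [finsum_add_distrib (Set.toFinite _) (Set.toFinite _), hx y, hx' y, add_zero]
  neg_mem' := by
    intro x hx y
    have h3 : ∀ v : V, (-x) ((v : E) • y) = - x ((v : E) • y) := fun v => rfl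
    simp only [h3]
    rw [finsum_neg_distrib, hx y, neg_zero]

theorem mem_Fn {q : ℕ} {V D : Subgroup E} {x : E ⧸ D → ZMod q} :
    x ∈ Fn q V D ↔ ∀ y : E ⧸ D, ∑ᶠ v : V, x ((v : E) • y) = 0 := Iff.rfl

/-- the action of `E` on the function module: `(g x)(y) = x(g⁻¹ y)` -/
def rho (q : ℕ) (V D : Subgroup E) [hV : V.Normal] : E →* AddMonoid.End (Fn q V D) where
  toFun g :=
    { toFun := fun x => ⟨fun y => x.1 (g⁻¹ • y), by
        intro y
        have h := x.2 (g⁻¹ • y)
        rw [← h]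
        refine finsum_eq_of_bijective
          (fun v : V => (⟨g⁻¹ * v * g⁻¹⁻¹, hV.conj_mem v v.2 g⁻¹⟩ : V)) ?_ ?_
        · constructor
          · intro v w hvw
            have h1 : g⁻¹ * (v : E) * g⁻¹⁻¹ = g⁻¹ * w * g⁻¹⁻¹ := congrArg Subtype.val hvw
            exact Subtype.ext (by simpa using h1)
          · intro w
            refine ⟨⟨g * w * g⁻¹, hV.conj_mem w w.2 g⟩, ?_⟩
            apply Subtype.ext
            change g⁻¹ * (g * (w : E) * g⁻¹) * g⁻¹⁻¹ = w
            group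
        · intro v
          change x.1 (g⁻¹ • (v : E) • y) = x.1 ((g⁻¹ * (v : E) * g⁻¹⁻¹) • g⁻¹ • y)
          rw [smul_smul, smul_smul]
          group⟩
      map_zero' := by
        apply Subtype.ext
        rfl
      map_add' := by
        intro x y
        apply Subtype.ext
        rfl }
  map_one' := by
    ext x y
    change x.1 ((1 : E)⁻¹ • y) = x.1 y
    rw [inv_one, one_smul]
  map_mul' := by
    intro g h
    ext x y
    change x.1 ((g * h)⁻¹ • y) = x.1 (h⁻¹ • g⁻¹ • y)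
    rw [smul_smul, mul_inv_rev]

@[simp] theorem rho_apply (q : ℕ) (V D : Subgroup E) [V.Normal] (g : E) (x : Fn q V D)
    (y : E ⧸ D) : (rho q V D g x).1 y = x.1 (g⁻¹ • y) := rfl

instance (q : ℕ) [NeZero q] (V D : Subgroup E) : Finite (Fn q V D) := by
  have : Finite (E ⧸ D) := Quotient.finite _
  infer_instance

/-- the functional `x ↦ ∑_{z ∈ Z} x z` -/
noncomputable def lam (q : ℕ) (V D : Subgroup E) (Z : Set (E ⧸ D)) : Fn q V D →+ ZMod q where
  toFun x := ∑ᶠ z : Z, x.1 z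
  map_zero' := by
    change ∑ᶠ z : Z, (0 : ZMod q) = 0
    exact finsum_zero
  map_add' := by
    intro x y
    have : Finite (E ⧸ D) := Quotient.finite _
    exact finsum_add_distrib (Set.toFinite _) (Set.toFinite _)

theorem lam_apply (q : ℕ) (V D : Subgroup E) (Z : Set (E ⧸ D)) (x : Fn q V D) :
    lam q V D Z x = ∑ᶠ z : Z, x.1 z := rfl

/-- `Z` is an `a`-invariant set that meets the `V`-orbits on `E ⧸ D` in one point, except for the
`V`-orbits of the points `a ^ i • y₁`, which it does not meet -/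
structure IsSec (V D : Subgroup E) (a : E) (y₁ : E ⧸ D) (Z : Set (E ⧸ D)) : Prop where
  inv : ∀ z ∈ Z, a • z ∈ Z
  uniq : ∀ z ∈ Z, ∀ v ∈ V, v • z ∈ Z → v • z = z
  miss : ∀ v ∈ V, ∀ i : ℕ, v • a ^ i • y₁ ∉ Z
  hit : ∀ y, (∃ v ∈ V, v • y ∈ Z) ∨ ∃ v ∈ V, ∃ i : ℕ, y = v • a ^ i • y₁

end Fn

/-! ### frames -/

/-- the part of a frame that is needed for the extension step -/
structure Pre (p : ℕ) (E : Type) [Group E] (V D : Subgroup E) (b : E) : Prop where
  norm : V.Normal
  comm : ∀ v ∈ V, ∀ w ∈ V, v * w = w * v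
  expo : ∀ v ∈ V, v ^ p = 1
  hbD : b ∈ D
  triv : ∀ v ∈ V, b * v * b⁻¹ * v⁻¹ ∈ D
  cyc : ∃ v₀ ∈ V, v₀ ∉ D ∧ ∀ v ∈ V, ∃ i : ℕ, v * v₀ ^ i ∈ D
  dist : ∀ g : E, (∀ k ∈ V, k ∈ D → g * k * g⁻¹ ∈ D) → ∃ v ∈ V, ∃ d ∈ D, g = v * d

/-- a frame: `E` is invariably generated by `a` and `b` with `a ^ p = b ^ q = 1`; `V` is a normal
elementary abelian `p`-subgroup without `a`; `D ∩ V` is a subgroup of index `p` in `V` whose
normaliser is `V⟨b⟩` -/
structure Frame (p q : ℕ) (E : Type) [Group E] (V D : Subgroup E) (a b : E) : Prop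
    extends Pre p E V D b where
  ha : a ^ p = 1
  hb : b ^ q = 1
  ig : InvGen a b
  haV : a ∉ V
  hD : ∀ d ∈ D, ∃ k ∈ V, ∃ i : ℕ, d = k * b ^ i
  count : ∀ v ∈ V, v ≠ 1 → 2 * p * q * Nat.card V < Nat.card {g : E // g⁻¹ * v * g ∉ D}
  cen : p = 2 → ∀ v ∈ V, (∀ g : E, g * v * g⁻¹ = v) → v = 1

/-- the regular wreath product of `ZMod q` and `H` -/
def wrRho (q : ℕ) (H : Type) [Group H] : H →* AddMonoid.End (H → ZMod q) where
  toFun g :=
    { toFun := fun x y => x (g⁻¹ * y)
      map_zero' := rfl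
      map_add' := fun _ _ => rfl }
  map_one' := by
    ext x y
    change x ((1 : H)⁻¹ * y) = x y
    rw [inv_one, one_mul]
  map_mul' := by
    intro g h
    ext x y
    change x ((g * h)⁻¹ * y) = x (h⁻¹ * (g⁻¹ * y))
    rw [mul_inv_rev, mul_assoc]

/-- the regular wreath product `C_q wr H` -/
abbrev Wr (q : ℕ) (H : Type) [Group H] := SD (wrRho q H)

end Helper76.PQ
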