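import Pool.Agent.Helper76.PQ.Defs

set_option autoImplicit false

namespace Helper76.PQ

open Helper76.IG

/-- invariable generation of an extension by a module `U` without fixed points of a normal
subgroup `V` of coprime order -/
theorem ext_invGen {E U : Type} [Group E] [Finite E] [AddCommGroup U] [Finite U]
    (ρ : E →* AddMonoid.End U) {a b : E} (hab : InvGen a b) (V : Subgroup E) [V.Normal] {q : ℕ}
    (hq : q.Prime) (hU : ∀ x : U, q • x = 0) (hV : ¬ q ∣ Nat.card V)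
    (hfix : ∀ x : U, (∀ v ∈ V, ρ v x = x) → x = 0) (u : U)
    (hu : ∀ U₁ : AddSubgroup U, (∀ g, ∀ x ∈ U₁, ρ g x ∈ U₁) →
      (∃ x₁ ∈ U₁, ∃ x, u = x₁ + (ρ b x - x)) → U₁ = ⊤) :
    InvGen (SD.inr ρ a) (⟨u, b⟩ : SD ρ) := by
  classical
  intro g h
  set M : Subgroup (SD ρ) := Subgroup.closure {g⁻¹ * SD.inr ρ a * g, h⁻¹ * ⟨u, b⟩ * h} with hM
  have hMa : g⁻¹ * SD.inr ρ a * g ∈ M := Subgroup.subset_closure (by simp)
  have hMb : h⁻¹ * ⟨u, b⟩ * h ∈ M := Subgroup.subset_closure (by simp)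
  have himg : M.map (SD.toE ρ) = ⊤ := by
    apply hab.eq_top (g := g.r) (k := h.r)
    · exact ⟨_, hMa, rfl⟩
    · exact ⟨_, hMb, rfl⟩
  have hex : ∀ e : E, ∃ d : U, (⟨d, e⟩ : SD ρ) ∈ M := by
    intro e
    have : e ∈ M.map (SD.toE ρ) := by rw [himg]; exact Subgroup.mem_top e
    obtain ⟨m, hm, hme⟩ := this
    refine ⟨m.l, ?_⟩
    have h1 : (⟨m.l, e⟩ : SD ρ) = m := by
      ext
      · rfl
      · exact hme.symm
    rw [h1]
    exact hm
  -- the module `M ∩ U`
  let U₁ : AddSubgroup U :=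
    { carrier := {x | (⟨x, 1⟩ : SD ρ) ∈ M}
      zero_mem' := M.one_mem
      add_mem' := by
        intro x y hx hy
        have h1 := M.mul_mem hx hy
        have h2 : (⟨x, 1⟩ : SD ρ) * ⟨y, 1⟩ = ⟨x + y, 1⟩ := by
          ext
          · change x + ρ 1 y = x + y
            rw [SD.rho_one]
          · exact one_mul _
        rwa [h2] at h1
      neg_mem' := by
        intro x hx
        have h1 := M.inv_mem hx
        have h2 : (⟨x, 1⟩ : SD ρ)⁻¹ = ⟨-x, 1⟩ := by
          ext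
          · change -ρ 1⁻¹ x = -x
            rw [inv_one, SD.rho_one]
          · exact inv_one
        rwa [h2] at h1 }
  have hmem : ∀ x : U, x ∈ U₁ ↔ (⟨x, 1⟩ : SD ρ) ∈ M := fun x => Iff.rfl
  have hdiff : ∀ {d d' : U} {e : E}, (⟨d, e⟩ : SD ρ) ∈ M → (⟨d', e⟩ : SD ρ) ∈ M → d - d' ∈ U₁ := by
    intro d d' e hd hd'
    rw [hmem]
    have h1 := M.mul_mem hd (M.inv_mem hd')
    have h2 : (⟨d, e⟩ : SD ρ) * (⟨d', e⟩ : SD ρ)⁻¹ = ⟨d - d', 1⟩ := by
      ext
      · change d + ρ e (-ρ e⁻¹ d') = d - d'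
        rw [map_neg, SD.rho_rho_inv, sub_eq_add_neg]
      · exact mul_inv_cancel _
    rwa [h2] at h1
  have hinv : ∀ e, ∀ x ∈ U₁, ρ e x ∈ U₁ := by
    intro e x hx
    obtain ⟨d, hd⟩ := hex e
    rw [hmem] at hx ⊢
    have h1 := M.mul_mem (M.mul_mem hd hx) (M.inv_mem hd)
    have h2 : (⟨d, e⟩ : SD ρ) * ⟨x, 1⟩ * (⟨d, e⟩ : SD ρ)⁻¹ = ⟨ρ e x, 1⟩ := by
      ext
      · change d + ρ e x + ρ (e * 1) (-ρ e⁻¹ d) = ρ e x
        rw [mul_one, map_neg, SD.rho_rho_inv]
        abel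
      · change e * 1 * e⁻¹ = 1
        group
    rwa [h2] at h1
  -- it is enough to show that `U₁` is everything
  suffices hall : U₁ = ⊤ by
    rw [eq_top_iff]
    intro x _
    obtain ⟨d, hd⟩ := hex x.r
    have h1 : x.l - d ∈ U₁ := by rw [hall]; exact AddSubgroup.mem_top _
    rw [hmem] at h1
    have h2 := M.mul_mem h1 hd
    have h3 : (⟨x.l - d, 1⟩ : SD ρ) * ⟨d, x.r⟩ = x := by
      ext
      · change x.l - d + ρ 1 d = x.l
        rw [SD.rho_one]
        abel
      · exact one_mul _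
    rwa [h3] at h2
  -- the derivation on `V`
  choose d hd using hex
  have hmul : ∀ e e' : E, d (e * e') - (d e + ρ e (d e')) ∈ U₁ := by
    intro e e'
    apply hdiff (hd (e * e'))
    exact M.mul_mem (hd e) (hd e')
  have := Fintype.ofFinite V
  set s : U := ∑ v : V, d v with hs
  set n := Nat.card V with hn
  have hcop : Nat.Coprime n q := (Nat.Prime.coprime_iff_not_dvd hq).2 hV |>.symm
  obtain ⟨m, -, hm⟩ := Nat.exists_mul_mod_eq_one_of_coprime hcop hq.one_lt
  have hmn : ∀ x : U, (m * n) • x = x := by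
    intro x
    have h1 : m * n = q * (m * n / q) + 1 := by
      have h2 := Nat.div_add_mod (m * n) q
      rw [mul_comm m n, hm] at h2
      rw [mul_comm m n]
      exact h2.symm
    rw [h1, add_smul, mul_comm q, mul_smul, hU, smul_zero, zero_add, one_smul]
  set z : U := m • s with hz
  have hnmem : ∀ x : U, n • x ∈ U₁ → x ∈ U₁ := by
    intro x hx
    have h1 := U₁.nsmul_mem hx m
    rwa [← mul_smul, hmn] at h1
  have hdw : ∀ w ∈ V, d w - (z - ρ w z) ∈ U₁ := by
    intro w hw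
    apply hnmem
    -- sum over `V`
    have h1 : ∑ v : V, (d (w * v) - (d w + ρ w (d v))) ∈ U₁ :=
      U₁.sum_mem fun v _ => hmul w v
    rw [Finset.sum_sub_distrib, Finset.sum_add_distrib, Finset.sum_const, Finset.card_univ,
      ← Nat.card_eq_fintype_card, ← map_sum] at h1
    have h2 : ∑ v : V, d (w * v) = s := by
      rw [hs]
      exact Fintype.sum_equiv (Equiv.mulLeft (⟨w, hw⟩ : V)) _ _ (fun v => rfl)
    rw [h2] at h1
    have h3 : n • (d w - (z - ρ w z)) = -(s - (n • d w + ρ w s)) := by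
      have e1 : n • z = s := by rw [hz, ← mul_smul, mul_comm, hmn]
      have e2 : n • ρ w z = ρ w s := by rw [← map_nsmul, e1]
      rw [smul_sub, smul_sub, e1, e2]
      abel
    rw [h3]
    exact U₁.neg_mem h1
  -- all elements of `M`
  have key : ∀ {c : U} {e : E}, (⟨c, e⟩ : SD ρ) ∈ M → c - (z - ρ e z) ∈ U₁ := by
    intro c e hc
    set y : U := z - c - ρ e z with hy
    have hfy : ∀ w ∈ V, y - ρ w y ∈ U₁ := by
      intro w' hw'
      -- `w' = e w e⁻¹`
      have hwV : e⁻¹ * w' * e ∈ V := by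
        have := (inferInstance : V.Normal).conj_mem w' hw' e⁻¹
        rwa [inv_inv] at this
      set w := e⁻¹ * w' * e with hwdef
      have hww : e * w * e⁻¹ = w' := by rw [hwdef]; group
      have h1 := M.mul_mem (M.mul_mem hc (hd w)) (M.inv_mem hc)
      have h2 : (⟨c, e⟩ : SD ρ) * ⟨d w, w⟩ * (⟨c, e⟩ : SD ρ)⁻¹ =
          ⟨c + ρ e (d w) - ρ w' c, w'⟩ := by
        ext
        · change c + ρ e (d w) + ρ (e * w) (-ρ e⁻¹ c) = c + ρ e (d w) - ρ w' c
          rw [map_neg, ← SD.rho_mul, hww, sub_eq_add_neg]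
        · exact hww
      rw [h2] at h1
      have h3 := hdiff (hd w') h1
      have h4 := hdw w' hw'
      have h5 := hinv e _ (hdw w hwV)
      -- combine
      have h6 : y - ρ w' y = (d w' - (c + ρ e (d w) - ρ w' c)) - (d w' - (z - ρ w' z)) +
          ρ e (d w - (z - ρ w z)) := by
        have e1 : ρ e (ρ w z) = ρ w' (ρ e z) := by
          rw [← SD.rho_mul, ← SD.rho_mul, ← hww]
          congr 1
          group
        rw [hy, map_sub, map_sub, map_sub, map_sub, e1]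
        abel
      rw [h6]
      exact U₁.add_mem (U₁.sub_mem h3 h4) h5
    -- average
    have h1 : ∑ w : V, (y - ρ (w : E) y) ∈ U₁ := U₁.sum_mem fun w _ => hfy w w.2
    rw [Finset.sum_sub_distrib, Finset.sum_const, Finset.card_univ, ← Nat.card_eq_fintype_card]
      at h1
    have h2 : ∑ w : V, ρ (w : E) y = 0 := by
      apply hfix
      intro v hv
      rw [map_sum]
      refine Fintype.sum_equiv (Equiv.mulLeft (⟨v, hv⟩ : V)) _ _ (fun w => ?_)
      rw [← SD.rho_mul]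
      rfl
    rw [h2, sub_zero] at h1
    have h3 := hnmem y h1
    have h4 : c - (z - ρ e z) = -y := by rw [hy]; abel
    rw [h4]
    exact U₁.neg_mem h3
  -- apply it to the conjugate of `(u, b)`
  apply hu U₁ hinv
  have h1 : h⁻¹ * (⟨u, b⟩ : SD ρ) * h =
      ⟨-ρ h.r⁻¹ h.l + ρ h.r⁻¹ u + ρ (h.r⁻¹ * b) h.l, h.r⁻¹ * b * h.r⟩ := by
    ext <;> rfl
  rw [h1] at hMb
  have h2 := hinv h.r _ (key hMb)
  refine ⟨_, h2, -ρ h.r z - h.l, ?_⟩
  have e1 : ρ h.r (ρ h.r⁻¹ h.l) = h.l := SD.rho_rho_inv ρ _ _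
  have e2 : ρ h.r (ρ h.r⁻¹ u) = u := SD.rho_rho_inv ρ _ _
  have e3 : ρ h.r (ρ (h.r⁻¹ * b) h.l) = ρ b h.l := by
    rw [← SD.rho_mul]
    congr 2
    group
  have e4 : ρ h.r (ρ (h.r⁻¹ * b * h.r) z) = ρ b (ρ h.r z) := by
    rw [← SD.rho_mul, ← SD.rho_mul]
    congr 2
    group
  rw [map_sub, map_add, map_add, map_neg, e1, e2, e3, map_sub, e4, map_sub, map_neg]
  abel

end Helper76.PQ
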