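import Pool.Agent.Helper76.PQ.Defs

set_option autoImplicit false

namespace Helper76.PQ

open Helper76.IG

/-- if `E₀` acts freely on the `V`-orbits of `E ⧸ D`, then `C_q wr E₀` embeds in the extension -/
theorem wreath_embeds {p q : ℕ} (hp : p.Prime) (hq : q.Prime) (hpq : p ≠ q) {E₀ E : Type}
    [Group E₀] [Finite E₀] [Group E] [Finite E] {V D : Subgroup E} [V.Normal] {a b : E}
    (hF : Frame p q E V D a b) (j : E₀ →* E) (hj : Function.Injective j)
    (hfree : ∀ g : E₀, ∀ h : E, ∀ v ∈ V, ∀ i : ℕ, h⁻¹ * j g * h = v * b ^ i → g = 1) :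
    Embeds (Wr q E₀) (SD (rho q V D)) := by
  classical
  obtain ⟨v₀, hv₀V, hv₀D, -⟩ := hF.cyc
  haveI : Fintype E₀ := Fintype.ofFinite E₀
  haveI : Fintype V := Fintype.ofFinite V
  -- the base point
  let y₀ : E ⧸ D := ((1 : E) : E ⧸ D)
  let x₀ : E ⧸ D → ZMod q := fun y => (if y = y₀ then 1 else 0) - (if y = v₀ • y₀ then 1 else 0)
  have hx₀ : ∀ y : E ⧸ D, ∑ v : V, x₀ ((v : E) • y) = 0 := by
    intro y
    have h1 : ∑ v : V, (if (v : E) • y = v₀ • y₀ then (1 : ZMod q) else 0)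
        = ∑ v : V, (if (v : E) • y = y₀ then (1 : ZMod q) else 0) := by
      refine Fintype.sum_equiv (Equiv.mulLeft (⟨v₀, hv₀V⟩⁻¹ : V)) _ _ fun v => ?_
      have h2 : ((v : E) • y = v₀ • y₀) ↔
          (((Equiv.mulLeft (⟨v₀, hv₀V⟩⁻¹ : V) v : V) : E) • y = y₀) := by
        have h3 : ((Equiv.mulLeft (⟨v₀, hv₀V⟩⁻¹ : V) v : V) : E) = v₀⁻¹ * v := rfl
        rw [h3, mul_smul, inv_smul_eq_iff]
      by_cases h4 : (v : E) • y = v₀ • y₀
      · rw [if_pos h4, if_pos (h2.1 h4)]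
      · rw [if_neg h4, if_neg (fun h5 => h4 (h2.2 h5))]
    change ∑ v : V, ((if (v : E) • y = y₀ then (1 : ZMod q) else 0)
      - (if (v : E) • y = v₀ • y₀ then 1 else 0)) = 0
    rw [Finset.sum_sub_distrib, h1, sub_self]
  have hmem : x₀ ∈ Fn q V D := by
    intro y
    rw [finsum_eq_sum_of_fintype]
    exact hx₀ y
  have hmem' : ∀ (g : E) (y : E ⧸ D), ∑ v : V, x₀ (g⁻¹ • (v : E) • y) = 0 := by
    intro g y
    have h := (rho q V D g ⟨x₀, hmem⟩).2 y
    rw [finsum_eq_sum_of_fintype] at h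
    exact h
  let X : (E₀ → ZMod q) → Fn q V D := fun c => ⟨fun y => ∑ g, c g * x₀ ((j g)⁻¹ • y), by
    intro y
    rw [finsum_eq_sum_of_fintype, Finset.sum_comm]
    refine Finset.sum_eq_zero fun g _ => ?_
    rw [← Finset.mul_sum, hmem' (j g) y, mul_zero]⟩
  have hX : ∀ c y, (X c).1 y = ∑ g, c g * x₀ ((j g)⁻¹ • y) := fun _ _ => rfl
  have hXadd : ∀ c c', X (c + c') = X c + X c' := by
    intro c c'
    apply Subtype.ext
    funext y
    change (X (c + c')).1 y = (X c).1 y + (X c').1 y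
    rw [hX, hX, hX, ← Finset.sum_add_distrib]
    refine Finset.sum_congr rfl fun g _ => ?_
    rw [Pi.add_apply, add_mul]
  have hXrho : ∀ g c, X (wrRho q E₀ g c) = rho q V D (j g) (X c) := by
    intro g c
    apply Subtype.ext
    funext y
    rw [rho_apply, hX, hX]
    refine (Fintype.sum_equiv (Equiv.mulLeft g) _ _ fun h => ?_).symm
    change c h * x₀ ((j h)⁻¹ • (j g)⁻¹ • y) = c (g⁻¹ * (g * h)) * x₀ ((j (g * h))⁻¹ • y)
    rw [inv_mul_cancel_left, map_mul, mul_inv_rev, mul_smul]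
  have hone : x₀ y₀ = 1 := by
    change (if y₀ = y₀ then (1 : ZMod q) else 0) - (if y₀ = v₀ • y₀ then 1 else 0) = 1
    rw [if_pos rfl, if_neg, sub_zero]
    intro h
    have h2 : ((1 : E) : E ⧸ D) = ((v₀ * 1 : E) : E ⧸ D) := h
    rw [QuotientGroup.eq] at h2
    apply hv₀D
    simpa using h2
  have hker : ∀ c, X c = 0 → c = 0 := by
    intro c hc
    funext g₀
    have h1 : (X c).1 (j g₀ • y₀) = 0 := by
      rw [hc]
      rfl
    rw [hX, Finset.sum_eq_single g₀] at h1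
    · rw [inv_smul_smul, hone, mul_one] at h1
      exact h1
    · intro g _ hg
      have h2 : x₀ ((j g)⁻¹ • j g₀ • y₀) = 0 := by
        have h3 : ∀ w ∈ V, (j g)⁻¹ • j g₀ • y₀ ≠ w • y₀ := by
          intro w hw h4
          have h5 : (((j g)⁻¹ * (j g₀ * 1) : E) : E ⧸ D) = ((w * 1 : E) : E ⧸ D) := h4
          rw [eq_comm, QuotientGroup.eq] at h5
          obtain ⟨k, hk, i, hki⟩ := hF.hD _ h5
          have h6 : (1 : E)⁻¹ * j (g⁻¹ * g₀) * 1 = (w * k) * b ^ i := by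
            rw [map_mul, map_inv, mul_assoc w, ← hki]
            group
          have h7 := hfree (g⁻¹ * g₀) 1 (w * k) (V.mul_mem hw hk) i h6
          exact hg (by rw [inv_mul_eq_one] at h7; exact h7)
        change (if (j g)⁻¹ • j g₀ • y₀ = y₀ then (1 : ZMod q) else 0)
          - (if (j g)⁻¹ • j g₀ • y₀ = v₀ • y₀ then 1 else 0) = 0
        rw [if_neg, if_neg (h3 v₀ hv₀V), sub_zero]
        intro h4
        apply h3 1 V.one_mem
        rw [h4, one_smul]
      rw [h2, mul_zero]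
    · intro h
      exact absurd (Finset.mem_univ _) h
  let Φ : Wr q E₀ →* SD (rho q V D) := MonoidHom.mk' (fun x => ⟨X x.l, j x.r⟩) (by
    intro x y
    ext1
    · change X (x.l + wrRho q E₀ x.r y.l) = X x.l + rho q V D (j x.r) (X y.l)
      rw [hXadd, hXrho]
    · exact map_mul j _ _)
  refine ⟨Φ, ?_⟩
  rw [injective_iff_map_eq_one]
  intro x hx
  have h1 : X x.l = 0 := congrArg SD.l hx
  have h2 : j x.r = 1 := congrArg SD.r hx
  ext1
  · exact hker _ h1
  · exact hj (by rw [h2]; exact (map_one j).symm)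

end Helper76.PQ
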