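import Pool.Agent.Helper76.PQ.Defs

set_option autoImplicit false

namespace Helper76.PQ

open Helper76.IG

theorem KK_embeds_trans {G H K : Type} [Group G] [Group H] [Group K] (h1 : Embeds G H)
    (h2 : Embeds H K) : Embeds G K := by
  obtain ⟨f, hf⟩ := h1
  obtain ⟨g, hg⟩ := h2
  exact ⟨g.comp f, hg.comp hf⟩

theorem KK_const (r : ℕ) (G : Type) [Group G] :
    Embeds (Multiplicative (ZMod r) × G) (Wr r G) := by
  refine ⟨{ toFun := fun c => (⟨fun _ => Multiplicative.toAdd c.1, c.2⟩ : Wr r G)
            map_one' := rfl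
            map_mul' := fun c d => rfl }, ?_⟩
  intro c d h
  have h1 := congrArg SD.l h
  have h2 := congrArg SD.r h
  have h3 := congrFun h1 1
  exact Prod.ext h3 h2

theorem KK_pi {r : ℕ} (X : (G : Type) → [Group G] → Prop)
    (hsub : ∀ (G H : Type) [Group G] [Group H], Embeds H G → X G → X H) (hr0 : r ≠ 0)
    (hwr : ∀ (G : Type) [Group G] [Finite G], X G → X (Wr r G)) (m : ℕ) (G : Type) [Group G]
    [Finite G] (hG : X G) : X (Multiplicative (Fin m → ZMod r) × G) := by
  have : NeZero r := ⟨hr0⟩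
  induction m with
  | zero =>
    refine hsub G _ ⟨MonoidHom.snd _ _, ?_⟩ hG
    intro c d h
    refine Prod.ext ?_ h
    apply Multiplicative.toAdd.injective
    funext i
    exact i.elim0
  | succ m ih =>
    have h1 : X (Multiplicative (ZMod r) × (Multiplicative (Fin m → ZMod r) × G)) :=
      hsub _ _ (KK_const r _) (hwr _ ih)
    refine hsub _ _ ⟨{ toFun := fun c => (Multiplicative.ofAdd (Multiplicative.toAdd c.1 0),
              (Multiplicative.ofAdd (fun i => Multiplicative.toAdd c.1 (Fin.succ i)), c.2))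
                       map_one' := rfl
                       map_mul' := fun c d => rfl }, ?_⟩ h1
    intro c d h
    simp only [MonoidHom.coe_mk, OneHom.coe_mk, Prod.mk.injEq] at h
    obtain ⟨h2, h3, h4⟩ := h
    refine Prod.ext ?_ h4
    apply Multiplicative.toAdd.injective
    funext i
    refine Fin.cases ?_ (fun i => ?_) i
    · exact h2
    · exact congrFun h3 i

/-- Kaluzhnin-Krasner for an elementary abelian kernel -/
theorem KK_embed {r : ℕ} (H : Type) [Group H] (N : Subgroup H) [N.Normal] (k : ℕ)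
    (e : Additive N →+ (Fin k → ZMod r)) (he : Function.Injective e) :
    Embeds H (Wr r (Multiplicative (Fin k → ZMod r) × (H ⧸ N))) := by
  classical
  set s : H ⧸ N → H := fun x => Quotient.out x with hs
  have hsx : ∀ x : H ⧸ N, ((s x : H) : H ⧸ N) = x := fun x => Quotient.out_eq x
  have hmem : ∀ (h : H) (x : H ⧸ N), (s x)⁻¹ * h * s ((h : H ⧸ N)⁻¹ * x) ∈ N := by
    intro h x
    rw [← QuotientGroup.eq_one_iff]
    rw [QuotientGroup.mk_mul, QuotientGroup.mk_mul, QuotientGroup.mk_inv, hsx, hsx]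
    group
  set f : H → (H ⧸ N) → N := fun h x => ⟨(s x)⁻¹ * h * s ((h : H ⧸ N)⁻¹ * x), hmem h x⟩ with hf
  have hf1 : ∀ x, f 1 x = 1 := by
    intro x
    apply Subtype.ext
    simp only [hf, QuotientGroup.mk_one, inv_one, one_mul, mul_one, Subgroup.coe_one,
      inv_mul_cancel]
  have hfm : ∀ g h x, f (g * h) x = f g x * f h ((g : H ⧸ N)⁻¹ * x) := by
    intro g h x
    apply Subtype.ext
    simp only [hf, Subgroup.coe_mul, QuotientGroup.mk_mul, mul_inv_rev, mul_assoc]
    group
  refine ⟨{ toFun := fun h => (⟨fun y => ∑ i, e (Additive.ofMul (f h y.2)) i *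
              (Multiplicative.toAdd y.1) i, (1, (h : H ⧸ N))⟩ :
                Wr r (Multiplicative (Fin k → ZMod r) × (H ⧸ N)))
            map_one' := ?_
            map_mul' := ?_ }, ?_⟩
  · ext y
    · simp only [hf1, SD.one_l]
      have : e (Additive.ofMul 1) = 0 := e.map_zero
      rw [this]
      simp
    · rfl
    · rfl
  · intro g h
    ext y
    · simp only [SD.mul_l]
      change _ = (∑ i, e (Additive.ofMul (f g y.2)) i * (Multiplicative.toAdd y.1) i) +
        (∑ i, e (Additive.ofMul (f h (((1 : Multiplicative (Fin k → ZMod r)),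
          (g : H ⧸ N))⁻¹ * y).2)) i *
          (Multiplicative.toAdd (((1 : Multiplicative (Fin k → ZMod r)), (g : H ⧸ N))⁻¹ * y).1) i)
      have h1 : (((1 : Multiplicative (Fin k → ZMod r)), (g : H ⧸ N))⁻¹ * y).2 =
        (g : H ⧸ N)⁻¹ * y.2 := rfl
      have h2 : (((1 : Multiplicative (Fin k → ZMod r)), (g : H ⧸ N))⁻¹ * y).1 = y.1 := by
        change (1 : Multiplicative (Fin k → ZMod r))⁻¹ * y.1 = y.1
        rw [inv_one, one_mul]
      rw [h1, h2, hfm, ofMul_mul, map_add, ← Finset.sum_add_distrib]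
      refine Finset.sum_congr rfl ?_
      intro i _
      rw [Pi.add_apply, add_mul]
    · simp
    · simp
  · intro g h hgh
    simp only [MonoidHom.coe_mk, OneHom.coe_mk, SD.mk.injEq, Prod.mk.injEq, true_and] at hgh
    obtain ⟨h1, h2⟩ := hgh
    have h3 : f g 1 = f h 1 := by
      apply Additive.ofMul.injective
      apply he
      funext i
      have := congrFun h1 (Multiplicative.ofAdd (Pi.single i 1), 1)
      simpa [Pi.single_apply] using this
    have h4 := congrArg Subtype.val h3
    simp only [hf, h2] at h4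
    exact mul_left_cancel (mul_right_cancel h4)

theorem KK_basis0 (r : ℕ) [Fact r.Prime] (V : Type) [AddCommGroup V] [Module (ZMod r) V]
    [Module.Finite (ZMod r) V] :
    ∃ (k : ℕ) (e : V →+ (Fin k → ZMod r)), Function.Injective e := by
  let bs := Module.finBasis (ZMod r) V
  exact ⟨_, bs.equivFun.toLinearMap.toAddMonoidHom, bs.equivFun.injective⟩

theorem KK_basis (r : ℕ) [Fact r.Prime] (V : Type) [AddCommGroup V] [Finite V]
    (h : ∀ x : V, r • x = 0) :
    ∃ (k : ℕ) (e : V →+ (Fin k → ZMod r)), Function.Injective e := by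
  let i3 : Module (ZMod r) V := AddCommGroup.zmodModule h
  exact @KK_basis0 r _ V _ i3 (@Module.Finite.of_finite _ _ _ _ i3 _)

/-- a nontrivial finite soluble group has a nontrivial normal elementary abelian subgroup -/
theorem KK_normal (H : Type) [Group H] [Finite H] [Group.IsSolvable H] [Nontrivial H] :
    ∃ (r : ℕ) (N : Subgroup H), r.Prime ∧ r ∣ Nat.card H ∧ N.Normal ∧ N ≠ ⊥ ∧
      (∀ x ∈ N, x ^ r = 1) ∧ (∀ x ∈ N, ∀ y ∈ N, x * y = y * x) := by
  classical
  have hex : ∃ n : ℕ, derivedSeries H n = ⊥ := Group.IsSolvable.solvable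
  obtain ⟨n, hn⟩ : ∃ n, Nat.find hex = n + 1 := by
    refine ⟨Nat.find hex - 1, ?_⟩
    have : Nat.find hex ≠ 0 := by
      intro h0
      have h1 := Nat.find_spec hex
      rw [h0, derivedSeries_zero] at h1
      exact top_ne_bot h1
    omega
  have hA1 : derivedSeries H (n + 1) = ⊥ := hn ▸ Nat.find_spec hex
  have hA0 : derivedSeries H n ≠ ⊥ := Nat.find_min hex (by omega)
  set A := derivedSeries H n with hA
  have hAn : A.Normal := derivedSeries_normal H n
  have hcomm : ∀ x ∈ A, ∀ y ∈ A, x * y = y * x := by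
    rw [derivedSeries_succ, Subgroup.commutator_eq_bot_iff_le_centralizer] at hA1
    intro x hx y hy
    exact ((Subgroup.mem_centralizer_iff.mp (hA1 hx)) y hy).symm
  obtain ⟨r, hr, hrA⟩ : ∃ r : ℕ, r.Prime ∧ r ∣ Nat.card A := by
    apply Nat.exists_prime_and_dvd
    intro h
    exact hA0 (Subgroup.card_eq_one.mp h)
  have : Fact r.Prime := ⟨hr⟩
  obtain ⟨x, hx⟩ := exists_prime_orderOf_dvd_card' r hrA
  refine ⟨r, { carrier := {x | x ∈ A ∧ x ^ r = 1}
               one_mem' := ⟨A.one_mem, one_pow _⟩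
               mul_mem' := ?_
               inv_mem' := ?_ }, hr, hrA.trans (Subgroup.card_subgroup_dvd_card A), ?_, ?_, ?_, ?_⟩
  · rintro a b ⟨ha, ha'⟩ ⟨hb, hb'⟩
    refine ⟨A.mul_mem ha hb, ?_⟩
    rw [(show Commute a b from hcomm a ha b hb).mul_pow, ha', hb', one_mul]
  · rintro a ⟨ha, ha'⟩
    exact ⟨A.inv_mem ha, by rw [inv_pow, ha', inv_one]⟩
  · refine ⟨?_⟩
    rintro a ⟨ha, ha'⟩ g
    refine ⟨hAn.conj_mem a ha g, ?_⟩
    rw [conj_pow, ha', mul_one, mul_inv_cancel]
  · intro hbot
    have h1 : (x : H) ∈ (⊥ : Subgroup H) := by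
      rw [← hbot]
      refine ⟨x.2, ?_⟩
      have := pow_orderOf_eq_one x
      rw [hx] at this
      exact_mod_cast congrArg Subtype.val this
    rw [Subgroup.mem_bot] at h1
    have h2 : x = 1 := Subtype.ext h1
    rw [h2, orderOf_one] at hx
    exact hr.one_lt.ne hx
  · rintro a ⟨_, ha'⟩
    exact ha'
  · rintro a ⟨ha, _⟩ b ⟨hb, _⟩
    exact hcomm a ha b hb

/-- a class of groups that is closed under subgroups and under wreath products with `C_p` and
`C_q` contains all finite soluble `{p, q}`-groups -/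
theorem closure {p q : ℕ} (hp : p.Prime) (hq : q.Prime) (X : (G : Type) → [Group G] → Prop)
    (hsub : ∀ (G H : Type) [Group G] [Group H], Embeds H G → X G → X H)
    (hone : ∀ (G : Type) [Group G] [Subsingleton G], X G)
    (hwp : ∀ (G : Type) [Group G] [Finite G], X G → X (Wr p G))
    (hwq : ∀ (G : Type) [Group G] [Finite G], X G → X (Wr q G))
    (H : Type) [Group H] [Finite H] [Group.IsSolvable H]
    (hH : ∀ r : ℕ, r.Prime → r ∣ Nat.card H → r = p ∨ r = q) : X H := by
  obtain ⟨m, hm⟩ : ∃ m, Nat.card H = m := ⟨_, rfl⟩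
  induction m using Nat.strong_induction_on generalizing H with
  | _ m ih =>
    rcases subsingleton_or_nontrivial H with h | h
    · exact hone H
    obtain ⟨r, N, hr, hrH, hN, hN0, hNr, hNc⟩ := KK_normal H
    have : Fact r.Prime := ⟨hr⟩
    have hwr : ∀ (G : Type) [Group G] [Finite G], X G → X (Wr r G) := by
      rcases hH r hr hrH with h1 | h1
      · rw [h1]; exact hwp
      · rw [h1]; exact hwq
    have hcard : Nat.card H = Nat.card (H ⧸ N) * Nat.card N := Subgroup.card_eq_card_quotient_mul_card_subgroup N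
    have hN1 : 1 < Nat.card N := by
      have h1 : 0 < Nat.card N := Nat.card_pos
      have h2 : Nat.card N ≠ 1 := fun h => hN0 (Subgroup.card_eq_one.mp h)
      omega
    have hQ0 : 0 < Nat.card (H ⧸ N) := Nat.card_pos
    have hQ : X (H ⧸ N) := by
      refine ih (Nat.card (H ⧸ N)) ?_ (H ⧸ N) ?_ rfl
      · rw [← hm, hcard]
        nlinarith
      · intro r' hr' hd
        exact hH r' hr' (hd.trans ⟨_, hcard⟩)
    let i1 : CommGroup N := { (inferInstance : Group N) with
      mul_comm := fun x y => Subtype.ext (hNc x x.2 y y.2) }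
    obtain ⟨k, e, he⟩ := @KK_basis r _ (Additive N) (@Additive.addCommGroup N i1)
      (inferInstanceAs (Finite N)) (by
        intro x
        have h1 : (Additive.toMul x) ^ r = 1 := by
          apply Subtype.ext
          have := hNr _ (Additive.toMul x).2
          exact_mod_cast this
        exact congrArg Additive.ofMul h1)
    refine hsub _ _ (KK_embed H N k e he) ?_
    exact hwr _ (KK_pi X hsub hr.ne_zero hwr _ _ hQ)

end Helper76.PQ
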