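import Pool.Agent.Helper76.PQ.Defs

set_option autoImplicit false

namespace Helper76.PQ

open Helper76.IG
open scoped commutatorElement

/-- an element of prime-power order prime to the index is conjugate into the subgroup -/
theorem Nec_conj {p : ℕ} (hp : p.Prime) {G : Type} [Group G] [Finite G] {a : G} (ha : a ^ p = 1)
    (M : Subgroup G) (hM : ¬ p ∣ Nat.card (G ⧸ M)) : ∃ g : G, g⁻¹ * a * g ∈ M := by
  have : Fact p.Prime := ⟨hp⟩
  have hP : IsPGroup p (Subgroup.zpowers a) := by
    rintro ⟨x, hx⟩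
    obtain ⟨n, rfl⟩ := Subgroup.mem_zpowers_iff.1 hx
    refine ⟨1, Subtype.ext ?_⟩
    change (a ^ n) ^ p ^ 1 = 1
    rw [pow_one, ← zpow_natCast, ← zpow_mul, mul_comm, zpow_mul, zpow_natCast, ha, one_zpow]
  obtain ⟨y, hy⟩ := hP.nonempty_fixed_point_of_prime_not_dvd_card (G ⧸ M) hM
  obtain ⟨g, rfl⟩ := QuotientGroup.mk_surjective y
  refine ⟨g, ?_⟩
  have h1 := hy ⟨a, Subgroup.mem_zpowers a⟩
  have h2 : ((a * g : G) : G ⧸ M) = (g : G ⧸ M) := h1
  have h3 := QuotientGroup.eq.1 h2.symm
  rw [mul_assoc]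
  exact h3

/-- a nontrivial finite soluble group has a nontrivial normal subgroup of prime-power order -/
theorem Nec_normal (G : Type) [Group G] [Finite G] [Group.IsSolvable G] [Nontrivial G] :
    ∃ (s : ℕ) (N : Subgroup G), s.Prime ∧ N.Normal ∧ N ≠ ⊥ ∧ IsPGroup s N := by
  classical
  have hsol : ∃ n, derivedSeries G n = ⊥ := Group.IsSolvable.solvable
  set n := Nat.find hsol with hn
  have hn0 : derivedSeries G n = ⊥ := Nat.find_spec hsol
  have hn1 : n ≠ 0 := by
    intro h
    rw [h, derivedSeries_zero] at hn0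
    exact top_ne_bot hn0
  obtain ⟨k, hk⟩ := Nat.exists_eq_succ_of_ne_zero hn1
  set A := derivedSeries G k with hA
  have hA0 : A ≠ ⊥ := fun h => Nat.find_min hsol (show k < Nat.find hsol by omega) h
  have hcomm : ∀ x ∈ A, ∀ y ∈ A, x * y = y * x := by
    intro x hx y hy
    have h1 : ⁅x, y⁆ ∈ ⁅A, A⁆ := Subgroup.commutator_mem_commutator hx hy
    have h2 : ⁅A, A⁆ = ⊥ := by
      rw [hA, ← derivedSeries_succ, ← Nat.succ_eq_add_one, ← hk]; exact hn0
    rw [h2, Subgroup.mem_bot, commutatorElement_eq_one_iff_mul_comm] at h1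
    exact h1
  have : Nontrivial A := (Subgroup.nontrivial_iff_ne_bot A).2 hA0
  have hcard : Nat.card A ≠ 1 := by
    intro h
    have := Finite.one_lt_card (α := A)
    omega
  obtain ⟨s, hs, hsd⟩ := Nat.exists_prime_and_dvd hcard
  have : Fact s.Prime := ⟨hs⟩
  have hAn : A.Normal := derivedSeries_normal G k
  let N : Subgroup G :=
    { carrier := {x | x ∈ A ∧ x ^ s = 1}
      one_mem' := ⟨A.one_mem, one_pow s⟩
      mul_mem' := by
        rintro x y ⟨hx, hx'⟩ ⟨hy, hy'⟩
        refine ⟨A.mul_mem hx hy, ?_⟩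
        rw [(show Commute x y from hcomm x hx y hy).mul_pow, hx', hy', one_mul]
      inv_mem' := by
        rintro x ⟨hx, hx'⟩
        refine ⟨A.inv_mem hx, ?_⟩
        rw [inv_pow, hx', inv_one] }
  refine ⟨s, N, hs, ?_, ?_, ?_⟩
  · constructor
    rintro x ⟨hx, hx'⟩ g
    refine ⟨hAn.conj_mem x hx g, ?_⟩
    rw [conj_pow, hx', mul_one, mul_inv_cancel]
  · obtain ⟨x, hx⟩ := exists_prime_orderOf_dvd_card' s hsd
    intro hN
    have h1 : (x : G) ∈ N := by
      refine ⟨x.2, ?_⟩
      have : x ^ s = 1 := by rw [← hx]; exact pow_orderOf_eq_one x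
      exact congrArg Subtype.val this
    rw [hN, Subgroup.mem_bot] at h1
    have h2 : x = 1 := Subtype.ext h1
    rw [h2, orderOf_one] at hx
    exact hs.one_lt.ne hx
  · rintro ⟨x, hx⟩
    refine ⟨1, Subtype.ext ?_⟩
    change x ^ s ^ 1 = 1
    rw [pow_one]
    exact hx.2

theorem Nec_main {p q : ℕ} (hp : p.Prime) (hq : q.Prime) : ∀ (n : ℕ) (G : Type) [Group G]
    [Finite G] [Group.IsSolvable G], Nat.card G ≤ n → ∀ a b : G, a ^ p = 1 → b ^ q = 1 →
    InvGen a b → ∀ r : ℕ, r.Prime → r ∣ Nat.card G → r = p ∨ r = q := by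
  intro n
  induction n with
  | zero =>
    intro G _ _ _ hG
    have := Nat.card_pos (α := G)
    omega
  | succ n ih =>
    intro G _ _ _ hG a b ha hb hab r hr hrG
    rcases subsingleton_or_nontrivial G with h | h
    · rw [Nat.card_unique] at hrG
      exact absurd (Nat.dvd_one.1 hrG) hr.one_lt.ne'
    obtain ⟨s, N, hs, hNn, hN, hNs⟩ := Nec_normal G
    have : Fact s.Prime := ⟨hs⟩
    have hcard : Nat.card G = Nat.card (G ⧸ N) * Nat.card N := Subgroup.card_eq_card_quotient_mul_card_subgroup N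
    have hN1 : 1 < Nat.card N := by
      have : Nontrivial N := (Subgroup.nontrivial_iff_ne_bot N).2 hN
      exact Finite.one_lt_card
    have hlt : Nat.card (G ⧸ N) ≤ n := by
      have h0 := Nat.card_pos (α := G ⧸ N)
      have : Nat.card (G ⧸ N) * 1 < Nat.card (G ⧸ N) * Nat.card N :=
        Nat.mul_lt_mul_of_pos_left hN1 h0
      omega
    have hquo := ih (G ⧸ N) hlt (QuotientGroup.mk' N a) (QuotientGroup.mk' N b)
      (by rw [← map_pow, ha, map_one]) (by rw [← map_pow, hb, map_one])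
      (hab.map (QuotientGroup.mk' N) (QuotientGroup.mk'_surjective N))
    obtain ⟨k, hk⟩ := IsPGroup.iff_card.1 hNs
    by_cases hspq : s = p ∨ s = q
    · rw [hcard] at hrG
      rcases (Nat.Prime.dvd_mul hr).1 hrG with h1 | h1
      · exact hquo r hr h1
      · rw [hk] at h1
        rw [(Nat.prime_dvd_prime_iff_eq hr hs).1 (hr.dvd_of_dvd_pow h1)]
        exact hspq
    · exfalso
      push Not at hspq
      have hcop : Nat.Coprime (Nat.card N) N.index := by
        rw [hk]
        refine Nat.Coprime.pow_left k ((Nat.Prime.coprime_iff_not_dvd hs).2 ?_)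
        intro h1
        rcases hquo s hs h1 with h2 | h2
        · exact hspq.1 h2
        · exact hspq.2 h2
      obtain ⟨M, hM⟩ := Subgroup.exists_right_complement'_of_coprime hcop
      have hidx : Nat.card (G ⧸ M) = s ^ k := by
        rw [← hk]
        exact hM.index_eq_card
      have hnd : ∀ t : ℕ, t.Prime → s ≠ t → ¬ t ∣ Nat.card (G ⧸ M) := by
        intro t ht hst h1
        rw [hidx] at h1
        exact hst ((Nat.prime_dvd_prime_iff_eq ht hs).1 (ht.dvd_of_dvd_pow h1)).symm
      obtain ⟨g, hg⟩ := Nec_conj hp ha M (hnd p hp hspq.1)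
      obtain ⟨g', hg'⟩ := Nec_conj hq hb M (hnd q hq hspq.2)
      have hMtop : M = ⊤ := hab.eq_top hg hg'
      apply hN
      have h1 := hM.disjoint
      rw [hMtop] at h1
      exact disjoint_top.1 h1

/-- a finite soluble group that is invariably generated by an element of order `p` and an element
of order `q` is a `{p, q}`-group -/
theorem nec {p q : ℕ} (hp : p.Prime) (hq : q.Prime) {G : Type} [Group G] [Finite G]
    [Group.IsSolvable G] (h : IsIG p q G) : ∀ r : ℕ, r.Prime → r ∣ Nat.card G → r = p ∨ r = q := by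
  obtain ⟨a, b, ha, hb, hab⟩ := h
  exact Nec_main hp hq (Nat.card G) G le_rfl a b (by rw [← ha]; exact pow_orderOf_eq_one a)
    (by rw [← hb]; exact pow_orderOf_eq_one b) hab

end Helper76.PQ
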