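import Pool.Agent.Helper76.PQ.Step
import Pool.Agent.Helper76.PQ.Free
import Pool.Agent.Helper76.PQ.KK
import Pool.Agent.Helper76.PQ.Nec
import Pool.Agent.Helper76.PQ.BaseA
import Pool.Agent.Helper76.PQ.BaseB
import Pool.Agent.Helper76.PQ.BaseC

/-!
# The towers of frames and the main theorem
-/

set_option autoImplicit false

namespace Helper76.PQ

open Helper76.IG

/-- `H` embeds in a finite soluble group that carries a frame -/
def HasFr (p q : ℕ) (H : Type) [Group H] : Prop :=
  ∃ (E : Type) (_ : Group E) (_ : Finite E) (V D : Subgroup E) (a b : E),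
    Group.IsSolvable E ∧ Frame p q E V D a b ∧ Embeds H E

theorem Main_sd_solvable {E U : Type} [Group E] [AddCommGroup U] (ρ : E →* AddMonoid.End U)
    (hE : Group.IsSolvable E) : Group.IsSolvable (SD ρ) := by
  have h1 : Group.IsSolvable (SD.toE ρ).ker := by
    have hc : ∀ x y : (SD.toE ρ).ker, x * y = y * x := by
      rintro ⟨x, hx⟩ ⟨y, hy⟩
      rw [SD.mem_ker] at hx hy
      apply Subtype.ext
      change x * y = y * x
      ext
      · rw [SD.mul_l, SD.mul_l, hx, hy, SD.rho_one, SD.rho_one, add_comm]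
      · rw [SD.mul_r, SD.mul_r, hx, hy]
    exact Group.isSolvable_of_comm hc
  exact Group.isSolvable_of_ker_le_range (SD.toE ρ).ker.subtype (SD.toE ρ)
    (by rw [Subgroup.range_subtype])

theorem Main_step {p q : ℕ} (hp : p.Prime) (hq : q.Prime) (hpq : p ≠ q) {E : Type} [Group E]
    [Finite E] (hE : Group.IsSolvable E) {V D : Subgroup E} {a b : E} (hF : Frame p q E V D a b)
    {H : Type} [Group H] (hH : Embeds H E) : HasFr q p H := by
  haveI := hF.norm
  obtain ⟨D', b', hF'⟩ := step hp hq hpq hF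
  haveI : NeZero q := ⟨hq.ne_zero⟩
  obtain ⟨f, hf⟩ := hH
  exact ⟨SD (rho q V D), inferInstance, inferInstance, _, D', b', _, Main_sd_solvable _ hE, hF',
    (SD.inr _).comp f, (SD.inr_injective _).comp hf⟩

theorem HasFr.shift {p q : ℕ} (hp : p.Prime) (hq : q.Prime) (hpq : p ≠ q) {H : Type} [Group H]
    (h : HasFr p q H) : HasFr q p H := by
  obtain ⟨E, _, _, V, D, a, b, hE, hF, hH⟩ := h
  exact Main_step hp hq hpq hE hF hH

theorem HasFr.sub {p q : ℕ} {G H : Type} [Group G] [Group H] (hHG : Embeds H G)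
    (h : HasFr p q G) : HasFr p q H := by
  obtain ⟨E, i1, i2, V, D, a, b, hE, hF, f, hf⟩ := h
  obtain ⟨k, hk⟩ := hHG
  exact ⟨E, i1, i2, V, D, a, b, hE, hF, f.comp k, hf.comp hk⟩

/-- the wreath product with `C_q` -/
theorem HasFr.wr {p q : ℕ} (hp : p.Prime) (hq : q.Prime) (hpq : p ≠ q) {H : Type} [Group H]
    [Finite H] (h : HasFr p q H) : HasFr q p (Wr q H) := by
  obtain ⟨E, _, _, V, D, a, b, hE, hF, f, hf⟩ := h
  haveI := hF.norm
  haveI : NeZero q := ⟨hq.ne_zero⟩
  haveI : NeZero p := ⟨hp.ne_zero⟩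
  obtain ⟨D', b', hF'⟩ := step hp hq hpq hF
  haveI := hF'.norm
  obtain ⟨D'', b'', hF''⟩ := step hq hp hpq.symm hF'
  haveI := hF''.norm
  -- `hF'' : Frame p q (SD (rho p ker D')) ker D'' b'' (inr b')`
  have hemb : Embeds (Wr q H) (SD (rho q (SD.toE (rho p (SD.toE (rho q V D)).ker D')).ker D'')) := by
    refine wreath_embeds hp hq hpq hF''
      ((SD.inr (rho p (SD.toE (rho q V D)).ker D')).comp ((SD.inr (rho q V D)).comp f))
      ((SD.inr_injective _).comp ((SD.inr_injective _).comp hf)) ?_
    intro g h v hv i hg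
    have h1 := congrArg (SD.toE (rho p (SD.toE (rho q V D)).ker D')) hg
    rw [map_mul, map_mul, map_mul, map_pow, map_inv, MonoidHom.mem_ker.1 hv, one_mul] at h1
    set k : SD (rho q V D) := SD.toE (rho p (SD.toE (rho q V D)).ker D') h with hk
    have h2 : k⁻¹ * SD.inr (rho q V D) (f g) * k = b' ^ i := h1
    clear h1
    by_cases hb : b' ^ i = 1
    · rw [hb] at h2
      have h3 : SD.inr (rho q V D) (f g) = 1 := by
        have : SD.inr (rho q V D) (f g) = k * (k⁻¹ * SD.inr (rho q V D) (f g) * k) * k⁻¹ := by group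
        rw [this, h2]
        group
      exact hf (by rw [map_one]; exact SD.inr_injective _ (by rw [h3, map_one]))
    · exfalso
      -- `b'` is a power of `b' ^ i`
      have hbq : b' ^ q = 1 := hF'.ha
      have hiq : Nat.Coprime i q := by
        rw [Nat.coprime_comm, hq.coprime_iff_not_dvd]
        rintro ⟨c, rfl⟩
        apply hb
        rw [pow_mul, hbq, one_pow]
      obtain ⟨m, hm⟩ : ∃ m : ℕ, (b' ^ i) ^ m = b' := by
        obtain ⟨m, hm⟩ := Nat.exists_mul_mod_eq_one_of_coprime hiq hq.one_lt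
        refine ⟨m, ?_⟩
        rw [← pow_mul, ← Nat.mod_add_div (i * m) q, hm.2, pow_add, pow_one, pow_mul, hbq, one_pow,
          mul_one]
      have h4 : (k⁻¹)⁻¹ * b' * k⁻¹ ∈ (SD.inr (rho q V D)).range := by
        rw [← hm, ← h2]
        refine ⟨f g ^ m, ?_⟩
        rw [map_pow]
        have : ∀ n : ℕ, (k⁻¹ * SD.inr (rho q V D) (f g) * k) ^ n =
            k⁻¹ * SD.inr (rho q V D) (f g) ^ n * k := by
          intro n
          induction n with
          | zero => simp
          | succ n ih => rw [pow_succ, ih, pow_succ]; group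
        rw [this]
        group
      have h5 : (1 : SD (rho q V D))⁻¹ * SD.inr (rho q V D) a * 1 ∈ (SD.inr (rho q V D)).range := by
        rw [inv_one, one_mul, mul_one]
        exact ⟨a, rfl⟩
      have h6 := hF'.ig.eq_top h4 h5
      obtain ⟨v₀, hv₀, hv₀D, -⟩ := hF'.cyc
      apply hv₀D
      have h7 : v₀ ∈ (SD.inr (rho q V D)).range := by rw [h6]; exact Subgroup.mem_top _
      obtain ⟨e, rfl⟩ := h7
      rw [SD.mem_ker, SD.inr_r] at hv₀
      rw [hv₀, map_one]
      exact one_mem _
  obtain ⟨D₃, b₃, hF₃⟩ := step hp hq hpq hF''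
  exact ⟨SD (rho q (SD.toE (rho p (SD.toE (rho q V D)).ker D')).ker D''), inferInstance,
    inferInstance, _, D₃, b₃, _,
    Main_sd_solvable _ (Main_sd_solvable _ (Main_sd_solvable _ hE)), hF₃, hemb⟩

theorem Frame.isIG {p q : ℕ} (hp : p.Prime) (hq : q.Prime) (hpq : p ≠ q) {E : Type} [Group E]
    [Finite E] {V D : Subgroup E} {a b : E} (hF : Frame p q E V D a b) : IsIG p q E := by
  refine ⟨a, b, ?_, ?_, hF.ig⟩
  · have := Fact.mk hp
    refine orderOf_eq_prime hF.ha ?_
    rintro rfl
    exact hF.haV (one_mem _)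
  · have := Fact.mk hq
    exact orderOf_eq_prime hF.hb (hF.b_ne_one hp)

/-- there are frames for all pairs of primes -/
theorem exists_frame {p q : ℕ} (hp : p.Prime) (hq : q.Prime) (hpq : p ≠ q) (G : Type) [Group G]
    [Subsingleton G] : HasFr p q G := by
  have htriv : ∀ {r s : ℕ}, (∃ (E : Type) (_ : Group E) (_ : Finite E) (V D : Subgroup E) (a b : E),
      Group.IsSolvable E ∧ Frame r s E V D a b) → HasFr r s G := by
    rintro r s ⟨E, i1, i2, V, D, a, b, hE, hF⟩
    exact ⟨E, i1, i2, V, D, a, b, hE, hF, 1, Function.injective_of_subsingleton _⟩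
  -- one of the primes is at least 3
  have h2 : ∀ {r s : ℕ}, r.Prime → s.Prime → r ≠ s → r < s → HasFr r s G := by
    intro r s hr hs hrs hlt
    by_cases hr2 : r = 2
    · subst hr2
      by_cases hs3 : s = 3
      · subst hs3
        exact (htriv baseC).shift Nat.prime_three Nat.prime_two (by decide)
      · have h5 : 5 ≤ s := by
          have h4 : s ≠ 4 := by
            rintro rfl
            exact absurd hs (by decide)
          have := hs.two_le
          omega
        exact htriv (baseB hs h5)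
    · have hr3 : 3 ≤ r := by
        have := hr.two_le
        omega
      have hs5 : 5 ≤ s := by
        have h4 : s ≠ 4 := by
          rintro rfl
          exact absurd hs (by decide)
        omega
      exact (htriv (baseA hs hr hrs.symm hs5 hr3)).shift hs hr hrs.symm
  rcases lt_or_gt_of_ne hpq with h | h
  · exact h2 hp hq hpq h
  · exact (h2 hq hp hpq.symm h).shift hq hp hpq.symm

/-- **Theorem.** For primes `p ≠ q`, a finite group embeds in a finite soluble group that is
invariably generated by an element of order `p` and an element of order `q` if and only if it is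
a soluble `{p, q}`-group. -/
theorem main {p q : ℕ} (hp : p.Prime) (hq : q.Prime) (hpq : p ≠ q) (H : Type) [Group H]
    [Finite H] :
    (∃ (G : Type) (_ : Group G) (_ : Finite G), Group.IsSolvable G ∧ IsIG p q G ∧ Embeds H G) ↔
      Group.IsSolvable H ∧ ∀ r : ℕ, r.Prime → r ∣ Nat.card H → r = p ∨ r = q := by
  constructor
  · rintro ⟨G, _, _, hG, hIG, f, hf⟩
    refine ⟨Group.isSolvable_of_isSolvable_injective hf, fun r hr hrH => ?_⟩
    exact nec hp hq hIG r hr (hrH.trans (Subgroup.card_dvd_of_injective f hf))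
  · rintro ⟨hH, hcard⟩
    have hX : HasFr p q H := by
      refine closure hp hq (fun G _ => HasFr p q G) ?_ ?_ ?_ ?_ H hcard
      · intro G K _ _ hKG hG
        exact hG.sub hKG
      · intro G _ _
        exact exists_frame hp hq hpq G
      · intro G _ _ hG
        exact (hG.shift hp hq hpq).wr hq hp hpq.symm
      · intro G _ _ hG
        exact ((hG.wr hp hq hpq).shift hq hp hpq.symm)
    obtain ⟨E, i1, i2, V, D, a, b, hE, hF, hH'⟩ := hX
    exact ⟨E, i1, i2, hE, hF.isIG hp hq hpq, hH'⟩

end Helper76.PQ
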