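import Pool.Agent.Helper76.PQ.Defs

set_option autoImplicit false

namespace Helper76.PQ

open Helper76.IG

section Norm

variable {E : Type} [Group E] {V D : Subgroup E}

theorem Norm_fix_iff (v h : E) : v • (h : E ⧸ D) = (h : E ⧸ D) ↔ h⁻¹ * v * h ∈ D := by
  rw [← D.inv_mem_iff]
  change ((v * h : E) : E ⧸ D) = (h : E ⧸ D) ↔ _
  rw [QuotientGroup.eq]
  have : (v * h)⁻¹ * h = (h⁻¹ * v * h)⁻¹ := by group
  rw [this]

theorem Norm_conj (hV : V.Normal) {v : E} (hv : v ∈ V) (g : E) : g * v * g⁻¹ ∈ V :=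
  hV.conj_mem v hv g

theorem Norm_conj' (hV : V.Normal) {v : E} (hv : v ∈ V) (g : E) : g⁻¹ * v * g ∈ V := by
  have := hV.conj_mem v hv g⁻¹
  rwa [inv_inv] at this

variable [Finite E]

theorem Norm_move {p : ℕ} {b : E} (hF : Pre p E V D b) (y : E ⧸ D) : ∃ v ∈ V, v • y ≠ y := by
  obtain ⟨h, rfl⟩ := QuotientGroup.mk_surjective y
  obtain ⟨v₀, h1, h2, -⟩ := hF.cyc
  refine ⟨h * v₀ * h⁻¹, hF.norm.conj_mem v₀ h1 h, ?_⟩
  rw [Ne, Norm_fix_iff]
  have : h⁻¹ * (h * v₀ * h⁻¹) * h = v₀ := by group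
  rw [this]
  exact h2

/-- indicator -/
noncomputable def Norm_ind (q : ℕ) (P : Prop) : ZMod q := by
  classical exact if P then 1 else 0

theorem Norm_ind_pos {q : ℕ} {P : Prop} (h : P) : Norm_ind q P = 1 := by
  unfold Norm_ind; exact if_pos h

theorem Norm_ind_neg {q : ℕ} {P : Prop} (h : ¬ P) : Norm_ind q P = 0 := by
  unfold Norm_ind; exact if_neg h

/-- the test function -/
noncomputable def Norm_tst (q : ℕ) (V D : Subgroup E) (y : E ⧸ D) (v : V) : Fn q V D :=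
  ⟨fun y' => Norm_ind q (y' = y) - Norm_ind q (y' = (v : E) • y), by
    intro y'
    change ∑ᶠ w : V, (Norm_ind q ((w : E) • y' = y) - Norm_ind q ((w : E) • y' = (v : E) • y)) = 0
    rw [finsum_sub_distrib (Set.toFinite _) (Set.toFinite _), sub_eq_zero]
    have h1 : ∀ w : V, Norm_ind q ((w : E) • y' = y) =
        Norm_ind q (((Equiv.mulLeft v w : V) : E) • y' = (v : E) • y) := by
      intro w
      congr 1
      rw [Equiv.coe_mulLeft, Subgroup.coe_mul, mul_smul, smul_left_cancel_iff]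
    rw [finsum_congr h1]
    exact finsum_comp_equiv (Equiv.mulLeft v)
      (f := fun w : V => Norm_ind q ((w : E) • y' = (v : E) • y))⟩

theorem Norm_sum_ind (q : ℕ) (Z : Set (E ⧸ D)) (y : E ⧸ D) :
    ∑ᶠ z : Z, Norm_ind q ((z : E ⧸ D) = y) = Norm_ind q (y ∈ Z) := by
  by_cases h : y ∈ Z
  · rw [finsum_eq_single _ (⟨y, h⟩ : Z), Norm_ind_pos rfl, Norm_ind_pos h]
    intro z hz
    exact Norm_ind_neg (fun h1 => hz (Subtype.ext h1))
  · rw [Norm_ind_neg h]
    refine finsum_eq_zero_of_forall_eq_zero (fun z => ?_)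
    exact Norm_ind_neg (fun h1 => h (h1 ▸ z.2))

theorem Norm_lam_tst (q : ℕ) (V D : Subgroup E) [V.Normal] (Z : Set (E ⧸ D)) (g : E)
    (y : E ⧸ D) (v : V) : lam q V D Z (rho q V D g (Norm_tst q V D y v)) =
      Norm_ind q (g • y ∈ Z) - Norm_ind q (g • (v : E) • y ∈ Z) := by
  have : Finite (E ⧸ D) := Quotient.finite _
  rw [lam_apply, ← Norm_sum_ind q Z (g • y), ← Norm_sum_ind q Z (g • (v : E) • y),
    ← finsum_sub_distrib (Set.toFinite _) (Set.toFinite _)]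
  refine finsum_congr (fun z => ?_)
  change Norm_ind q (g⁻¹ • (z : E ⧸ D) = y) - Norm_ind q (g⁻¹ • (z : E ⧸ D) = (v : E) • y) = _
  simp only [inv_smul_eq_iff]

theorem Norm_card_bad {p q : ℕ} {a b : E} (hp : 0 < p) (hq : 0 < q) (hF : Frame p q E V D a b)
    (y₁ : E ⧸ D) :
    ({h : E | ∃ v ∈ V, ∃ i : ℕ, (h : E ⧸ D) = v • a ^ i • y₁} : Set E).ncard ≤
      p * q * Nat.card V := by
  obtain ⟨g₁, rfl⟩ := QuotientGroup.mk_surjective y₁
  let F : Fin p × Fin q × V → E := fun t => a ^ (t.1 : ℕ) * g₁ * t.2.2 * b ^ (t.2.1 : ℕ)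
  have hsub : ({h : E | ∃ v ∈ V, ∃ i : ℕ, (h : E ⧸ D) = v • a ^ i • (g₁ : E ⧸ D)} : Set E) ⊆
      Set.range F := by
    rintro h ⟨v, hv, i, hi⟩
    have h1 : ((v * (a ^ i * g₁) : E) : E ⧸ D) = (h : E ⧸ D) := hi.symm
    rw [QuotientGroup.eq] at h1
    obtain ⟨k, hk, j, hj⟩ := hF.hD _ h1
    have ha : a ^ (i % p) = a ^ i := by
      conv_rhs => rw [← Nat.mod_add_div i p, pow_add, pow_mul, hF.ha, one_pow, mul_one]
    have hb : b ^ (j % q) = b ^ j := by
      conv_rhs => rw [← Nat.mod_add_div j q, pow_add, pow_mul, hF.hb, one_pow, mul_one]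
    refine ⟨(⟨i % p, Nat.mod_lt _ hp⟩, ⟨j % q, Nat.mod_lt _ hq⟩,
      ⟨(a ^ i * g₁)⁻¹ * v * (a ^ i * g₁) * k,
        V.mul_mem (Norm_conj' hF.norm hv _) hk⟩), ?_⟩
    change a ^ (i % p) * g₁ * ((a ^ i * g₁)⁻¹ * v * (a ^ i * g₁) * k) * b ^ (j % q) = h
    rw [ha, hb]
    have h2 : h = v * (a ^ i * g₁) * (k * b ^ j) := by
      rw [← hj]; group
    rw [h2]
    group
  refine le_trans (Set.ncard_le_ncard hsub (Set.toFinite _)) ?_
  have h3 : (Set.range F).ncard ≤ Nat.card (Fin p × Fin q × V) := by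
    rw [← Set.image_univ]
    refine le_trans (Set.ncard_image_le (Set.toFinite _)) ?_
    rw [Set.ncard_univ]
  refine le_trans h3 ?_
  rw [Nat.card_prod, Nat.card_prod, Nat.card_fin, Nat.card_fin, mul_assoc]

end Norm

theorem norm_lam {p q : ℕ} (hp : p.Prime) (hq : q.Prime) (hpq : p ≠ q) {E : Type} [Group E]
    [Finite E] {V D : Subgroup E} [V.Normal] {a b : E} (hF : Frame p q E V D a b) {y₁ : E ⧸ D}
    {Z : Set (E ⧸ D)} (hZ : IsSec V D a y₁ Z) (g : E)
    (hg : ∀ x : Fn q V D, lam q V D Z x = 0 → lam q V D Z (rho q V D g x) = 0) :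
    ∃ i : ℕ, g = a ^ i := by
  have hP := hF.toPre
  have hV := hF.norm
  have : Fact q.Prime := ⟨hq⟩
  have hcomm := hF.comm
  -- the set of bad elements
  set B : Set E := {h : E | ∃ v ∈ V, ∃ i : ℕ, (h : E ⧸ D) = v • a ^ i • y₁} with hB
  have hBc : B.ncard ≤ p * q * Nat.card V := Norm_card_bad hp.pos hq.pos hF y₁
  have hVpos : 0 < Nat.card V := Nat.card_pos
  -- the points whose fibre meets Z
  have hM : ∀ y : E ⧸ D, (¬ ∃ v ∈ V, v • y ∈ Z) ↔ ∃ v ∈ V, ∃ i : ℕ, y = v • a ^ i • y₁ := by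
    intro y
    constructor
    · intro h
      rcases hZ.hit y with h1 | h1
      · exact absurd h1 h
      · exact h1
    · rintro ⟨v, hv, i, rfl⟩ ⟨w, hw, h1⟩
      refine hZ.miss (w * v) (V.mul_mem hw hv) i ?_
      rwa [mul_smul]
  have hcount : ∀ v ∈ V, (∀ h : E, h ∉ B → h⁻¹ * v * h ∈ D) → v = 1 := by
    intro v hv h1
    by_contra hne
    have h2 := hF.count v hv hne
    have h3 : Nat.card {h : E // h⁻¹ * v * h ∉ D} ≤ B.ncard := by
      have : ({h : E | h⁻¹ * v * h ∉ D} : Set E) ⊆ B := by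
        intro h hh
        by_contra hc
        exact hh (h1 h hc)
      exact Set.ncard_le_ncard this (Set.toFinite _)
    nlinarith [Nat.mul_pos (Nat.mul_pos hp.pos hq.pos) hVpos]
  have hcount2 : ∀ v ∈ V, ∀ h' : E, (∀ h : E, h ∉ B → h'⁻¹ * h ∉ B → h⁻¹ * v * h ∈ D) →
      v = 1 := by
    intro v hv h' h1
    by_contra hne
    have h2 := hF.count v hv hne
    have h3 : Nat.card {h : E // h⁻¹ * v * h ∉ D} ≤ B.ncard + B.ncard := by
      have h4 : ({h : E | h⁻¹ * v * h ∉ D} : Set E) ⊆ B ∪ (fun h => h' * h) '' B := by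
        intro h hh
        by_contra hc
        simp only [Set.mem_union, not_or] at hc
        refine hh (h1 h hc.1 (fun h5 => hc.2 ⟨h'⁻¹ * h, h5, ?_⟩))
        change h' * (h'⁻¹ * h) = h
        group
      refine le_trans (Set.ncard_le_ncard h4 (Set.toFinite _)) ?_
      refine le_trans (Set.ncard_union_le _ _) ?_
      exact Nat.add_le_add_left (Set.ncard_image_le (Set.toFinite _)) _
    nlinarith [Nat.mul_pos (Nat.mul_pos hp.pos hq.pos) hVpos]
  -- Z is nonempty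
  have hZne : Z.Nonempty := by
    by_contra hne
    rw [Set.not_nonempty_iff_eq_empty] at hne
    obtain ⟨v₀, h1, h2, -⟩ := hF.cyc
    have h3 : v₀ = 1 := by
      refine hcount v₀ h1 (fun h hh => absurd ?_ hh)
      refine (hM (h : E ⧸ D)).1 ?_
      rintro ⟨v, -, h4⟩
      rw [hne] at h4
      exact h4
    exact h2 (h3 ▸ D.one_mem)
  obtain ⟨z₀, hz₀⟩ := hZne
  -- the functional is an eigenvector
  obtain ⟨c, hc⟩ : ∃ c : ZMod q, ∀ x : Fn q V D,
      lam q V D Z (rho q V D g x) = c * lam q V D Z x := by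
    obtain ⟨v₁, hv₁, h1⟩ := Norm_move hP z₀
    have h2 : v₁ • z₀ ∉ Z := fun h => h1 (hZ.uniq z₀ hz₀ v₁ hv₁ h)
    have h3 : lam q V D Z (Norm_tst q V D z₀ ⟨v₁, hv₁⟩) = 1 := by
      have := Norm_lam_tst q V D Z 1 z₀ ⟨v₁, hv₁⟩
      rw [SD.rho_one, one_smul, one_smul] at this
      rw [this, Norm_ind_pos hz₀, Norm_ind_neg h2, sub_zero]
    refine ⟨lam q V D Z (rho q V D g (Norm_tst q V D z₀ ⟨v₁, hv₁⟩)), fun x => ?_⟩
    have h4 := hg (x - (lam q V D Z x).val • Norm_tst q V D z₀ ⟨v₁, hv₁⟩) (by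
      rw [map_sub, map_nsmul, h3, nsmul_eq_mul, mul_one, ZMod.natCast_zmod_val, sub_self])
    rw [map_sub, map_nsmul, map_sub, map_nsmul, nsmul_eq_mul, ZMod.natCast_zmod_val,
      sub_eq_zero] at h4
    rw [h4, mul_comm]
  have hR : ∀ y : E ⧸ D, ∀ v ∈ V, Norm_ind q (g • y ∈ Z) - Norm_ind q (g • v • y ∈ Z) =
      c * (Norm_ind q (y ∈ Z) - Norm_ind q (v • y ∈ Z)) := by
    intro y v hv
    have h1 := hc (Norm_tst q V D y ⟨v, hv⟩)
    have h2 := Norm_lam_tst q V D Z 1 y ⟨v, hv⟩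
    rw [SD.rho_one, one_smul, one_smul] at h2
    rw [Norm_lam_tst, h2] at h1
    exact h1
  -- uniqueness for W
  have hWu : ∀ y : E ⧸ D, g • y ∈ Z → ∀ v ∈ V, g • v • y ∈ Z → v • y = y := by
    intro y hy v hv h1
    have h2 : g • v • y = (g * v * g⁻¹) • g • y := by
      rw [smul_smul, smul_smul]; group
    rw [h2] at h1
    have h3 := hZ.uniq _ hy _ (hV.conj_mem v hv g) h1
    rw [← h2] at h3
    exact smul_left_cancel g h3
  have hc0 : c ≠ 0 := by
    rintro rfl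
    obtain ⟨v₁, hv₁, h1⟩ := Norm_move hP (g⁻¹ • z₀)
    have h2 := hR (g⁻¹ • z₀) v₁ hv₁
    have h3 : g • g⁻¹ • z₀ ∈ Z := by rwa [smul_inv_smul]
    rw [zero_mul, Norm_ind_pos h3] at h2
    by_cases h4 : g • v₁ • g⁻¹ • z₀ ∈ Z
    · exact h1 (hWu _ h3 v₁ hv₁ h4)
    · rw [Norm_ind_neg h4, sub_zero] at h2
      exact one_ne_zero h2
  -- fibres meeting Z and W
  have hA1 : ∀ z ∈ Z, ∃ v ∈ V, g • v • z ∈ Z := by
    intro z hz
    obtain ⟨v₁, hv₁, h1⟩ := Norm_move hP z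
    have h2 : v₁ • z ∉ Z := fun h => h1 (hZ.uniq z hz v₁ hv₁ h)
    have h3 := hR z v₁ hv₁
    rw [Norm_ind_pos hz, Norm_ind_neg h2, sub_zero, mul_one] at h3
    by_cases h4 : g • z ∈ Z
    · exact ⟨1, V.one_mem, by rwa [one_smul]⟩
    · by_cases h5 : g • v₁ • z ∈ Z
      · exact ⟨v₁, hv₁, h5⟩
      · rw [Norm_ind_neg h4, Norm_ind_neg h5, sub_zero] at h3
        exact absurd h3.symm hc0
  have hA2 : ∀ y : E ⧸ D, g • y ∈ Z → ∃ v ∈ V, v • y ∈ Z := by
    intro y hy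
    obtain ⟨v₁, hv₁, h1⟩ := Norm_move hP y
    have h2 : g • v₁ • y ∉ Z := fun h => h1 (hWu y hy v₁ hv₁ h)
    have h3 := hR y v₁ hv₁
    rw [Norm_ind_pos hy, Norm_ind_neg h2, sub_zero] at h3
    by_cases h4 : y ∈ Z
    · exact ⟨1, V.one_mem, by rwa [one_smul]⟩
    · by_cases h5 : v₁ • y ∈ Z
      · exact ⟨v₁, hv₁, h5⟩
      · rw [Norm_ind_neg h4, Norm_ind_neg h5, sub_zero, mul_zero] at h3
        exact absurd h3 one_ne_zero
  -- the invariance group of the set of fibres meeting Z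
  let J : Subgroup E :=
    { carrier := {h | ∀ y : E ⧸ D, (∃ v ∈ V, v • h • y ∈ Z) ↔ ∃ v ∈ V, v • y ∈ Z}
      one_mem' := by intro y; rw [one_smul]
      mul_mem' := by
        intro h h' h1 h2 y
        rw [mul_smul, h1, h2]
      inv_mem' := by
        intro h h1 y
        have := h1 (h⁻¹ • y)
        rw [smul_inv_smul] at this
        exact this.symm }
  have hJ : ∀ h : E, h ∈ J ↔ ∀ y : E ⧸ D, (∃ v ∈ V, v • h • y ∈ Z) ↔ ∃ v ∈ V, v • y ∈ Z :=
    fun h => Iff.rfl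
  have hVJ : ∀ v ∈ V, v ∈ J := by
    intro v hv
    rw [hJ]
    intro y
    constructor
    · rintro ⟨w, hw, h1⟩
      exact ⟨w * v, V.mul_mem hw hv, by rwa [mul_smul]⟩
    · rintro ⟨w, hw, h1⟩
      refine ⟨w * v⁻¹, V.mul_mem hw (V.inv_mem hv), ?_⟩
      rwa [smul_smul, inv_mul_cancel_right]
  have hgJ : g ∈ J := by
    rw [hJ]
    intro y
    constructor
    · rintro ⟨w, hw, h1⟩
      have h2 : w • g • y = g • (g⁻¹ * w * g) • y := by
        rw [smul_smul, smul_smul]; group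
      rw [h2] at h1
      obtain ⟨v, hv, h3⟩ := hA2 _ h1
      exact ⟨v * (g⁻¹ * w * g), V.mul_mem hv (Norm_conj' hV hw g), by rwa [mul_smul]⟩
    · rintro ⟨w, hw, h1⟩
      obtain ⟨v, hv, h2⟩ := hA1 _ h1
      refine ⟨g * (v * w) * g⁻¹, hV.conj_mem _ (V.mul_mem hv hw) g, ?_⟩
      have h3 : (g * (v * w) * g⁻¹) • g • y = g • v • w • y := by
        rw [smul_smul, smul_smul, smul_smul]; group
      rw [h3]
      exact h2
  have hainv : ∀ i : ℕ, ∀ z ∈ Z, a ^ i • z ∈ Z := by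
    intro i
    induction i with
    | zero => intro z hz; rwa [pow_zero, one_smul]
    | succ i ih =>
      intro z hz
      rw [pow_succ', mul_smul]
      exact hZ.inv _ (ih z hz)
  have hainv' : ∀ i : ℕ, ∀ z ∈ Z, (a ^ i)⁻¹ • z ∈ Z := by
    intro i z hz
    have h1 : (a ^ i)⁻¹ = a ^ ((p - 1) * i) := by
      rw [inv_eq_iff_mul_eq_one, ← pow_add]
      have : i + (p - 1) * i = p * i := by
        obtain ⟨n, hn⟩ : ∃ n, p = n + 1 := ⟨p - 1, by have := hp.pos; omega⟩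
        rw [hn]
        simp only [Nat.add_sub_cancel]
        ring
      rw [this, pow_mul, hF.ha, one_pow]
    rw [h1]
    exact hainv _ z hz
  have haJ : a ∈ J := by
    rw [hJ]
    intro y
    constructor
    · rintro ⟨w, hw, h1⟩
      refine ⟨a⁻¹ * w * a, Norm_conj' hV hw a, ?_⟩
      have h2 := hainv' 1 _ h1
      rw [pow_one] at h2
      have h3 : (a⁻¹ * w * a) • y = a⁻¹ • w • a • y := by
        rw [mul_smul, mul_smul]
      rw [h3]; exact h2
    · rintro ⟨w, hw, h1⟩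
      refine ⟨a * w * a⁻¹, hV.conj_mem w hw a, ?_⟩
      have h2 := hZ.inv _ h1
      have h3 : (a * w * a⁻¹) • a • y = a • w • y := by
        rw [smul_smul, smul_smul]; group
      rw [h3]; exact h2
  -- g = v a^i
  obtain ⟨v, hv, i, hgv⟩ : ∃ v ∈ V, ∃ i : ℕ, g = v * a ^ i := by
    have hy₁ : ¬ ∃ v ∈ V, v • y₁ ∈ Z :=
      (hM y₁).2 ⟨1, V.one_mem, 0, by rw [pow_zero, one_smul, one_smul]⟩
    have h1 : ¬ ∃ v ∈ V, v • g • y₁ ∈ Z := fun h => hy₁ ((hgJ y₁).1 h)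
    obtain ⟨v, hv, i, h2⟩ := (hM _).1 h1
    obtain ⟨g₁, rfl⟩ := QuotientGroup.mk_surjective y₁
    have h3 : ((v * (a ^ i * g₁) : E) : E ⧸ D) = ((g * g₁ : E) : E ⧸ D) := h2.symm
    rw [QuotientGroup.eq] at h3
    obtain ⟨k, hk, j, h4⟩ := hF.hD _ h3
    have h5 : g = v * a ^ i * (g₁ * k * g₁⁻¹) * (g₁ * b * g₁⁻¹) ^ j := by
      rw [conj_pow]
      have : g * g₁ = v * (a ^ i * g₁) * (k * b ^ j) := by rw [← h4]; group
      calc g = g * g₁ * g₁⁻¹ := by group
        _ = _ := by rw [this]; group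
    by_cases hj : q ∣ j
    · have h6 : (g₁ * b * g₁⁻¹) ^ j = 1 := by
        obtain ⟨n, rfl⟩ := hj
        rw [conj_pow, pow_mul, hF.hb, one_pow]
        group
      rw [h6, mul_one] at h5
      refine ⟨v * (a ^ i * (g₁ * k * g₁⁻¹) * (a ^ i)⁻¹),
        V.mul_mem hv (hV.conj_mem _ (hV.conj_mem k hk g₁) _), i, ?_⟩
      rw [h5]; group
    · exfalso
      have h6 : (g₁ * b * g₁⁻¹) ^ j ∈ J := by
        have h7 : (g₁ * b * g₁⁻¹) ^ j = (v * a ^ i * (g₁ * k * g₁⁻¹))⁻¹ * g := by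
          conv_rhs => rw [h5]
          group
        rw [h7]
        exact J.mul_mem (J.inv_mem (J.mul_mem (J.mul_mem (hVJ v hv) (J.pow_mem haJ i))
          (hVJ _ (hV.conj_mem k hk g₁)))) hgJ
      have h7 : g₁ * b * g₁⁻¹ ∈ J := by
        have hcop : Nat.Coprime j q := ((Nat.Prime.coprime_iff_not_dvd hq).2 hj).symm
        obtain ⟨n, hn⟩ := Nat.exists_mul_mod_eq_one_of_coprime hcop hq.one_lt
        have h8 : (g₁ * b * g₁⁻¹) ^ (j * n) = g₁ * b * g₁⁻¹ := by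
          rw [← Nat.mod_add_div (j * n) q, hn.2, pow_add, pow_one, pow_mul, conj_pow (i := q),
            hF.hb]
          simp
        rw [← h8, pow_mul]
        exact J.pow_mem h6 _
      have h8 : J = ⊤ := hF.ig.eq_top (g := 1) (k := g₁⁻¹) (M := J)
        (by rw [inv_one, one_mul, mul_one]; exact haJ) (by rw [inv_inv]; exact h7)
      obtain ⟨h₀, hh₀⟩ := QuotientGroup.mk_surjective z₀
      have h9 : h₀ * g₁⁻¹ ∈ J := by rw [h8]; trivial
      have h10 := (h9 (g₁ : E ⧸ D)).1 ⟨1, V.one_mem, by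
        rw [one_smul]
        have : (h₀ * g₁⁻¹) • (g₁ : E ⧸ D) = ((h₀ * g₁⁻¹ * g₁ : E) : E ⧸ D) := rfl
        rw [this, inv_mul_cancel_right]
        change (h₀ : E ⧸ D) ∈ Z
        rw [show (h₀ : E ⧸ D) = z₀ from hh₀]
        exact hz₀⟩
      exact hy₁ h10
  -- elements outside B
  have hfixB : ∀ h : E, h ∉ B → ∃ w ∈ V, w • (h : E ⧸ D) ∈ Z := by
    intro h hh
    by_contra hc'
    exact hh ((hM _).1 hc')
  have hconj : ∀ h : E, ∀ w ∈ V, v • w • (h : E ⧸ D) = w • (h : E ⧸ D) ↔ h⁻¹ * v * h ∈ D := by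
    intro h w hw
    rw [← Norm_fix_iff, smul_smul, hcomm v hv w hw, mul_smul, smul_left_cancel_iff]
  by_cases hcase : ∃ z ∈ Z, g • z ∉ Z
  · -- p = 2
    obtain ⟨z, hz, hgz⟩ := hcase
    have h1 : ∀ w ∈ V, w • z ≠ z → g • w • z ∈ Z ∧ c = -1 := by
      intro w hw hwz
      have h2 : w • z ∉ Z := fun h => hwz (hZ.uniq z hz w hw h)
      have h3 := hR z w hw
      rw [Norm_ind_pos hz, Norm_ind_neg h2, sub_zero, mul_one, Norm_ind_neg hgz, zero_sub] at h3
      by_cases h4 : g • w • z ∈ Z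
      · rw [Norm_ind_pos h4] at h3
        exact ⟨h4, h3.symm⟩
      · rw [Norm_ind_neg h4, neg_zero] at h3
        exact absurd h3.symm hc0
    obtain ⟨w, hw, hwz⟩ := Norm_move hP z
    obtain ⟨h2, hcm⟩ := h1 w hw hwz
    have h3 : (w * w) • z = z := by
      by_contra h4
      obtain ⟨h5, -⟩ := h1 (w * w) (V.mul_mem hw hw) h4
      rw [mul_smul] at h5
      have h6 := hWu _ h2 w hw h5
      exact hwz (smul_left_cancel w h6)
    have hp2 : p = 2 := by
      by_contra hp2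
      have hodd : Odd p := hp.odd_of_ne_two hp2
      obtain ⟨n, hn⟩ := hodd
      have h4 : ∀ l : ℕ, (w * w) ^ l • z = z := by
        intro l
        induction l with
        | zero => rw [pow_zero, one_smul]
        | succ l ih => rw [pow_succ, mul_smul, h3, ih]
      have h5 : (w * w) ^ (n + 1) = w := by
        have h6 : (w * w) ^ (n + 1) = w ^ p * w := by
          rw [hn, ← pow_two, ← pow_mul, ← pow_succ]
          congr 1
        rw [h6, hF.expo w hw, one_mul]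
      have h6 := h4 (n + 1)
      rw [h5] at h6
      exact hwz h6
    have hq2 : q ≠ 2 := fun h => hpq (hp2.trans h.symm)
    have hc1 : c ≠ 1 := by
      intro h4
      rw [hcm] at h4
      have : Fact (2 < q) := ⟨by have := hq.two_le; omega⟩
      exact ZMod.neg_one_ne_one h4
    -- Z and W are disjoint
    have hdis : ∀ z ∈ Z, g • z ∉ Z := by
      intro z' hz' h4
      obtain ⟨w', hw', hwz'⟩ := Norm_move hP z'
      have h5 : w' • z' ∉ Z := fun h => hwz' (hZ.uniq z' hz' w' hw' h)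
      have h6 : g • w' • z' ∉ Z := fun h => hwz' (hWu z' h4 w' hw' h)
      have h7 := hR z' w' hw'
      rw [Norm_ind_pos hz', Norm_ind_neg h5, Norm_ind_pos h4, Norm_ind_neg h6, sub_zero,
        mul_one] at h7
      exact hc1 h7.symm
    have hvz : ∀ z ∈ Z, v • z ≠ z := by
      intro z' hz' h4
      refine hdis _ (hainv' i z' hz') ?_
      rw [hgv, mul_smul, smul_inv_smul, h4]
      exact hz'
    have hvD : ∀ h : E, h ∉ B → h⁻¹ * v * h ∉ D := by
      intro h hh h4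
      obtain ⟨w', hw', h5⟩ := hfixB h hh
      exact hvz _ h5 ((hconj h w' hw').2 h4)
    -- K has index two
    obtain ⟨v₀, hv₀, hv₀D, hcyc⟩ := hF.cyc
    have hidx : ∀ u ∈ V, u ∉ D → u * v₀ ∈ D := by
      intro u hu huD
      obtain ⟨l, hl⟩ := hcyc u hu
      have h4 : v₀ ^ 2 = 1 := by
        have := hF.expo v₀ hv₀
        rwa [hp2] at this
      rcases Nat.even_or_odd l with ⟨n, hn⟩ | ⟨n, hn⟩
      · rw [hn, ← two_mul, pow_mul, h4, one_pow, mul_one] at hl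
        exact absurd hl huD
      · rw [hn, pow_add, pow_mul, h4, one_pow, one_mul, pow_one] at hl
        exact hl
    have hidx2 : ∀ u ∈ V, ∀ u' ∈ V, u ∉ D → u' ∉ D → u * u'⁻¹ ∈ D := by
      intro u hu u' hu' h4 h5
      have h6 := D.mul_mem (hidx u hu h4) (D.inv_mem (hidx u' hu' h5))
      have h7 : u * v₀ * (u' * v₀)⁻¹ = u * u'⁻¹ := by group
      rwa [h7] at h6
    have hcen : ∀ h : E, h * v * h⁻¹ = v := by
      intro h
      have hwV : h * v * h⁻¹ * v⁻¹ ∈ V := V.mul_mem (hV.conj_mem v hv h) (V.inv_mem hv)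
      have h4 : h * v * h⁻¹ * v⁻¹ = 1 := by
        refine hcount2 _ hwV h (fun h' hh' hh'' => ?_)
        have h5 := hvD h' hh'
        have h6 := hvD _ hh''
        have h7 : (h⁻¹ * h')⁻¹ * v * (h⁻¹ * h') = h'⁻¹ * (h * v * h⁻¹) * h' := by group
        rw [h7] at h6
        have h8 := hidx2 _ (Norm_conj' hV (hV.conj_mem v hv h) h') _ (Norm_conj' hV hv h') h6 h5
        have h9 : h'⁻¹ * (h * v * h⁻¹) * h' * (h'⁻¹ * v * h')⁻¹ =
            h'⁻¹ * (h * v * h⁻¹ * v⁻¹) * h' := by group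
        rwa [h9] at h8
      exact mul_inv_eq_one.1 h4
    have h4 : v = 1 := hF.cen hp2 v hv hcen
    exact absurd (by rw [h4, one_smul]) (hvz z hz)
  · -- W = Z
    push Not at hcase
    have hvz : ∀ z ∈ Z, v • z = z := by
      intro z hz
      have h1 := hcase _ (hainv' i z hz)
      rw [hgv, mul_smul, smul_inv_smul] at h1
      exact hZ.uniq z hz v hv h1
    have hv1 : v = 1 := by
      refine hcount v hv (fun h hh => ?_)
      obtain ⟨w, hw, h1⟩ := hfixB h hh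
      exact (hconj h w hw).1 (hvz _ h1)
    exact ⟨i, by rw [hgv, hv1, one_mul]⟩

end Helper76.PQ
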