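import Pool.Agent.Helper76.PQ.Defs

set_option autoImplicit false

namespace Helper76.PQ

open Helper76.IG

theorem Sec_free {p q : ℕ} (hp : p.Prime) (hq : q.Prime) (hpq : p ≠ q) {E : Type} [Group E]
    {V D : Subgroup E} {a b : E} (hF : Frame p q E V D a b) (y : E ⧸ D) (i : ℕ) (v : E)
    (hv : v ∈ V) (h : a ^ i • y = v • y) : a ^ i = 1 := by
  have hN : V.Normal := hF.norm
  obtain ⟨g, rfl⟩ := QuotientGroup.mk_surjective y
  have h1 : g⁻¹ * (v⁻¹ * a ^ i * g) ∈ D := by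
    have h2 : ((v * g : E) : E ⧸ D) = ((a ^ i * g : E) : E ⧸ D) := h.symm
    rw [QuotientGroup.eq] at h2
    have h3 : (v * g)⁻¹ * (a ^ i * g) = g⁻¹ * (v⁻¹ * a ^ i * g) := by group
    rw [← h3]
    exact h2
  obtain ⟨k, hk, j, hj⟩ := hF.hD _ h1
  let π := QuotientGroup.mk' V
  have hπ : ∀ x, π x = 1 ↔ x ∈ V := fun x => by
    rw [QuotientGroup.mk'_apply, QuotientGroup.eq_one_iff]
  have e1 : (π g)⁻¹ * (π a) ^ i * π g = (π b) ^ j := by
    have := congrArg π hj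
    simp only [map_mul, map_inv, map_pow] at this
    rw [(hπ v).2 hv, (hπ k).2 hk] at this
    simpa [mul_assoc] using this
  have e2 : ((π b) ^ j) ^ p = 1 := by
    rw [← e1]
    have h4 : (π g)⁻¹ * (π a) ^ i * π g = MulAut.conj (π g)⁻¹ ((π a) ^ i) := by
      simp [MulAut.conj_apply]
    rw [h4, ← map_pow, ← pow_mul, mul_comm i p, pow_mul, ← map_pow, hF.ha, map_one, one_pow,
      map_one]
  have e3 : ((π b) ^ j) ^ q = 1 := by
    rw [← pow_mul, mul_comm j q, pow_mul, ← map_pow, hF.hb, map_one, one_pow]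
  have hcop : Nat.Coprime p q := (Nat.coprime_primes hp hq).2 hpq
  have e4 : (π b) ^ j = 1 := by
    have h5 : orderOf ((π b) ^ j) ∣ Nat.gcd p q :=
      Nat.dvd_gcd (orderOf_dvd_of_pow_eq_one e2) (orderOf_dvd_of_pow_eq_one e3)
    rw [hcop] at h5
    exact orderOf_eq_one_iff.1 (Nat.dvd_one.1 h5)
  have e5 : (π a) ^ i = 1 := by
    rw [e4] at e1
    have := congrArg (fun x => π g * x * (π g)⁻¹) e1
    simpa [mul_assoc] using this
  by_contra hne
  have h6 : ¬ p ∣ i := by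
    rintro ⟨m, rfl⟩
    exact hne (by rw [pow_mul, hF.ha, one_pow])
  have e6 : (π a) ^ p = 1 := by rw [← map_pow, hF.ha, map_one]
  have h7 : orderOf (π a) ∣ Nat.gcd p i :=
    Nat.dvd_gcd (orderOf_dvd_of_pow_eq_one e6) (orderOf_dvd_of_pow_eq_one e5)
  rw [(hp.coprime_iff_not_dvd).2 h6] at h7
  have h8 : π a = 1 := orderOf_eq_one_iff.1 (Nat.dvd_one.1 h7)
  exact hF.haV ((hπ a).1 h8)

theorem Sec_inv_pow {p : ℕ} (hp : p.Prime) {E : Type} [Group E] {a : E} (ha : a ^ p = 1) (i : ℕ) :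
    (a ^ i)⁻¹ = a ^ ((p - 1) * i) := by
  refine (eq_inv_of_mul_eq_one_left ?_).symm
  rw [← pow_add]
  have : (p - 1) * i + i = p * i := by
    obtain ⟨m, rfl⟩ : ∃ m, p = m + 1 := ⟨p - 1, by have := hp.pos; omega⟩
    simp only [Nat.add_sub_cancel]
    ring
  rw [this, pow_mul, ha, one_pow]

/-- the relation of lying in the same orbit of the group generated by `V` and `a` -/
def SecRel {E : Type} [Group E] (V D : Subgroup E) (a : E) (y y' : E ⧸ D) : Prop :=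
  ∃ v ∈ V, ∃ i : ℕ, y' = v • a ^ i • y

theorem Sec_equiv {p : ℕ} (hp : p.Prime) {E : Type} [Group E] {V D : Subgroup E} {a : E}
    (ha : a ^ p = 1) (hN : V.Normal) : Equivalence (SecRel V D a) := by
  refine ⟨fun y => ⟨1, V.one_mem, 0, by simp⟩, ?_, ?_⟩
  · rintro y y' ⟨v, hv, i, rfl⟩
    refine ⟨(a ^ i)⁻¹ * v⁻¹ * (a ^ i)⁻¹⁻¹, hN.conj_mem _ (V.inv_mem hv) _, (p - 1) * i, ?_⟩
    rw [← Sec_inv_pow hp ha]
    simp only [smul_smul]
    have : (a ^ i)⁻¹ * v⁻¹ * (a ^ i)⁻¹⁻¹ * ((a ^ i)⁻¹ * (v * a ^ i)) = 1 := by group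
    rw [this, one_smul]
  · rintro y y' y'' ⟨v, hv, i, rfl⟩ ⟨w, hw, j, rfl⟩
    refine ⟨w * (a ^ j * v * (a ^ j)⁻¹), V.mul_mem hw (hN.conj_mem _ hv _), j + i, ?_⟩
    simp only [smul_smul]
    congr 1
    rw [pow_add]
    group

theorem exists_sec {p q : ℕ} (hp : p.Prime) (hq : q.Prime) (hpq : p ≠ q) {E : Type} [Group E]
    [Finite E] {V D : Subgroup E} {a b : E} (hF : Frame p q E V D a b) (y₁ : E ⧸ D) :
    ∃ Z, IsSec V D a y₁ Z := by
  have hN : V.Normal := hF.norm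
  have hEq := Sec_equiv (D := D) hp hF.ha hN
  let s : Setoid (E ⧸ D) := ⟨SecRel V D a, hEq⟩
  obtain ⟨f, hf1, hf2⟩ : ∃ f : E ⧸ D → E ⧸ D, (∀ y, SecRel V D a y (f y)) ∧
      ∀ y y', SecRel V D a y y' → f y = f y' := by
    refine ⟨fun y => (Quotient.mk s y).out, fun y => ?_, fun y y' h => ?_⟩
    · exact hEq.symm (Quotient.exact (Quotient.out_eq (Quotient.mk s y)))
    · have : Quotient.mk s y = Quotient.mk s y' := Quotient.sound h
      simp only [this]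
  refine ⟨{z | ∃ y, ∃ i : ℕ, ¬ SecRel V D a y₁ y ∧ z = a ^ i • f y}, ?_, ?_, ?_, ?_⟩
  · rintro z ⟨y, i, hy, rfl⟩
    exact ⟨y, i + 1, hy, by rw [smul_smul, pow_succ']⟩
  · rintro z ⟨y, i, hy, rfl⟩ v hv ⟨y', j, hy', hz⟩
    have h1 : SecRel V D a (f y) (v • a ^ i • f y) := ⟨v, hv, i, rfl⟩
    have h2 : SecRel V D a (f y') (v • a ^ i • f y) := ⟨1, V.one_mem, j, by rw [one_smul, hz]⟩
    have h3 : SecRel V D a y y' :=
      hEq.trans (hf1 y) (hEq.trans h1 (hEq.trans (hEq.symm h2) (hEq.symm (hf1 y'))))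
    rw [← hf2 _ _ h3] at hz
    have h4 : a ^ ((p - 1) * i + j) = 1 := by
      refine Sec_free hp hq hpq hF (f y) _ ((a ^ i)⁻¹ * v * (a ^ i)⁻¹⁻¹) (hN.conj_mem _ hv _) ?_
      rw [pow_add, ← Sec_inv_pow hp hF.ha, ← smul_smul, ← hz]
      simp only [smul_smul]
      congr 1
      group
    have h5 : a ^ j = a ^ i := by
      rw [pow_add, ← Sec_inv_pow hp hF.ha] at h4
      exact (inv_mul_eq_one.1 h4).symm
    rw [hz, h5]
  · rintro v hv i ⟨y, j, hy, hz⟩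
    refine hy ?_
    have h1 : SecRel V D a y₁ (v • a ^ i • y₁) := ⟨v, hv, i, rfl⟩
    have h2 : SecRel V D a (f y) (v • a ^ i • y₁) := ⟨1, V.one_mem, j, by rw [one_smul, hz]⟩
    exact hEq.trans h1 (hEq.trans (hEq.symm h2) (hEq.symm (hf1 y)))
  · intro y
    by_cases hy : SecRel V D a y₁ y
    · exact Or.inr hy
    · left
      obtain ⟨v, hv, i, h⟩ := hEq.symm (hf1 y)
      refine ⟨v⁻¹, V.inv_mem hv, y, i, hy, ?_⟩
      conv_lhs => rw [h]
      rw [smul_smul, inv_mul_cancel, one_smul]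

end Helper76.PQ
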