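import Pool.Agent.Helper76.PQ.Defs

set_option autoImplicit false

namespace Helper76.PQ

open Helper76.IG

section StarAux

variable {p q : ℕ} {E : Type} [Group E] [Finite E]

theorem Star_coprime (hp : p.Prime) (hq : q.Prime) (hpq : p ≠ q) (W : Subgroup E)
    (hW : ∀ w ∈ W, w ^ p = 1) : Nat.Coprime q (Nat.card W) := by
  rw [hq.coprime_iff_not_dvd]
  intro h
  have : Fact q.Prime := ⟨hq⟩
  obtain ⟨w, hw⟩ := exists_prime_orderOf_dvd_card' q h
  have h2 : w ^ p = 1 := Subtype.ext (by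
    have := hW w w.2
    simpa using this)
  have h3 : orderOf w ∣ p := orderOf_dvd_of_pow_eq_one h2
  rw [hw] at h3
  exact hpq ((Nat.prime_dvd_prime_iff_eq hq hp).1 h3).symm

theorem Star_ne_zero (hp : p.Prime) (hq : q.Prime) (hpq : p ≠ q) (W : Subgroup E)
    (hW : ∀ w ∈ W, w ^ p = 1) : ((Nat.card W : ℕ) : ZMod q) ≠ 0 := by
  intro h
  rw [ZMod.natCast_eq_zero_iff] at h
  have h1 := Star_coprime hp hq hpq W hW
  rw [hq.coprime_iff_not_dvd] at h1
  exact h1 h

theorem Star_div (hq : q.Prime) {V D : Subgroup E} (U₁ : AddSubgroup (Fn q V D)) {n : ℕ}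
    (hn : (n : ZMod q) ≠ 0) {x : Fn q V D} (h : n • x ∈ U₁) : x ∈ U₁ := by
  have : Fact q.Prime := ⟨hq⟩
  have h1 : (((n : ZMod q)⁻¹).val) • (n • x) ∈ U₁ := U₁.nsmul_mem h _
  have h2 : (((n : ZMod q)⁻¹).val) • (n • x) = x := by
    apply Subtype.ext
    funext y
    change (((n : ZMod q)⁻¹).val) • (n • x.1 y) = x.1 y
    rw [nsmul_eq_mul, nsmul_eq_mul, ZMod.natCast_val, ZMod.cast_id', id_eq, ← mul_assoc,
      inv_mul_cancel₀ hn, one_mul]
  rwa [h2] at h1

theorem Star_mem {V D : Subgroup E} [Fintype V] {x : E ⧸ D → ZMod q} :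
    x ∈ Fn q V D ↔ ∀ y : E ⧸ D, ∑ v : V, x ((v : E) • y) = 0 := by
  rw [mem_Fn]
  simp only [finsum_eq_sum_of_fintype]

omit [Finite E] in
/-- a point stabiliser of another fibre -/
theorem Star_dec (hp : p.Prime) {V D : Subgroup E} [V.Normal] {b : E} (hF : Pre p E V D b)
    (y : E ⧸ D) (hy : ∀ v ∈ V, (v • ((1 : E) : E ⧸ D)) ≠ y) (v : E) (hv : v ∈ V) :
    ∃ c ∈ V, c ∈ D ∧ v • y = c • y := by
  obtain ⟨g, rfl⟩ := QuotientGroup.mk_surjective y
  have h1 : ∃ k ∈ V, k ∈ D ∧ g * k * g⁻¹ ∉ D := by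
    by_contra hcon
    push Not at hcon
    obtain ⟨w, hw, d, hd, rfl⟩ := hF.dist g (fun k hk hkD => hcon k hk hkD)
    apply hy w hw
    change ((w * 1 : E) : E ⧸ D) = ((w * d : E) : E ⧸ D)
    rw [QuotientGroup.eq, mul_one, inv_mul_cancel_left]
    exact hd
  obtain ⟨k, hkV, hkD, hk⟩ := h1
  set w : E := g * k * g⁻¹ with hw
  have hwV : w ∈ V := hF.norm.conj_mem k hkV g
  have hwy : w • ((g : E) : E ⧸ D) = ((g : E) : E ⧸ D) := by
    change ((w * g : E) : E ⧸ D) = ((g : E) : E ⧸ D)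
    rw [QuotientGroup.eq, hw]
    have : (g * k * g⁻¹ * g)⁻¹ * g = k⁻¹ := by group
    rw [this]
    exact D.inv_mem hkD
  obtain ⟨v₀, hv₀, hv₀D, hcyc⟩ := hF.cyc
  obtain ⟨i, hi⟩ := hcyc w hwV
  have hpi : Nat.Coprime i p := by
    rw [Nat.coprime_comm, hp.coprime_iff_not_dvd]
    rintro ⟨t, rfl⟩
    apply hk
    rw [pow_mul, hF.expo v₀ hv₀, one_pow, mul_one] at hi
    exact hi
  obtain ⟨i', _, hi'⟩ := Nat.exists_mul_mod_eq_one_of_coprime hpi hp.one_lt
  obtain ⟨m, hm⟩ := hcyc v hv
  have hpw : v₀ ^ (i * (i' * m)) = v₀ ^ m := by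
    rw [pow_eq_pow_mod (i * (i' * m)) (hF.expo v₀ hv₀), pow_eq_pow_mod m (hF.expo v₀ hv₀)]
    congr 1
    rw [← mul_assoc, Nat.mul_mod, hi', one_mul, Nat.mod_mod]
  set j : ℕ := i' * m with hj
  have hcomm : Commute w (v₀ ^ i) := hF.comm w hwV _ (V.pow_mem hv₀ i)
  have h2 : w ^ j * v₀ ^ m ∈ D := by
    have h3 := D.pow_mem hi j
    rw [hcomm.mul_pow, ← pow_mul, hpw] at h3
    exact h3
  have hwj : w ^ j ∈ V := V.pow_mem hwV j
  refine ⟨v * (w ^ j)⁻¹, V.mul_mem hv (V.inv_mem hwj), ?_, ?_⟩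
  · have h3 := D.mul_mem hm (D.inv_mem h2)
    have h4 : v * v₀ ^ m * (w ^ j * v₀ ^ m)⁻¹ = v * (w ^ j)⁻¹ := by
      rw [mul_inv_rev, ← mul_assoc, mul_inv_cancel_right]
    rwa [h4] at h3
  · have h5 : ∀ n : ℕ, (w ^ n)⁻¹ • ((g : E) : E ⧸ D) = ((g : E) : E ⧸ D) := by
      intro n
      rw [inv_smul_eq_iff]
      induction n with
      | zero => rw [pow_zero, one_smul]
      | succ n ih => rw [pow_succ, mul_smul, hwy, ← ih]
    rw [mul_smul, h5]

/-- the key fact -/
theorem Star_KF (hp : p.Prime) (hq : q.Prime) (hpq : p ≠ q) {V D : Subgroup E} [V.Normal] {b : E}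
    (hF : Pre p E V D b) [Fintype V] [Fintype (V ⊓ D : Subgroup E)] (x : Fn q V D) (y : E ⧸ D)
    (hy : ∀ v ∈ V, (v • ((1 : E) : E ⧸ D)) ≠ y) :
    ∑ k : (V ⊓ D : Subgroup E), x.1 ((k : E) • y) = 0 := by
  have : Fact q.Prime := ⟨hq⟩
  have hx := Star_mem.1 x.2
  have h1 : ∀ v : V, ∑ k : (V ⊓ D : Subgroup E), x.1 ((k : E) • (v : E) • y) =
      ∑ k : (V ⊓ D : Subgroup E), x.1 ((k : E) • y) := by
    intro v
    obtain ⟨c, hcV, hcD, hc⟩ := Star_dec hp hF y hy v v.2
    refine Fintype.sum_equiv (Equiv.mulRight (⟨c, hcV, hcD⟩ : (V ⊓ D : Subgroup E))) _ _ ?_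
    intro k
    rw [hc, smul_smul]
    rfl
  have h2 : ∑ v : V, ∑ k : (V ⊓ D : Subgroup E), x.1 ((k : E) • (v : E) • y) = 0 := by
    rw [Finset.sum_comm]
    refine Finset.sum_eq_zero fun k _ => ?_
    rw [← hx ((k : E) • y)]
    refine Finset.sum_congr rfl fun v _ => ?_
    rw [smul_smul, smul_smul, hF.comm (k : E) k.2.1 (v : E) v.2]
  simp only [h1] at h2
  rw [Finset.sum_const, Finset.card_univ, nsmul_eq_mul] at h2
  rcases mul_eq_zero.1 h2 with h | h
  · exfalso
    apply Star_ne_zero hp hq hpq V hF.expo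
    rw [Nat.card_eq_fintype_card]
    exact h
  · exact h

open Classical in
/-- the number of elements of `V` mapping the base point to `y` -/
noncomputable def Star_c (q : ℕ) (V D : Subgroup E) [Fintype V] (y : E ⧸ D) : ZMod q :=
  ∑ v : V, if (v : E) • ((1 : E) : E ⧸ D) = y then 1 else 0

open Classical in
/-- the element of the lemma -/
noncomputable def Star_u (q : ℕ) (V D : Subgroup E) [Fintype V] (y : E ⧸ D) : ZMod q :=
  (if y = ((1 : E) : E ⧸ D) then ((Nat.card V : ℕ) : ZMod q) else 0) - Star_c q V D y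

omit [Finite E] in
theorem Star_c_smul (V D : Subgroup E) [Fintype V] (w : E) (hw : w ∈ V) (y : E ⧸ D) :
    Star_c q V D (w • y) = Star_c q V D y := by
  classical
  unfold Star_c
  refine Fintype.sum_equiv (Equiv.mulLeft (⟨w⁻¹, V.inv_mem hw⟩ : V)) _ _ ?_
  intro v
  have : ((v : E) • ((1 : E) : E ⧸ D) = w • y) ↔
      (((⟨w⁻¹, V.inv_mem hw⟩ : V) * v : V) : E) • ((1 : E) : E ⧸ D) = y := by
    change _ ↔ (w⁻¹ * (v : E)) • ((1 : E) : E ⧸ D) = y
    rw [mul_smul, inv_smul_eq_iff]
  exact if_congr this rfl rfl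

omit [Finite E] in
theorem Star_c_conj (V D : Subgroup E) [hV : V.Normal] [Fintype V] (b : E) (hb : b ∈ D)
    (y : E ⧸ D) : Star_c q V D (b⁻¹ • y) = Star_c q V D y := by
  classical
  unfold Star_c
  have hb1 : b • ((1 : E) : E ⧸ D) = ((1 : E) : E ⧸ D) := by
    change ((b * 1 : E) : E ⧸ D) = _
    rw [QuotientGroup.eq]
    simpa using hb
  refine Finset.sum_bij' (fun v _ => (⟨b * v * b⁻¹, hV.conj_mem v v.2 b⟩ : V))
    (fun v _ => (⟨b⁻¹ * v * b⁻¹⁻¹, hV.conj_mem v v.2 b⁻¹⟩ : V)) ?_ ?_ ?_ ?_ ?_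
  · intro v _; exact Finset.mem_univ _
  · intro v _; exact Finset.mem_univ _
  · intro v _; apply Subtype.ext; simp [mul_assoc]
  · intro v _; apply Subtype.ext; simp [mul_assoc]
  · intro v _
    have : ((v : E) • ((1 : E) : E ⧸ D) = b⁻¹ • y) ↔
        (b * v * b⁻¹) • ((1 : E) : E ⧸ D) = y := by
      have h1 : b⁻¹ • ((1 : E) : E ⧸ D) = ((1 : E) : E ⧸ D) := by
        rw [inv_smul_eq_iff, hb1]
      rw [mul_smul, h1, mul_smul, eq_inv_smul_iff]
    simp only [this]

omit [Finite E] in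
theorem Star_count (V D : Subgroup E) [Fintype V] (y : E ⧸ D) :
    ∑ v : V, (open Classical in if (v : E) • y = ((1 : E) : E ⧸ D) then (1 : ZMod q) else 0) =
      Star_c q V D y := by
  classical
  unfold Star_c
  refine Fintype.sum_equiv (Equiv.inv V) _ _ ?_
  intro v
  have : ((v : E) • y = ((1 : E) : E ⧸ D)) ↔
      (((Equiv.inv V) v : V) : E) • ((1 : E) : E ⧸ D) = y := by
    change _ ↔ ((v : E)⁻¹) • ((1 : E) : E ⧸ D) = y
    rw [inv_smul_eq_iff]
    exact ⟨fun h => h.symm, fun h => h.symm⟩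
  simp only [this]

theorem Star_u_mem (V D : Subgroup E) [Fintype V] : Star_u q V D ∈ Fn q V D := by
  classical
  rw [Star_mem]
  intro y
  unfold Star_u
  rw [Finset.sum_sub_distrib]
  have h1 : ∑ v : V, Star_c q V D ((v : E) • y) = Nat.card V * Star_c q V D y := by
    simp only [fun v : V => Star_c_smul (q := q) V D (v : E) v.2 y]
    rw [Finset.sum_const, Finset.card_univ, nsmul_eq_mul, Nat.card_eq_fintype_card]
  have h2 : ∑ v : V, (if (v : E) • y = ((1 : E) : E ⧸ D) then ((Nat.card V : ℕ) : ZMod q) else 0) =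
      Nat.card V * Star_c q V D y := by
    rw [← Star_count, Finset.mul_sum]
    refine Finset.sum_congr rfl fun v _ => ?_
    split_ifs <;> simp
  rw [h1, h2, sub_self]

omit [Finite E] in
/-- `b` acts trivially on the base fibre -/
theorem Star_triv {V D : Subgroup E} [V.Normal] {b : E} (hF : Pre p E V D b) (v : E) (hv : v ∈ V) :
    b⁻¹ • v • ((1 : E) : E ⧸ D) = v • ((1 : E) : E ⧸ D) := by
  have hb1 : b • ((1 : E) : E ⧸ D) = ((1 : E) : E ⧸ D) := by
    change ((b * 1 : E) : E ⧸ D) = _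
    rw [QuotientGroup.eq]
    simpa using hF.hbD
  rw [inv_smul_eq_iff]
  have h1 := hF.triv v hv
  have hV : b * v * b⁻¹ * v⁻¹ ∈ V := V.mul_mem (hF.norm.conj_mem v hv b) (V.inv_mem hv)
  have h2 : b • v • ((1 : E) : E ⧸ D) = (b * v * b⁻¹) • ((1 : E) : E ⧸ D) := by
    rw [mul_smul, mul_smul]
    congr 2
    rw [eq_inv_smul_iff, hb1]
  have h3 : b * v * b⁻¹ = v * (b * v * b⁻¹ * v⁻¹) := by
    rw [hF.comm v hv _ hV]
    group
  rw [h2, h3, mul_smul]
  congr 1
  change _ = (((b * v * b⁻¹ * v⁻¹) * 1 : E) : E ⧸ D)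
  rw [QuotientGroup.eq]
  simpa using h1

end StarAux

theorem star {p q : ℕ} (hp : p.Prime) (hq : q.Prime) (hpq : p ≠ q) {E : Type} [Group E] [Finite E]
    {V D : Subgroup E} [V.Normal] {b : E} (hF : Pre p E V D b) :
    ∃ u : Fn q V D, rho q V D b u = u ∧
      ∀ U₁ : AddSubgroup (Fn q V D), (∀ g, ∀ x ∈ U₁, rho q V D g x ∈ U₁) →
        (∃ x₁ ∈ U₁, ∃ x, u = x₁ + (rho q V D b x - x)) → U₁ = ⊤ := by
  classical
  have : Fact q.Prime := ⟨hq⟩
  have : Fintype V := Fintype.ofFinite V
  have : Fintype (V ⊓ D : Subgroup E) := Fintype.ofFinite _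
  have hcV := Star_ne_zero hp hq hpq V hF.expo
  have hcK := Star_ne_zero hp hq hpq (V ⊓ D) (fun w hw => hF.expo w hw.1)
  have hb1 : b • ((1 : E) : E ⧸ D) = ((1 : E) : E ⧸ D) := by
    change ((b * 1 : E) : E ⧸ D) = _
    rw [QuotientGroup.eq]
    simpa using hF.hbD
  refine ⟨⟨Star_u q V D, Star_u_mem V D⟩, ?_, ?_⟩
  · apply Subtype.ext
    funext y
    rw [rho_apply]
    change Star_u q V D (b⁻¹ • y) = Star_u q V D y
    unfold Star_u
    rw [Star_c_conj V D b hF.hbD]
    congr 1
    have : (b⁻¹ • y = ((1 : E) : E ⧸ D)) ↔ (y = ((1 : E) : E ⧸ D)) := by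
      rw [inv_smul_eq_iff, hb1]
    simp only [this]
  · intro U₁ hinv hex
    obtain ⟨x₁, hx₁, x, hux⟩ := hex
    set u : Fn q V D := ⟨Star_u q V D, Star_u_mem V D⟩ with hu
    -- the averaging operator
    set e : Fn q V D → Fn q V D := fun z => ∑ k : (V ⊓ D : Subgroup E), rho q V D (k : E) z with he
    have he_apply : ∀ z : Fn q V D, ∀ y, (e z).1 y = ∑ k : (V ⊓ D : Subgroup E), z.1 ((k : E) • y) := by
      intro z y
      have h1 : (e z).1 y = ∑ k : (V ⊓ D : Subgroup E), (rho q V D (k : E) z).1 y := by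
        rw [he]
        simp only [AddSubgroup.val_finsetSum, Finset.sum_apply]
      rw [h1]
      refine Fintype.sum_equiv (Equiv.inv _) _ _ ?_
      intro k
      rw [rho_apply]
      rfl
    have he_mem : ∀ z ∈ U₁, e z ∈ U₁ := fun z hz => U₁.sum_mem fun k _ => hinv _ _ hz
    have he_out : ∀ z : Fn q V D, ∀ y, (∀ v ∈ V, (v • ((1 : E) : E ⧸ D)) ≠ y) → (e z).1 y = 0 := by
      intro z y hy
      rw [he_apply]
      exact Star_KF hp hq hpq hF z y hy
    have he_in : ∀ z : Fn q V D, ∀ v ∈ V, (e z).1 (v • ((1 : E) : E ⧸ D)) =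
        Nat.card (V ⊓ D : Subgroup E) * z.1 (v • ((1 : E) : E ⧸ D)) := by
      intro z v hv
      rw [he_apply]
      have : ∀ k : (V ⊓ D : Subgroup E), z.1 ((k : E) • v • ((1 : E) : E ⧸ D)) =
          z.1 (v • ((1 : E) : E ⧸ D)) := by
        intro k
        have hk : (k : E) • ((1 : E) : E ⧸ D) = ((1 : E) : E ⧸ D) := by
          change (((k : E) * 1 : E) : E ⧸ D) = _
          rw [QuotientGroup.eq]
          simpa using k.2.2
        rw [smul_smul, hF.comm (k : E) k.2.1 v hv, mul_smul, hk]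
      simp only [this]
      rw [Finset.sum_const, Finset.card_univ, nsmul_eq_mul, Nat.card_eq_fintype_card]
    have he_add : ∀ z z' : Fn q V D, e (z + z') = e z + e z' := by
      intro z z'
      rw [he]
      simp only [map_add, Finset.sum_add_distrib]
    have he_b : e (rho q V D b x - x) = 0 := by
      apply Subtype.ext
      funext y
      by_cases hy : ∀ v ∈ V, (v • ((1 : E) : E ⧸ D)) ≠ y
      · rw [he_out _ _ hy]; rfl
      · push Not at hy
        obtain ⟨v, hv, rfl⟩ := hy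
        rw [he_in _ v hv]
        have h1 : (rho q V D b x - x).1 (v • ((1 : E) : E ⧸ D)) = 0 := by
          change (rho q V D b x).1 (v • ((1 : E) : E ⧸ D)) - x.1 (v • ((1 : E) : E ⧸ D)) = 0
          rw [rho_apply, Star_triv hF v hv, sub_self]
        rw [h1, mul_zero]
        rfl
    have hu_out : ∀ y, (∀ v ∈ V, (v • ((1 : E) : E ⧸ D)) ≠ y) → u.1 y = 0 := by
      intro y hy
      change Star_u q V D y = 0
      unfold Star_u Star_c
      rw [if_neg, Finset.sum_eq_zero, sub_zero]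
      · intro v _
        rw [if_neg (hy v v.2)]
      · intro h
        exact hy 1 V.one_mem (by rw [one_smul, h])
    have hu_mem : u ∈ U₁ := by
      apply Star_div hq U₁ hcK
      have h1 : e u = Nat.card (V ⊓ D : Subgroup E) • u := by
        apply Subtype.ext
        funext y
        have h2 : (Nat.card (V ⊓ D : Subgroup E) • u).1 y = Nat.card (V ⊓ D : Subgroup E) * u.1 y := by
          change Nat.card (V ⊓ D : Subgroup E) • u.1 y = _
          rw [nsmul_eq_mul]
        rw [h2]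
        by_cases hy : ∀ v ∈ V, (v • ((1 : E) : E ⧸ D)) ≠ y
        · rw [he_out _ _ hy, hu_out _ hy, mul_zero]
        · push Not at hy
          obtain ⟨v, hv, rfl⟩ := hy
          rw [he_in _ v hv]
      rw [← h1, hux, he_add, he_b, add_zero]
      exact he_mem _ hx₁
    -- elements supported on the base fibre
    have hbase : ∀ z : Fn q V D, (∀ y, (∀ v ∈ V, (v • ((1 : E) : E ⧸ D)) ≠ y) → z.1 y = 0) → z ∈ U₁ := by
      intro z hz
      apply Star_div hq U₁ hcV
      apply Star_div hq U₁ hcK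
      have h1 : Nat.card (V ⊓ D : Subgroup E) • (Nat.card V • z) =
          ∑ v : V, (z.1 ((v : E) • ((1 : E) : E ⧸ D))).val • rho q V D (v : E) u := by
        apply Subtype.ext
        funext y
        have h2 : (Nat.card (V ⊓ D : Subgroup E) • (Nat.card V • z)).1 y =
            Nat.card (V ⊓ D : Subgroup E) * (Nat.card V * z.1 y) := by
          change Nat.card (V ⊓ D : Subgroup E) • (Nat.card V • z.1 y) = _
          rw [nsmul_eq_mul, nsmul_eq_mul]
        have h3 : (∑ v : V, (z.1 ((v : E) • ((1 : E) : E ⧸ D))).val • rho q V D (v : E) u).1 y =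
            ∑ v : V, z.1 ((v : E) • ((1 : E) : E ⧸ D)) * Star_u q V D ((v : E)⁻¹ • y) := by
          simp only [AddSubgroup.val_finsetSum, Finset.sum_apply]
          refine Finset.sum_congr rfl fun v _ => ?_
          change (z.1 ((v : E) • ((1 : E) : E ⧸ D))).val • (rho q V D (v : E) u).1 y = _
          rw [rho_apply, nsmul_eq_mul, ZMod.natCast_val, ZMod.cast_id', id_eq]
        have hz0 : ∑ v : V, z.1 ((v : E) • ((1 : E) : E ⧸ D)) = 0 := Star_mem.1 z.2 _
        have h4 : ∑ v : V, z.1 ((v : E) • ((1 : E) : E ⧸ D)) * Star_u q V D ((v : E)⁻¹ • y) =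
            Nat.card V * ∑ v : V, (if (v : E) • ((1 : E) : E ⧸ D) = y then
              z.1 ((v : E) • ((1 : E) : E ⧸ D)) else 0) := by
          have h5 : ∀ v : V, z.1 ((v : E) • ((1 : E) : E ⧸ D)) * Star_u q V D ((v : E)⁻¹ • y) =
              Nat.card V * (if (v : E) • ((1 : E) : E ⧸ D) = y then
                z.1 ((v : E) • ((1 : E) : E ⧸ D)) else 0) -
              z.1 ((v : E) • ((1 : E) : E ⧸ D)) * Star_c q V D y := by
            intro v
            unfold Star_u
            rw [Star_c_smul V D _ (V.inv_mem v.2), mul_sub]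
            congr 1
            have : ((v : E)⁻¹ • y = ((1 : E) : E ⧸ D)) ↔ ((v : E) • ((1 : E) : E ⧸ D) = y) := by
              rw [inv_smul_eq_iff]
              exact ⟨fun h => h.symm, fun h => h.symm⟩
            simp only [this]
            split_ifs <;> ring
          simp only [h5]
          rw [Finset.sum_sub_distrib, ← Finset.sum_mul, hz0, zero_mul, sub_zero, Finset.mul_sum]
        rw [h2, h3, h4]
        by_cases hy : ∀ v ∈ V, (v • ((1 : E) : E ⧸ D)) ≠ y
        · rw [hz y hy, Finset.sum_eq_zero]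
          · simp
          · intro v _
            rw [if_neg (hy v v.2)]
        · push Not at hy
          obtain ⟨w, hw, rfl⟩ := hy
          have h6 : ∑ v : V, (if (v : E) • ((1 : E) : E ⧸ D) = w • ((1 : E) : E ⧸ D) then
              z.1 ((v : E) • ((1 : E) : E ⧸ D)) else 0) =
              Nat.card (V ⊓ D : Subgroup E) * z.1 (w • ((1 : E) : E ⧸ D)) := by
            have h7 : ∀ v : V, (if (v : E) • ((1 : E) : E ⧸ D) = w • ((1 : E) : E ⧸ D) then
                z.1 ((v : E) • ((1 : E) : E ⧸ D)) else 0) =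
                (if (v : E) • ((1 : E) : E ⧸ D) = w • ((1 : E) : E ⧸ D) then 1 else 0) *
                  z.1 (w • ((1 : E) : E ⧸ D)) := by
              intro v
              split_ifs with h
              · rw [h, one_mul]
              · rw [zero_mul]
            simp only [h7]
            rw [← Finset.sum_mul]
            congr 1
            rw [Finset.sum_boole]
            congr 1
            rw [Nat.card_eq_fintype_card, ← Finset.card_univ]
            symm
            refine Finset.card_bij' (fun k _ => (⟨w * k, V.mul_mem hw k.2.1⟩ : V))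
              (fun v hv => (⟨w⁻¹ * v, V.mul_mem (V.inv_mem hw) v.2, ?_⟩ : (V ⊓ D : Subgroup E)))
              ?_ ?_ ?_ ?_
            · have h8 := (Finset.mem_filter.1 hv).2
              have h9 : ((w * 1 : E) : E ⧸ D) = (((v : E) * 1 : E) : E ⧸ D) := h8.symm
              rw [QuotientGroup.eq] at h9
              simpa using h9
            · intro k _
              rw [Finset.mem_filter]
              refine ⟨Finset.mem_univ _, ?_⟩
              change (((w * (k : E)) * 1 : E) : E ⧸ D) = ((w * 1 : E) : E ⧸ D)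
              symm
              rw [QuotientGroup.eq]
              simpa using k.2.2
            · intro v hv; exact Finset.mem_univ _
            · intro k _; apply Subtype.ext; simp
            · intro v _; apply Subtype.ext; simp
          rw [h6]
          ring
      rw [h1]
      refine U₁.sum_mem fun v _ => U₁.nsmul_mem (hinv _ _ hu_mem) _
    -- elements supported on one fibre
    have hfib : ∀ (z : Fn q V D) (y₁ : E ⧸ D), (∀ y, (∀ v ∈ V, (v • y₁) ≠ y) → z.1 y = 0) → z ∈ U₁ := by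
      intro z y₁ hz
      obtain ⟨g, rfl⟩ := QuotientGroup.mk_surjective y₁
      have h1 : rho q V D g⁻¹ z ∈ U₁ := by
        apply hbase
        intro y hy
        rw [rho_apply, inv_inv]
        apply hz
        intro v hv h
        apply hy (g⁻¹ * v * g⁻¹⁻¹) (hF.norm.conj_mem v hv g⁻¹)
        have h2 : v • ((g : E) : E ⧸ D) = (v * g) • ((1 : E) : E ⧸ D) := by
          change ((v * g : E) : E ⧸ D) = (((v * g) * 1 : E) : E ⧸ D)
          rw [mul_one]
        rw [h2] at h
        rw [← inv_smul_eq_iff.2 h.symm.symm, smul_smul]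
        congr 1
        group
      have h2 : rho q V D g (rho q V D g⁻¹ z) = z := SD.rho_rho_inv _ g z
      rw [← h2]
      exact hinv _ _ h1
    rw [eq_top_iff]
    intro z _
    have : Finite (E ⧸ D) := Quotient.finite _
    have : Fintype (E ⧸ D) := Fintype.ofFinite _
    have : Finite (MulAction.orbitRel.Quotient V (E ⧸ D)) := Quotient.finite _
    have : Fintype (MulAction.orbitRel.Quotient V (E ⧸ D)) := Fintype.ofFinite _
    set cl : E ⧸ D → MulAction.orbitRel.Quotient V (E ⧸ D) := fun y => Quotient.mk'' y with hcl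
    have hcl_smul : ∀ (v : V) (y : E ⧸ D), cl ((v : E) • y) = cl y := by
      intro v y
      apply Quotient.sound'
      rw [MulAction.orbitRel_apply]
      exact ⟨v, rfl⟩
    set zo : MulAction.orbitRel.Quotient V (E ⧸ D) → Fn q V D := fun o =>
      ⟨fun y => if cl y = o then z.1 y else 0, by
        rw [Star_mem]
        intro y
        simp only [hcl_smul]
        split_ifs
        · exact Star_mem.1 z.2 y
        · exact Finset.sum_const_zero⟩ with hzo
    have hsum : z = ∑ o, zo o := by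
      apply Subtype.ext
      funext y
      simp only [AddSubgroup.val_finsetSum, Finset.sum_apply, hzo]
      rw [Finset.sum_ite_eq]
      simp
    rw [hsum]
    refine U₁.sum_mem fun o _ => ?_
    obtain ⟨y₁, hy₁⟩ := Quotient.mk''_surjective o
    apply hfib (zo o) y₁
    intro y hy
    change (if cl y = o then z.1 y else 0) = 0
    rw [if_neg]
    intro h
    have h1 : cl y = cl y₁ := by rw [h, ← hy₁]
    have h2 := Quotient.exact' h1
    rw [MulAction.orbitRel_apply] at h2
    obtain ⟨v, hv⟩ := h2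
    exact hy v v.2 hv

end Helper76.PQ
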