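import Pool.Agent.Helper76.PQ.Ext
import Pool.Agent.Helper76.PQ.Star
import Pool.Agent.Helper76.PQ.Sec
import Pool.Agent.Helper76.PQ.Norm
import Pool.Agent.Helper76.PQ.Count

set_option autoImplicit false

namespace Helper76.PQ

open Helper76.IG

section Basic

variable {E : Type} [Group E] [Finite E]

theorem nsmul_Fn (q : ℕ) (V D : Subgroup E) (x : Fn q V D) : q • x = 0 := by
  apply Subtype.ext
  funext y
  change q • x.1 y = 0
  rw [nsmul_eq_mul, ZMod.natCast_self, zero_mul]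

/-- a function of the module that is fixed by `V` vanishes -/
theorem fix_Fn {q : ℕ} [Fact q.Prime] {V D : Subgroup E} [V.Normal] (hqV : ¬ q ∣ Nat.card V)
    (x : Fn q V D) (hx : ∀ v ∈ V, rho q V D v x = x) : x = 0 := by
  apply Subtype.ext
  funext y
  have h1 : ∀ v : V, x.1 ((v : E) • y) = x.1 y := by
    intro v
    have h2 := congrArg (fun z : Fn q V D => z.1 ((v : E) • y)) (hx v v.2)
    have h3 : (rho q V D (v : E) x).1 ((v : E) • y) = x.1 y := by
      rw [rho_apply, smul_smul, inv_mul_cancel, one_smul]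
    exact (h3.symm.trans h2).symm
  have h2 := x.2 y
  have := Fintype.ofFinite V
  rw [finsum_eq_sum_of_fintype, Finset.sum_congr rfl (fun v _ => h1 v), Finset.sum_const,
    Finset.card_univ, ← Nat.card_eq_fintype_card, nsmul_eq_mul] at h2
  rcases mul_eq_zero.1 h2 with h3 | h3
  · exact absurd ((ZMod.natCast_eq_zero_iff _ _).1 h3) hqV
  · exact h3

theorem card_V_of_expo {p : ℕ} (hp : p.Prime) {V : Subgroup E} (hV : ∀ v ∈ V, v ^ p = 1)
    {q : ℕ} (hq : q.Prime) (hpq : p ≠ q) : ¬ q ∣ Nat.card V := by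
  intro h
  have : Fact q.Prime := ⟨hq⟩
  obtain ⟨v, hv⟩ := exists_prime_orderOf_dvd_card' q h
  have h1 : orderOf v ∣ p := orderOf_dvd_of_pow_eq_one (Subtype.ext (hV v v.2))
  rw [hv] at h1
  exact hpq ((Nat.prime_dvd_prime_iff_eq hq hp).1 h1).symm

theorem lam_rho_a {q : ℕ} {V D : Subgroup E} [V.Normal] {a : E} {Z : Set (E ⧸ D)}
    (hZ : ∀ z ∈ Z, a • z ∈ Z) {p : ℕ} (ha : a ^ p = 1) (hp : 0 < p) (x : Fn q V D) :
    lam q V D Z (rho q V D a x) = lam q V D Z x := by
  rw [lam_apply, lam_apply]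
  have hZn : ∀ (n : ℕ), ∀ z ∈ Z, a ^ n • z ∈ Z := by
    intro n
    induction n with
    | zero => intro z hz; rwa [pow_zero, one_smul]
    | succ n ih => intro z hz; rw [pow_succ', mul_smul]; exact hZ _ (ih z hz)
  have hinv : a⁻¹ = a ^ (p - 1) := by
    rw [inv_eq_iff_mul_eq_one, ← pow_succ']
    rw [Nat.sub_add_cancel hp, ha]
  refine finsum_eq_of_bijective (fun z : Z => (⟨a⁻¹ • z.1, by
    rw [hinv]; exact hZn _ _ z.2⟩ : Z)) ?_ ?_
  · constructor
    · intro z w h
      have h1 : a⁻¹ • z.1 = a⁻¹ • w.1 := congrArg Subtype.val h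
      exact Subtype.ext (MulAction.injective _ h1)
    · intro w
      refine ⟨⟨a • w.1, hZ _ w.2⟩, ?_⟩
      apply Subtype.ext
      change a⁻¹ • a • w.1 = w.1
      rw [smul_smul, inv_mul_cancel, one_smul]
  · intro z
    rfl

/-- the subgroup of the new frame -/
def newD {q : ℕ} {V D : Subgroup E} [V.Normal] (a : E) {Z : Set (E ⧸ D)}
    (hlam : ∀ x : Fn q V D, lam q V D Z (rho q V D a x) = lam q V D Z x) :
    Subgroup (SD (rho q V D)) where
  carrier := {x | lam q V D Z x.l = 0 ∧ ∃ i : ℕ, x.r = a ^ i}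
  one_mem' := ⟨map_zero _, 0, (pow_zero a).symm⟩
  mul_mem' := by
    rintro x y ⟨hx, i, hi⟩ ⟨hy, j, hj⟩
    have hpow : ∀ (n : ℕ) (x : Fn q V D), lam q V D Z (rho q V D (a ^ n) x) = lam q V D Z x := by
      intro n
      induction n with
      | zero => intro x; rw [pow_zero, SD.rho_one]
      | succ n ih => intro x; rw [pow_succ', SD.rho_mul, hlam, ih]
    refine ⟨?_, i + j, ?_⟩
    · change lam q V D Z (x.l + rho q V D x.r y.l) = 0
      rw [map_add, hx, hi, hpow, hy, add_zero]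
    · change x.r * y.r = a ^ (i + j)
      rw [hi, hj, pow_add]
  inv_mem' := by
    rintro x ⟨hx, i, hi⟩
    have hpow : ∀ (n : ℕ) (x : Fn q V D), lam q V D Z (rho q V D (a ^ n) x) = lam q V D Z x := by
      intro n
      induction n with
      | zero => intro x; rw [pow_zero, SD.rho_one]
      | succ n ih => intro x; rw [pow_succ', SD.rho_mul, hlam, ih]
    obtain ⟨j, hj⟩ : ∃ j : ℕ, (a ^ i)⁻¹ = a ^ j := by
      have h1 := isOfFinOrder_of_finite a
      have h2 : (a ^ i)⁻¹ ∈ Subgroup.zpowers a :=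
        Subgroup.inv_mem _ (Subgroup.npow_mem_zpowers a i)
      rw [← h1.mem_powers_iff_mem_zpowers] at h2
      obtain ⟨j, hj⟩ := h2
      exact ⟨j, hj.symm⟩
    refine ⟨?_, j, ?_⟩
    · change lam q V D Z (-rho q V D x.r⁻¹ x.l) = 0
      rw [map_neg, hi, hj, hpow, hx, neg_zero]
    · change x.r⁻¹ = a ^ j
      rw [hi, hj]

theorem mem_newD {q : ℕ} {V D : Subgroup E} [V.Normal] (a : E) {Z : Set (E ⧸ D)}
    (hlam : ∀ x : Fn q V D, lam q V D Z (rho q V D a x) = lam q V D Z x)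
    (x : SD (rho q V D)) : x ∈ newD a hlam ↔ lam q V D Z x.l = 0 ∧ ∃ i : ℕ, x.r = a ^ i := Iff.rfl

end Basic

/-- construction of a frame from the data -/
theorem mk_frame {p q : ℕ} (hp : p.Prime) (hq : q.Prime) (hpq : p ≠ q) {E : Type} [Group E]
    [Finite E] {V D : Subgroup E} [V.Normal] {a b : E} (hF : Pre p E V D b) (ha : a ^ p = 1)
    (hb : b ^ q = 1) (hb1 : b ≠ 1) (hab : InvGen a b) {Z : Set (E ⧸ D)}
    (hZ : ∀ z ∈ Z, a • z ∈ Z) (hlam1 : ∃ x : Fn q V D, lam q V D Z x ≠ 0)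
    (hnorm : ∀ g : E, (∀ x : Fn q V D, lam q V D Z x = 0 → lam q V D Z (rho q V D g x) = 0) →
      ∃ i : ℕ, g = a ^ i)
    (hcount : ∀ x : Fn q V D, x ≠ 0 →
      2 * p * q < Nat.card {g : E // lam q V D Z (rho q V D g⁻¹ x) ≠ 0}) :
    ∃ (D' : Subgroup (SD (rho q V D))) (b' : SD (rho q V D)),
      Frame q p (SD (rho q V D)) (SD.toE (rho q V D)).ker D' b' (SD.inr (rho q V D) a) := by
  have : Fact q.Prime := ⟨hq⟩
  obtain ⟨u, hbu, hu⟩ := star hp hq hpq hF
  have hqV := card_V_of_expo hp hF.expo hq hpq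
  have hlam := lam_rho_a (q := q) (V := V) hZ ha hp.pos
  set ρ := rho q V D with hρ
  have hker : ∀ x : SD ρ, x ∈ (SD.toE ρ).ker → x = ⟨x.l, 1⟩ := by
    intro x hx
    ext
    · rfl
    · exact (SD.mem_ker ρ x).1 hx
  have hconj : ∀ (y : SD ρ) (x : Fn q V D), y * ⟨x, 1⟩ * y⁻¹ = ⟨ρ y.r x, 1⟩ := by
    intro y x
    ext1
    · change y.l + ρ y.r x + ρ (y.r * 1) (-ρ y.r⁻¹ y.l) = ρ y.r x
      rw [mul_one, map_neg, SD.rho_rho_inv]
      abel
    · change y.r * 1 * y.r⁻¹ = 1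
      group
  have hmul1 : ∀ x y : Fn q V D, (⟨x, 1⟩ : SD ρ) * ⟨y, 1⟩ = ⟨x + y, 1⟩ := by
    intro x y
    ext1
    · change x + ρ 1 y = x + y
      rw [SD.rho_one]
    · exact one_mul _
  have hpow1 : ∀ (n : ℕ) (x : Fn q V D), (⟨x, 1⟩ : SD ρ) ^ n = ⟨n • x, 1⟩ := by
    intro n x
    induction n with
    | zero =>
      rw [pow_zero, zero_smul]
      rfl
    | succ n ih => rw [pow_succ, ih, hmul1, succ_nsmul]
  have hinv1 : ∀ x : Fn q V D, (⟨x, 1⟩ : SD ρ)⁻¹ = ⟨-x, 1⟩ := by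
    intro x
    ext1
    · change -ρ 1⁻¹ x = -x
      rw [inv_one, SD.rho_one]
    · exact inv_one
  have hbpow : ∀ n : ℕ, (⟨u, b⟩ : SD ρ) ^ n = ⟨n • u, b ^ n⟩ := by
    intro n
    induction n with
    | zero =>
      rw [pow_zero, zero_smul, pow_zero]
      rfl
    | succ n ih =>
      rw [pow_succ, ih]
      ext1
      · change n • u + ρ (b ^ n) u = (n + 1) • u
        have : ∀ n : ℕ, ρ (b ^ n) u = u := by
          intro n
          induction n with
          | zero => rw [pow_zero, SD.rho_one]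
          | succ n ih => rw [pow_succ, SD.rho_mul, hbu, ih]
        rw [this, succ_nsmul]
      · change b ^ n * b = b ^ (n + 1)
        rw [pow_succ]
  refine ⟨newD a hlam, ⟨u, b⟩, ?_⟩
  refine
    { norm := inferInstance
      comm := ?_
      expo := ?_
      hbD := ?_
      triv := ?_
      cyc := ?_
      dist := ?_
      ha := ?_
      hb := ?_
      ig := ?_
      haV := ?_
      hD := ?_
      count := ?_
      cen := ?_ }
  · intro v hv w hw
    rw [hker v hv, hker w hw, hmul1, hmul1, add_comm]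
  · intro v hv
    rw [hker v hv, hpow1, nsmul_Fn]
    rfl
  · exact (mem_newD a hlam _).2 ⟨map_zero _, 1, (pow_one a).symm⟩
  · intro v hv
    rw [hker v hv, hconj, hinv1, hmul1]
    refine (mem_newD a hlam _).2 ⟨?_, 0, (pow_zero a).symm⟩
    change lam q V D Z (ρ a v.l + -v.l) = 0
    rw [map_add, hlam, map_neg, add_neg_cancel]
  · obtain ⟨x, hx⟩ := hlam1
    refine ⟨⟨x, 1⟩, rfl, fun h => hx ((mem_newD a hlam _).1 h).1, ?_⟩
    intro v hv
    -- `lam v + i lam x = 0`
    obtain ⟨i, hi⟩ : ∃ i : ℕ, lam q V D Z v.l + i • lam q V D Z x = 0 := by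
      refine ⟨(-(lam q V D Z v.l) / lam q V D Z x).val, ?_⟩
      rw [nsmul_eq_mul, ZMod.natCast_val, ZMod.cast_id, div_mul_cancel₀ _ hx]
      exact add_neg_cancel _
    refine ⟨i, ?_⟩
    rw [hker v hv, hpow1, hmul1]
    refine (mem_newD a hlam _).2 ⟨?_, 0, (pow_zero a).symm⟩
    change lam q V D Z (v.l + i • x) = 0
    rw [map_add, map_nsmul, hi]
  · intro g hg
    obtain ⟨i, hi⟩ := hnorm g.r (by
      intro x hx
      have h1 := hg ⟨x, 1⟩ rfl ((mem_newD a hlam _).2 ⟨hx, 0, (pow_zero a).symm⟩)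
      rw [hconj] at h1
      exact ((mem_newD a hlam _).1 h1).1)
    refine ⟨⟨g.l, 1⟩, rfl, ⟨0, g.r⟩, (mem_newD a hlam _).2 ⟨map_zero _, i, hi⟩, ?_⟩
    ext1
    · change g.l = g.l + ρ 1 0
      rw [map_zero, add_zero]
    · exact (one_mul _).symm
  · rw [hbpow, nsmul_Fn, hb]
    rfl
  · rw [← map_pow, ha, map_one]
  · exact (ext_invGen ρ hab V hq (nsmul_Fn q V D) hqV (fun x hx => fix_Fn hqV x hx) u hu).symm
  · intro h
    exact hb1 h
  · intro d hd
    obtain ⟨h1, i, hi⟩ := (mem_newD a hlam _).1 hd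
    refine ⟨⟨d.l, 1⟩, rfl, i, ?_⟩
    rw [← map_pow, ← hi]
    ext1
    · change d.l = d.l + ρ 1 0
      rw [map_zero, add_zero]
    · exact (one_mul _).symm
  · intro v hv hv1
    have hvl : v.l ≠ 0 := by
      intro h
      apply hv1
      rw [hker v hv, h]
      rfl
    have h1 := hcount v.l hvl
    -- cardinalities
    have hcU : Nat.card (SD.toE ρ).ker = Nat.card (Fn q V D) := by
      refine Nat.card_congr
        { toFun := fun x => x.1.l
          invFun := fun x => ⟨⟨x, 1⟩, rfl⟩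
          left_inv := fun x => Subtype.ext (hker x.1 x.2).symm
          right_inv := fun x => rfl }
    have hcc : Nat.card {g : SD ρ // g⁻¹ * v * g ∉ newD a hlam} =
        Nat.card (Fn q V D) * Nat.card {g : E // lam q V D Z (ρ g⁻¹ v.l) ≠ 0} := by
      rw [← Nat.card_prod]
      have hiff : ∀ g : SD ρ, g⁻¹ * v * g ∉ newD a hlam ↔ lam q V D Z (ρ g.r⁻¹ v.l) ≠ 0 := by
        intro g
        have h2 := hconj g⁻¹ v.l
        rw [← hker v hv, inv_inv] at h2
        rw [h2, mem_newD, not_and_or]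
        constructor
        · rintro (h3 | h3)
          · exact h3
          · exact absurd ⟨0, (pow_zero a).symm⟩ h3
        · intro h3
          exact Or.inl h3
      refine Nat.card_congr
        { toFun := fun g => (g.1.l, ⟨g.1.r, (hiff g.1).1 g.2⟩)
          invFun := fun g => ⟨⟨g.1, g.2.1⟩, (hiff _).2 g.2.2⟩
          left_inv := fun g => rfl
          right_inv := fun g => rfl }
    rw [hcU, hcc]
    have hpos : 0 < Nat.card (Fn q V D) := Nat.card_pos
    calc 2 * q * p * Nat.card (Fn q V D) = Nat.card (Fn q V D) * (2 * p * q) := by ring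
      _ < _ := Nat.mul_lt_mul_of_pos_left h1 hpos
  · intro _ v hv hcen
    rw [hker v hv]
    have : v.l = 0 := by
      apply fix_Fn hqV
      intro w _
      have h1 := hcen ⟨0, w⟩
      rw [hker v hv, hconj] at h1
      exact congrArg SD.l h1
    rw [this]
    rfl

/-- in a frame `b ≠ 1` -/
theorem Frame.b_ne_one {p q : ℕ} (hp : p.Prime) {E : Type} [Group E] [Finite E]
    {V D : Subgroup E} {a b : E} (hF : Frame p q E V D a b) : b ≠ 1 := by
  intro hb
  obtain ⟨v₀, hv₀, hv₀D, _⟩ := hF.cyc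
  have htop : Subgroup.zpowers a = ⊤ := by
    apply hF.ig.eq_top (g := 1) (k := 1)
    · rw [inv_one, one_mul, mul_one]
      exact Subgroup.mem_zpowers a
    · rw [hb]
      simp
  -- `v₀` is a power of `a`
  have h1 : v₀ ∈ Subgroup.zpowers a := by rw [htop]; exact Subgroup.mem_top _
  obtain ⟨k, hk⟩ := Subgroup.mem_zpowers_iff.1 h1
  have hpa : orderOf a = p := by
    have h2 : orderOf a ∣ p := orderOf_dvd_of_pow_eq_one hF.ha
    rcases (Nat.dvd_prime hp).1 h2 with h3 | h3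
    · exfalso
      apply hF.haV
      rw [orderOf_eq_one_iff.1 h3]
      exact V.one_mem
    · exact h3
  have hv₀1 : v₀ ≠ 1 := fun h => hv₀D (by rw [h]; exact D.one_mem)
  apply hF.haV
  -- `a ∈ ⟨v₀⟩`
  have hkp : IsCoprime (k : ℤ) (p : ℤ) := by
    rw [Int.isCoprime_iff_gcd_eq_one, Int.gcd_comm]
    by_contra hcon
    have h3 : ¬ IsCoprime (p : ℤ) k := by rwa [Int.isCoprime_iff_gcd_eq_one]
    have h4 : (p : ℤ) ∣ k := by
      by_contra h5
      exact h3 ((Nat.prime_iff_prime_int.1 hp).coprime_iff_not_dvd.2 h5)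
    obtain ⟨c, hc⟩ := h4
    apply hv₀1
    rw [← hk, hc, zpow_mul, zpow_natCast, hF.ha, one_zpow]
  obtain ⟨m, n, hmn⟩ := hkp
  have h6 : a = v₀ ^ m := by
    rw [← hk, ← zpow_mul]
    have h7 : k * m = 1 - p * n := by linarith [mul_comm m k, mul_comm n (p : ℤ)]
    rw [h7, zpow_sub, zpow_one, zpow_mul, zpow_natCast, hF.ha, one_zpow, inv_one, mul_one]
  rw [h6]
  exact V.zpow_mem hv₀ m

/-- **The step**: a frame gives a frame on the extension by the function module, with the roles of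
the primes exchanged. -/
theorem step {p q : ℕ} (hp : p.Prime) (hq : q.Prime) (hpq : p ≠ q) {E : Type} [Group E]
    [Finite E] {V D : Subgroup E} [V.Normal] {a b : E} (hF : Frame p q E V D a b) :
    ∃ (D' : Subgroup (SD (rho q V D))) (b' : SD (rho q V D)),
      Frame q p (SD (rho q V D)) (SD.toE (rho q V D)).ker D' b' (SD.inr (rho q V D) a) := by
  have : Fact q.Prime := ⟨hq⟩
  obtain ⟨Z, hZ⟩ := exists_sec hp hq hpq hF (QuotientGroup.mk 1)
  have hcount := count_lam hp hq hpq hF hZ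
  refine mk_frame hp hq hpq hF.toPre hF.ha hF.hb (hF.b_ne_one hp) hF.ig hZ.inv ?_
    (norm_lam hp hq hpq hF hZ) hcount
  -- there is `x` with `lam x ≠ 0`, because the module is not zero
  by_contra hcon
  push Not at hcon
  have hz : ∀ x : Fn q V D, x = 0 := by
    intro x
    by_contra hx
    have h1 := hcount x hx
    have h2 : IsEmpty {g : E // lam q V D Z (rho q V D g⁻¹ x) ≠ 0} :=
      ⟨fun g => g.2 (hcon _)⟩
    rw [Nat.card_of_isEmpty] at h1
    omega
  obtain ⟨u, -, hu⟩ := star hp hq hpq hF.toPre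
  -- the module is not zero: `δ_D - δ_{v₀ D}`
  obtain ⟨v₀, hv₀, hv₀D, _⟩ := hF.cyc
  classical
  have hY : ((v₀ : E) : E ⧸ D) ≠ ((1 : E) : E ⧸ D) := by
    intro h
    apply hv₀D
    have := QuotientGroup.eq.1 h.symm
    simpa using this
  let f : E ⧸ D → ZMod q := fun y => (if y = ((1 : E) : E ⧸ D) then 1 else 0) -
    (if y = ((v₀ : E) : E ⧸ D) then 1 else 0)
  have hf : f ∈ Fn q V D := by
    intro y
    have := Fintype.ofFinite V
    rw [finsum_eq_sum_of_fintype]
    change ∑ v : V, ((if (v : E) • y = ((1 : E) : E ⧸ D) then (1 : ZMod q) else 0) -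
      (if (v : E) • y = ((v₀ : E) : E ⧸ D) then 1 else 0)) = 0
    rw [Finset.sum_sub_distrib, sub_eq_zero]
    refine Fintype.sum_equiv (Equiv.mulLeft (⟨v₀, hv₀⟩ : V)) _ _ (fun v => ?_)
    have h1 : ((((Equiv.mulLeft (⟨v₀, hv₀⟩ : V)) v : V) : E) • y = ((v₀ : E) : E ⧸ D)) ↔
        ((v : E) • y = ((1 : E) : E ⧸ D)) := by
      change (v₀ * (v : E)) • y = _ ↔ _
      rw [mul_smul]
      have h2 : ((v₀ : E) : E ⧸ D) = v₀ • ((1 : E) : E ⧸ D) := by
        change _ = ((v₀ * 1 : E) : E ⧸ D)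
        rw [mul_one]
      rw [h2]
      exact smul_left_cancel_iff v₀
    simp only [h1]
  have h1 := congrArg (fun z : Fn q V D => z.1 ((1 : E) : E ⧸ D)) (hz ⟨f, hf⟩)
  change f ((1 : E) : E ⧸ D) = 0 at h1
  have h2 : f ((1 : E) : E ⧸ D) = 1 := by
    change (if ((1 : E) : E ⧸ D) = ((1 : E) : E ⧸ D) then (1 : ZMod q) else 0) -
      (if ((1 : E) : E ⧸ D) = ((v₀ : E) : E ⧸ D) then 1 else 0) = 1
    rw [if_pos rfl, if_neg (fun h => hY h.symm), sub_zero]
  rw [h2] at h1
  exact one_ne_zero h1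

end Helper76.PQ
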